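import Pool.Agent.H256R2.EF.Defs

/-!
Task ASY, part 1: chaining the levels.
-/

set_option autoImplicit false

namespace Pool.Agent.H256R2.EF

open Finset

theorem Rep.mono {N X h h' : ℕ} (hR : Rep N X h) (hh : h ≤ h') : Rep N X h' := by
  intro m hm
  obtain ⟨D, h1, h2, h3⟩ := hR m hm
  exact ⟨D, h1, h2, h3.trans hh⟩

theorem Con.mono {Y e loss n bud h bud' : ℕ} (hC : Con Y e loss n bud h) (hb : bud ≤ bud') :
    Con Y e loss n bud' h := by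
  intro V U hV hVc hsq
  obtain ⟨W, h1, h2, h3, X, h4, h5⟩ := hC V U hV hVc
    (le_trans (Nat.pow_le_pow_left (by omega) 2) hsq)
  exact ⟨W, h1, h2, h3.trans hb, X, h4, h5⟩

theorem Kn_succ (n : ℕ) : Kn (n + 1) = 2 * Kn n := by
  unfold Kn; rw [pow_succ]; ring

theorem Kn_pos (n : ℕ) : 0 < Kn n := by unfold Kn; positivity

theorem Kn_mono {m n : ℕ} (h : m ≤ n) : Kn m ≤ Kn n := by
  unfold Kn
  exact Nat.mul_le_mul_left _ (Nat.pow_le_pow_right (by norm_num) h)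

/-- number of terms used at the levels below `n` -/
def hL (ℓ e L n : ℕ) : ℕ := e + 1 + 40 * ∑ j ∈ range n, (128 * ℓ / (L - j + 1) + 1)

theorem lev_chain (Y ℓ e L : ℕ)
    (hstep : ∀ ℓ e L n bud h : ℕ, 4 * Y ≤ 2 ^ ℓ → n < L →
      ℓ ≤ 128 * (L + 1) → (80 * Kn L) ^ 20 ≤ Y → Lev Y e n bud h →
      Lev Y e (n + 1) (bud + 160 * Kn L) (h + 40 * (128 * ℓ / (L - n + 1) + 1)))
    (hbase : 40 * (4 * Y) ^ 4096 < 2 ^ (e + 1) → Lev Y e 0 0 (e + 1))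
    (he : 40 * (4 * Y) ^ 4096 < 2 ^ (e + 1)) (h4 : 4 * Y ≤ 2 ^ ℓ) (hℓ : ℓ ≤ 128 * (L + 1))
    (hK : (80 * Kn L) ^ 20 ≤ Y) (n : ℕ) (hn : n ≤ L) :
    Lev Y e n (n * (160 * Kn L)) (hL ℓ e L n) := by
  induction n with
  | zero =>
    have := hbase he
    simpa [hL] using this
  | succ n ih =>
    have h1 := hstep ℓ e L n _ _ h4 (by omega) hℓ hK (ih (by omega))
    have e1 : (n + 1) * (160 * Kn L) = n * (160 * Kn L) + 160 * Kn L := by ring
    have e2 : hL ℓ e L (n + 1) = hL ℓ e L n + 40 * (128 * ℓ / (L - n + 1) + 1) := by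
      unfold hL
      rw [Finset.sum_range_succ]
      ring
    rw [e1, e2]
    exact h1

theorem con_chain (Y ℓ e loss L bud0 h0 : ℕ)
    (hstep : ∀ ℓ e loss n bud h : ℕ, 4 * Y ≤ 2 ^ ℓ →
      32 * ℓ ≤ Kn (n + 1) → 10240 * ℓ + 1 ≤ Y → (80 * Kn (n + 1)) ^ 20 ≤ Y →
      Con Y e loss n bud h →
      Con Y e loss (n + 1) (bud + 80 * Kn (n + 1)) (h + 40 * (10240 * ℓ + 1)))
    (h4 : 4 * Y ≤ 2 ^ ℓ) (hℓK : 32 * ℓ ≤ Kn L) (hℓY : 10240 * ℓ + 1 ≤ Y)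
    (hbase : Con Y e loss L bud0 h0) (k : ℕ) (hk : (80 * Kn (L + k)) ^ 20 ≤ Y) :
    Con Y e loss (L + k) (bud0 + 160 * Kn (L + k)) (h0 + 40 * (10240 * ℓ + 1) * k) := by
  induction k with
  | zero => simpa using hbase.mono (by omega)
  | succ k ih =>
    have hk' : (80 * Kn (L + k)) ^ 20 ≤ Y := by
      refine le_trans (Nat.pow_le_pow_left (Nat.mul_le_mul_left _ (Kn_mono (by omega))) 20) hk
    have h1 := hstep ℓ e loss (L + k) _ _ h4
      (hℓK.trans (Kn_mono (by omega))) hℓY hk (ih hk')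
    have e2 : h0 + 40 * (10240 * ℓ + 1) * (k + 1)
        = h0 + 40 * (10240 * ℓ + 1) * k + 40 * (10240 * ℓ + 1) := by ring
    rw [e2]
    have e3 := Kn_succ (L + k)
    refine Con.mono h1 ?_
    have e4 : L + (k + 1) = (L + k) + 1 := by ring
    rw [e4]
    omega

end Pool.Agent.H256R2.EF
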