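import Pool.Agent.H256R2.EF.Defs

/-!
Task FIN: assembly of one Egyptian fraction.
-/

set_option autoImplicit false

namespace Pool.Agent.H256R2.EF

open Finset

theorem exists_smooth_rough (Z : ℕ) (n : ℕ) (hn : 0 < n) :
    ∃ v1 v2 : ℕ, n = v1 * v2 ∧ 0 < v1 ∧ 0 < v2 ∧ (∀ p : ℕ, p.Prime → p ∣ v1 → p ≤ Z) ∧
      (∀ p : ℕ, p.Prime → p ∣ v2 → Z < p) := by
  induction n using induction_on_primes with
  | zero => exact absurd hn (lt_irrefl _)
  | one =>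
    refine ⟨1, 1, rfl, one_pos, one_pos, ?_, ?_⟩ <;>
    · intro p hp h
      exact absurd (Nat.dvd_one.1 h) hp.one_lt.ne'
  | prime_mul q m hq ih =>
    obtain ⟨v1, v2, h, h1, h2, h3, h4⟩ := ih (Nat.pos_of_mul_pos_left hn)
    by_cases hZ : q ≤ Z
    · refine ⟨q * v1, v2, by rw [h]; ring, Nat.mul_pos hq.pos h1, h2, ?_, h4⟩
      intro p hp hd
      rcases (Nat.Prime.dvd_mul hp).1 hd with h' | h'
      · rwa [(Nat.prime_dvd_prime_iff_eq hp hq).1 h']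
      · exact h3 p hp h'
    · refine ⟨v1, q * v2, by rw [h]; ring, h1, Nat.mul_pos hq.pos h2, h3, ?_⟩
      intro p hp hd
      rcases (Nat.Prime.dvd_mul hp).1 hd with h' | h'
      · rw [(Nat.prime_dvd_prime_iff_eq hp hq).1 h']; omega
      · exact h4 p hp h'

theorem sum_inv_eq (S : Finset ℕ) (hS : ∀ n ∈ S, 0 < n) :
    ∃ c : ℕ, ∑ n ∈ S, (1 : ℚ) / n = (c : ℚ) / ((∏ n ∈ S, n : ℕ) : ℚ) := by
  classical
  induction S using Finset.induction_on with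
  | empty => exact ⟨0, by simp⟩
  | insert a s ha ih =>
    obtain ⟨c, hc⟩ := ih (fun n hn => hS n (Finset.mem_insert_of_mem hn))
    refine ⟨(∏ n ∈ s, n) + a * c, ?_⟩
    rw [Finset.sum_insert ha, Finset.prod_insert ha, hc]
    have ha0 : (a : ℚ) ≠ 0 := by
      have := hS a (Finset.mem_insert_self _ _)
      exact_mod_cast this.ne'
    have hp0 : ((∏ n ∈ s, n : ℕ) : ℚ) ≠ 0 := by
      have : 0 < ∏ n ∈ s, n := Finset.prod_pos (fun n hn => hS n (Finset.mem_insert_of_mem hn))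
      exact_mod_cast this.ne'
    push_cast at hp0 ⊢
    field_simp

theorem inv_image (W : ℕ) (hW : 0 < W) (D : Finset ℕ) (hD : D ⊆ W.divisors) :
    ∃ E : Finset ℕ, E.card = D.card ∧ (∀ n ∈ E, ∃ d ∈ D, n * d = W) ∧
      ∑ n ∈ E, (1 : ℚ) / n = ((∑ d ∈ D, d : ℕ) : ℚ) / (W : ℚ) := by
  classical
  have hdv : ∀ d ∈ D, d ∣ W := fun d hd => (Nat.mem_divisors.1 (hD hd)).1
  have hd0 : ∀ d ∈ D, 0 < d := fun d hd => Nat.pos_of_dvd_of_pos (hdv d hd) hW
  have hinj : Set.InjOn (fun d => W / d) (D : Set ℕ) := by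
    intro x hx y hy hxy
    simp only at hxy
    have h1 := Nat.div_mul_cancel (hdv x hx)
    have h2 := Nat.div_mul_cancel (hdv y hy)
    have h3 : 0 < W / x := Nat.div_pos (Nat.le_of_dvd hW (hdv x hx)) (hd0 x hx)
    rw [hxy] at h1 h3
    exact Nat.eq_of_mul_eq_mul_left h3 (h1.trans h2.symm)
  refine ⟨D.image (fun d => W / d), Finset.card_image_of_injOn hinj, ?_, ?_⟩
  · intro n hn
    obtain ⟨d, hd, rfl⟩ := Finset.mem_image.1 hn
    exact ⟨d, hd, Nat.div_mul_cancel (hdv d hd)⟩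
  · rw [Finset.sum_image hinj]
    push_cast
    rw [Finset.sum_div]
    refine Finset.sum_congr rfl (fun d hd => ?_)
    have hd1 : (d : ℚ) ≠ 0 := by exact_mod_cast (hd0 d hd).ne'
    have hW1 : (W : ℚ) ≠ 0 := by exact_mod_cast hW.ne'
    rw [Nat.cast_div (hdv d hd) hd1]
    field_simp

theorem fin_assembly_of
    (greedy : ∀ (b I : ℕ) (_ : 2 ≤ b) (_ : b ≤ 2 ^ 2 ^ I) (x : ℚ) (_ : 0 < x) (_ : x < 1),
      ∃ S : Finset ℕ, (∀ n ∈ S, 2 ≤ n ∧ n ≤ b) ∧ S.card ≤ I + 1 ∧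
        0 ≤ x - ∑ n ∈ S, (1 : ℚ) / n ∧ x - ∑ n ∈ S, (1 : ℚ) / n ≤ 1 / b ∧
        ∀ n ∈ S, x - ∑ n ∈ S, (1 : ℚ) / n < 1 / n)
    (b I Z K T h loss : ℕ) (hb : 2 ≤ b) (hI : b ≤ 2 ^ 2 ^ I)
    (hT : T ≤ 40 * Z ^ K) (hlb : loss ≤ b) (hbK : b ^ (I + 2) ≤ 2 ^ K)
    (hv : ∀ v : ℕ, 1 ≤ v → v ≤ b ^ (I + 2) → (∀ p : ℕ, p.Prime → p ∣ v → Z < p) →
      ∃ N X : ℕ, 0 < N ∧ (∀ p : ℕ, p.Prime → p ∣ N → p ≤ Z) ∧ Rep N X h ∧ N ≤ loss * X ∧
        2 ^ K ≤ X ∧ 40 * Z ^ K ≤ N ∧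
        ∀ m : ℕ, ∃ D : Finset ℕ, D ⊆ N.divisors ∧ D.card ≤ 40 ∧ (v = 1 → D = ∅) ∧
          (∑ d ∈ D, d) ≡ m [MOD v] ∧ ∑ d ∈ D, d ≤ T)
    (a : ℕ) (ha : 0 < a) (hab : a < b) :
    ∃ S : Finset ℕ, 0 ∉ S ∧ (∑ n ∈ S, (1 : ℚ) / (n : ℚ)) = (a : ℚ) / (b : ℚ) ∧
      S.card ≤ I + 41 + 2 * h := by
  classical
  have hb0 : 0 < b := by omega
  have hbq : (0 : ℚ) < b := by exact_mod_cast hb0
  obtain ⟨S, hS1, hS2, hS3, hS4, hS5⟩ := greedy b I hb hI ((a : ℚ) / b)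
    (by positivity) (by rw [div_lt_one hbq]; exact_mod_cast hab)
  have hSpos : ∀ n ∈ S, 0 < n := fun n hn => by have := (hS1 n hn).1; omega
  obtain ⟨c, hc⟩ := sum_inv_eq S hSpos
  set P : ℕ := ∏ n ∈ S, n with hP
  have hP0 : 0 < P := Finset.prod_pos hSpos
  have hPq : (0 : ℚ) < P := by exact_mod_cast hP0
  have hPle : P ≤ b ^ (I + 1) := by
    calc P ≤ ∏ n ∈ S, b := Finset.prod_le_prod' (fun n hn => (hS1 n hn).2)
      _ = b ^ S.card := by rw [Finset.prod_const]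
      _ ≤ b ^ (I + 1) := Nat.pow_le_pow_right hb0 hS2
  set v' : ℕ := b * P with hv'
  have hv'0 : 0 < v' := Nat.mul_pos hb0 hP0
  have hv'le : v' ≤ b ^ (I + 2) := by
    calc v' ≤ b * b ^ (I + 1) := Nat.mul_le_mul_left _ hPle
      _ = b ^ (I + 2) := by rw [pow_succ' b (I + 1)]
  -- numerator
  set ρ : ℚ := (a : ℚ) / b - ∑ n ∈ S, (1 : ℚ) / n with hρ
  have hbc : b * c ≤ a * P := by
    have h1 : (0 : ℚ) ≤ (a : ℚ) / b - (c : ℚ) / P := by rw [← hc]; exact hS3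
    have h2 : (c : ℚ) / P ≤ (a : ℚ) / b := by linarith
    rw [div_le_div_iff₀ hPq hbq] at h2
    have h3 : ((c * b : ℕ) : ℚ) ≤ ((a * P : ℕ) : ℚ) := by push_cast; exact h2
    have h4 : c * b ≤ a * P := by exact_mod_cast h3
    linarith [mul_comm b c]
  obtain ⟨u, hu⟩ : ∃ u : ℕ, b * c + u = a * P := ⟨a * P - b * c, by omega⟩
  have hρu : ρ = (u : ℚ) / v' := by
    rw [hρ, hc, hv']
    have h1 : ((b * c + u : ℕ) : ℚ) = ((a * P : ℕ) : ℚ) := by rw [hu]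
    push_cast at h1 ⊢
    field_simp
    linarith
  rcases Nat.eq_zero_or_pos u with hu0 | hupos
  · refine ⟨S, fun h0 => by have := hSpos 0 h0; omega, ?_, by omega⟩
    have : ρ = 0 := by rw [hρu, hu0]; simp
    rw [hρ] at this
    linarith
  -- split of v'
  obtain ⟨v1, v2, hv12, hv1, hv2, hp1, hp2⟩ := exists_smooth_rough Z v' hv'0
  have hv2le : v2 ≤ b ^ (I + 2) := le_trans (by rw [hv12]; exact Nat.le_mul_of_pos_left _ hv1) hv'le
  have hv1le : v1 ≤ b ^ (I + 2) := le_trans (by rw [hv12]; exact Nat.le_mul_of_pos_right _ hv2) hv'le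
  obtain ⟨N, X, hN0, hNp, hRep, hNX, hKX, hNT, hD⟩ := hv v2 hv2 hv2le hp2
  obtain ⟨D, hDs, hDc, hD1, hDm, hDT⟩ := hD (u * N)
  set r : ℕ := ∑ d ∈ D, d with hr
  have hrN : r ≤ u * N := by
    calc r ≤ T := hDT
      _ ≤ 40 * Z ^ K := hT
      _ ≤ N := hNT
      _ ≤ u * N := Nat.le_mul_of_pos_left _ hupos
  obtain ⟨q, hq⟩ : v2 ∣ u * N - r := (Nat.modEq_iff_dvd' hrN).1 hDm
  have hq' : v2 * q + r = u * N := by omega
  -- sizes
  have hub : u * b ≤ v' := by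
    have h1 : (u : ℚ) / v' ≤ 1 / b := by rw [← hρu]; exact hS4
    have hv'q : (0 : ℚ) < v' := by exact_mod_cast hv'0
    rw [div_le_div_iff₀ hv'q hbq] at h1
    have h2 : ((u * b : ℕ) : ℚ) ≤ ((v' : ℕ) : ℚ) := by push_cast at h1 ⊢; linarith
    exact_mod_cast h2
  have hqb : q * b ≤ v1 * N := by
    have h1 : v2 * (q * b) ≤ v2 * (v1 * N) := by
      calc v2 * (q * b) = (v2 * q) * b := by ring
        _ ≤ (u * N) * b := Nat.mul_le_mul_right _ (by omega)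
        _ = (u * b) * N := by ring
        _ ≤ v' * N := Nat.mul_le_mul_right _ hub
        _ = v2 * (v1 * N) := by rw [hv12]; ring
    exact Nat.le_of_mul_le_mul_left h1 hv2
  set q1 : ℕ := q / v1 with hq1
  set q2 : ℕ := q % v1 with hq2
  have hqq : v1 * q1 + q2 = q := Nat.div_add_mod q v1
  have hq1X : q1 ≤ X := by
    have h1 : v1 * (q1 * b) ≤ v1 * N := by
      calc v1 * (q1 * b) = (v1 * q1) * b := by ring
        _ ≤ q * b := Nat.mul_le_mul_right _ (by omega)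
        _ ≤ v1 * N := hqb
    have h2 : q1 * b ≤ N := Nat.le_of_mul_le_mul_left h1 hv1
    have h3 : q1 * b ≤ X * b := by
      calc q1 * b ≤ N := h2
        _ ≤ loss * X := hNX
        _ ≤ b * X := Nat.mul_le_mul_right _ hlb
        _ = X * b := by ring
    exact Nat.le_of_mul_le_mul_right h3 hb0
  have hq2lt : q2 < v1 := Nat.mod_lt _ hv1
  have hq2X : q2 ≤ X := by
    have : v1 ≤ X := hv1le.trans (hbK.trans hKX)
    omega
  obtain ⟨D1, hD1s, hD1m, hD1c⟩ := hRep q1 hq1X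
  obtain ⟨D2, hD2s, hD2m, hD2c⟩ := hRep q2 hq2X
  have hW2 : 0 < v1 * N := Nat.mul_pos hv1 hN0
  have hW3 : 0 < v' * N := Nat.mul_pos hv'0 hN0
  obtain ⟨E1, hE1c, hE1m, hE1s⟩ := inv_image N hN0 D1 hD1s
  obtain ⟨E2, hE2c, hE2m, hE2s⟩ := inv_image (v1 * N) hW2 D2
    (hD2s.trans (Nat.divisors_subset_of_dvd hW2.ne' (Dvd.intro_left _ rfl)))
  obtain ⟨E3, hE3c, hE3m, hE3s⟩ := inv_image (v' * N) hW3 D
    (hDs.trans (Nat.divisors_subset_of_dvd hW3.ne' (Dvd.intro_left _ rfl)))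
  have hD1p : ∀ d ∈ D1, 0 < d := fun d hd => Nat.pos_of_mem_divisors (hD1s hd)
  have hD2p : ∀ d ∈ D2, 0 < d := fun d hd => Nat.pos_of_mem_divisors (hD2s hd)
  have hDp : ∀ d ∈ D, 0 < d := fun d hd => Nat.pos_of_mem_divisors (hDs hd)
  have hn1 : ∀ n ∈ E1, 0 < n := fun n hn => by
    obtain ⟨d, _, h⟩ := hE1m n hn
    rcases Nat.eq_zero_or_pos n with h0 | h0
    · rw [h0, zero_mul] at h; omega
    · exact h0
  have hn2 : ∀ n ∈ E2, 0 < n := fun n hn => by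
    obtain ⟨d, _, h⟩ := hE2m n hn
    rcases Nat.eq_zero_or_pos n with h0 | h0
    · rw [h0, zero_mul] at h; omega
    · exact h0
  have hn3 : ∀ n ∈ E3, 0 < n := fun n hn => by
    obtain ⟨d, _, h⟩ := hE3m n hn
    rcases Nat.eq_zero_or_pos n with h0 | h0
    · rw [h0, zero_mul] at h; omega
    · exact h0
  -- key: elements of D are not divisible by v2 when v2 ≠ 1
  have hkey : ∀ f ∈ D, ¬ v2 ∣ f := by
    intro f hf hdv
    have hv21 : v2 ≠ 1 := by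
      intro h1
      rw [hD1 h1] at hf
      simp at hf
    obtain ⟨p, hp, hpd⟩ := Nat.exists_prime_and_dvd hv21
    have h1 : Z < p := hp2 p hp hpd
    have h2 : p ≤ Z := hNp p hp (hpd.trans (hdv.trans (Nat.dvd_of_mem_divisors (hDs hf))))
    omega
  have hdis12 : Disjoint E1 E2 := by
    rw [Finset.disjoint_left]
    intro n h1 h2
    obtain ⟨d, hd, hnd⟩ := hE1m n h1
    obtain ⟨d', hd', hnd'⟩ := hE2m n h2
    have hd'lt : d' < v1 := by
      have : d' ≤ q2 := by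
        rw [← hD2m]
        exact Finset.single_le_sum (f := fun d : ℕ => d) (fun _ _ => Nat.zero_le _) hd'
      omega
    have h3 : n ≤ N := by rw [← hnd]; exact Nat.le_mul_of_pos_right _ (hD1p d hd)
    have h4 : n * d' < v1 * N := by
      calc n * d' ≤ N * d' := Nat.mul_le_mul_right _ h3
        _ < N * v1 := Nat.mul_lt_mul_of_pos_left hd'lt hN0
        _ = v1 * N := by ring
    omega
  have hdis13 : Disjoint E1 E3 := by
    rw [Finset.disjoint_left]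
    intro n h1 h2
    obtain ⟨d, hd, hnd⟩ := hE1m n h1
    obtain ⟨f, hf, hnf⟩ := hE3m n h2
    have h3 : n * f = n * (v' * d) := by rw [hnf, ← hnd]; ring
    have h4 : f = v' * d := Nat.eq_of_mul_eq_mul_left (hn1 n h1) h3
    apply hkey f hf
    rw [h4, hv12]
    exact ⟨v1 * d, by ring⟩
  have hdis23 : Disjoint E2 E3 := by
    rw [Finset.disjoint_left]
    intro n h1 h2
    obtain ⟨d, hd, hnd⟩ := hE2m n h1
    obtain ⟨f, hf, hnf⟩ := hE3m n h2
    have h3 : n * f = n * (v2 * d) := by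
      rw [hnf]
      calc v' * N = v2 * (v1 * N) := by rw [hv12]; ring
        _ = v2 * (n * d) := by rw [hnd]
        _ = n * (v2 * d) := by ring
    have h4 : f = v2 * d := Nat.eq_of_mul_eq_mul_left (hn2 n h1) h3
    apply hkey f hf
    rw [h4]
    exact ⟨d, rfl⟩
  set E : Finset ℕ := E1 ∪ E2 ∪ E3 with hE
  have hdisE : Disjoint (E1 ∪ E2) E3 := Finset.disjoint_union_left.2 ⟨hdis13, hdis23⟩
  have hEsum : ∑ n ∈ E, (1 : ℚ) / n = ρ := by
    rw [hE, Finset.sum_union hdisE, Finset.sum_union hdis12, hE1s, hE2s, hE3s, hD1m, hD2m,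
      ← hr, hρu]
    have hNq : (N : ℚ) ≠ 0 := by exact_mod_cast hN0.ne'
    have hv1q : (v1 : ℚ) ≠ 0 := by exact_mod_cast hv1.ne'
    have hv2q : (v2 : ℚ) ≠ 0 := by exact_mod_cast hv2.ne'
    have e1 : ((v2 * (v1 * q1 + q2) + r : ℕ) : ℚ) = ((u * N : ℕ) : ℚ) := by rw [hqq, hq']
    have e2 : (v' : ℚ) = v1 * v2 := by rw [hv12]; push_cast; ring
    rw [Nat.cast_mul v1 N, Nat.cast_mul v' N, e2]
    push_cast at e1
    have e3 : (u : ℚ) = (v2 * (v1 * q1 + q2) + r) / N := by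
      rw [eq_div_iff hNq]; linarith
    rw [e3]
    field_simp
  have hEpos : ∀ n ∈ E, 0 < n := by
    intro n hn
    rcases Finset.mem_union.1 hn with h | h
    · rcases Finset.mem_union.1 h with h | h
      · exact hn1 n h
      · exact hn2 n h
    · exact hn3 n h
  have hdisS : Disjoint S E := by
    rw [Finset.disjoint_left]
    intro n h1 h2
    have h3 : (1 : ℚ) / n ≤ ρ := by
      rw [← hEsum]
      exact Finset.single_le_sum (f := fun n : ℕ => (1 : ℚ) / n)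
        (fun i _ => by positivity) h2
    have h4 := hS5 n h1
    linarith
  refine ⟨S ∪ E, ?_, ?_, ?_⟩
  · intro h0
    rcases Finset.mem_union.1 h0 with h | h
    · have := hSpos 0 h; omega
    · have := hEpos 0 h; omega
  · rw [Finset.sum_union hdisS, hEsum, hρ]
    ring
  · have k1 : E.card ≤ (E1 ∪ E2).card + E3.card := Finset.card_union_le (E1 ∪ E2) E3
    have k2 := Finset.card_union_le E1 E2
    have k3 := Finset.card_union_le S E
    rw [hE3c] at k1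
    rw [hE1c, hE2c] at k2
    omega

end Pool.Agent.H256R2.EF
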