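import Pool.Agent.H256R2.EF.ASY1
import Pool.Agent.H256R2.EF.FIN

/-!
Task ASY, part 2: parameters for one denominator.
-/

set_option autoImplicit false

namespace Pool.Agent.H256R2.EF

open Finset

theorem clog_small (T : ℕ) (hT : 200 ≤ T) : 8 * Nat.clog 2 T + 44 ≤ T := by
  set c := Nat.clog 2 T with hc
  have h1 : T ≤ 2 ^ c := Nat.le_pow_clog (by norm_num) T
  have hc8 : 8 ≤ c := by
    by_contra h
    have h2 : 2 ^ c ≤ 2 ^ 7 := Nat.pow_le_pow_right (by norm_num) (by omega)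
    norm_num at h2
    omega
  have h3 : 2 ^ (c - 1) < T := Nat.pow_pred_clog_lt_self (by norm_num) (by omega)
  have h4 : ∀ n : ℕ, 7 ≤ n → 8 * (n + 1) + 44 ≤ 2 ^ n := by
    intro n hn
    induction n, hn using Nat.le_induction with
    | base => norm_num
    | succ n hn ih => rw [pow_succ]; omega
  have h5 := h4 (c - 1) (by omega)
  omega

theorem pow_aux (x y n : ℕ) (h : x ≤ 2 ^ y) (e : ℕ) (he : e = n * y + 6) :
    40 * x ^ n < 2 ^ (e + 1) := by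
  calc 40 * x ^ n ≤ 40 * (2 ^ y) ^ n := Nat.mul_le_mul_left _ (Nat.pow_le_pow_left h _)
    _ = 40 * 2 ^ (n * y) := by rw [← pow_mul, mul_comm y n]
    _ < 128 * 2 ^ (n * y) := Nat.mul_lt_mul_of_pos_right (by norm_num) (by positivity)
    _ = 2 ^ (e + 1) := by
      rw [he, show (128 : ℕ) = 2 ^ 7 by norm_num, ← pow_add]
      congr 1
      omega

theorem base_pow (Y ℓ e : ℕ) (h : 4 * Y ≤ 2 ^ ℓ) (he : e = 4096 * ℓ + 6) :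
    40 * (4 * Y) ^ 4096 < 2 ^ (e + 1) := pow_aux (4 * Y) ℓ 4096 h e he

/-- The total number of terms. -/
def total (T I s : ℕ) : ℕ :=
  I + 41 + 2 * (hL (20 * T + 382) (4096 * (20 * T + 382) + 6) (T - s) (T - s)
    + 40 * (10240 * (20 * T + 382) + 1) * s)

theorem asy_core
    (lev_step : ∃ Y0 : ℕ, ∀ Y ≥ Y0, ∀ ℓ e L n bud h : ℕ, 4 * Y ≤ 2 ^ ℓ → n < L →
      ℓ ≤ 128 * (L + 1) → (80 * Kn L) ^ 20 ≤ Y → Lev Y e n bud h →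
      Lev Y e (n + 1) (bud + 160 * Kn L) (h + 40 * (128 * ℓ / (L - n + 1) + 1)))
    (lev_base : ∀ Y e : ℕ, 40 * (4 * Y) ^ 4096 < 2 ^ (e + 1) → Lev Y e 0 0 (e + 1))
    (con_step : ∃ Y0 : ℕ, ∀ Y ≥ Y0, ∀ ℓ e loss n bud h : ℕ, 4 * Y ≤ 2 ^ ℓ →
      32 * ℓ ≤ Kn (n + 1) → 10240 * ℓ + 1 ≤ Y → (80 * Kn (n + 1)) ^ 20 ≤ Y →
      Con Y e loss n bud h →
      Con Y e loss (n + 1) (bud + 80 * Kn (n + 1)) (h + 40 * (10240 * ℓ + 1)))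
    (con_base : ∃ Y0 : ℕ, ∀ Y ≥ Y0, ∀ ℓ e n bud h : ℕ, 4 * Y ≤ 2 ^ ℓ →
      32 * ℓ ≤ Kn n → 10240 * ℓ + 1 ≤ Y → (80 * Kn n) ^ 20 ≤ Y → Lev Y e n bud h →
      Con Y e (2 ^ (e + ℓ * (bud + 80 * Kn n))) n (bud + 80 * Kn n)
        (h + 40 * (10240 * ℓ + 1)))
    (top : ∃ Y0 : ℕ, ∀ Y ≥ Y0, ∀ e loss n bud h : ℕ, (80 * Kn (n + 1)) ^ 20 ≤ Y →
      (80 * Kn (n + 1) + bud) ^ 2 ≤ Y → Con Y e loss n bud h →
      ∀ v : ℕ, 1 ≤ v → v ^ 32 ≤ 2 ^ (Kn (n + 1)) → (∀ p : ℕ, p.Prime → p ∣ v → 4 * Y < p) →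
      ∃ N X : ℕ, 0 < N ∧ (∀ p : ℕ, p.Prime → p ∣ N → p ≤ 4 * Y) ∧ Rep N X h ∧ N ≤ loss * X ∧
        2 ^ (Kn (n + 1)) ≤ X ∧ 40 * (4 * Y) ^ (Kn (n + 1)) ≤ N ∧
        ∀ m : ℕ, ∃ D : Finset ℕ, D ⊆ N.divisors ∧ D.card ≤ 40 ∧ (v = 1 → D = ∅) ∧
          (∑ d ∈ D, d) ≡ m [MOD v] ∧ ∑ d ∈ D, d ≤ 40 * (4 * Y) ^ (Kn (n + 1)))
    (greedy : ∀ (b I : ℕ) (_ : 2 ≤ b) (_ : b ≤ 2 ^ 2 ^ I) (x : ℚ) (_ : 0 < x) (_ : x < 1),
      ∃ S : Finset ℕ, (∀ n ∈ S, 2 ≤ n ∧ n ≤ b) ∧ S.card ≤ I + 1 ∧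
        0 ≤ x - ∑ n ∈ S, (1 : ℚ) / n ∧ x - ∑ n ∈ S, (1 : ℚ) / n ≤ 1 / b ∧
        ∀ n ∈ S, x - ∑ n ∈ S, (1 : ℚ) / n < 1 / n) :
    ∃ T0 : ℕ, ∀ T ≥ T0, ∀ b lam I : ℕ, 2 ≤ b → 2 ≤ lam → b ≤ 2 ^ lam → 2 ^ (lam - 1) ≤ b →
      lam ≤ 2 ^ I → I ≤ T → lam * (I + 2) ≤ 2 ^ T → 2 ^ T ≤ 2 * (lam * (I + 2)) →
      ∃ s : ℕ, s ≤ 22 + 4 * Nat.clog 2 T ∧ ∀ a : ℕ, 0 < a → a < b →
        ∃ S : Finset ℕ, 0 ∉ S ∧ (∑ n ∈ S, (1 : ℚ) / (n : ℚ)) = (a : ℚ) / (b : ℚ) ∧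
          S.card ≤ total T I s := by
  obtain ⟨Y1, hY1⟩ := lev_step
  obtain ⟨Y2, hY2⟩ := con_step
  obtain ⟨Y3, hY3⟩ := con_base
  obtain ⟨Y4, hY4⟩ := top
  refine ⟨200 + Y1 + Y2 + Y3 + Y4, ?_⟩
  intro T hT b lam I hb2 hlam2 hblam hblam' hlamI hIT hT1 hT2
  have hT200 : 200 ≤ T := by omega
  obtain ⟨c, hc⟩ : ∃ c, c = Nat.clog 2 T := ⟨_, rfl⟩
  have hcT : 8 * c + 44 ≤ T := by rw [hc]; exact clog_small T hT200
  have hTc : T ≤ 2 ^ c := by rw [hc]; exact Nat.le_pow_clog (by norm_num) T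
  obtain ⟨ℓ, hℓ⟩ : ∃ ℓ, ℓ = 20 * T + 382 := ⟨_, rfl⟩
  obtain ⟨e, he⟩ : ∃ e, e = 4096 * ℓ + 6 := ⟨_, rfl⟩
  obtain ⟨Q, hQ⟩ : ∃ Q, Q = (T + 1) * (I + 2) * ℓ := ⟨_, rfl⟩
  have hQ4 : Q ≤ T ^ 4 := by
    have h1 : Q ≤ (T + 1) * (T + 2) * (22 * T) := by
      rw [hQ]
      apply Nat.mul_le_mul (Nat.mul_le_mul le_rfl (by omega)) (by omega)
    have h2 : (T + 1) * (T + 2) * (22 * T) ≤ T ^ 4 := by
      have h3 : (T + 1) * (T + 2) * 22 ≤ T ^ 3 := by nlinarith [hT200]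
      calc (T + 1) * (T + 2) * (22 * T) = ((T + 1) * (T + 2) * 22) * T := by ring
        _ ≤ T ^ 3 * T := Nat.mul_le_mul_right _ h3
        _ = T ^ 4 := by ring
    exact h1.trans h2
  obtain ⟨s, hs⟩ : ∃ s, s = 22 + Nat.clog 2 Q := ⟨_, rfl⟩
  have hclogQ : Nat.clog 2 Q ≤ 4 * c := by
    apply Nat.clog_le_of_le_pow
    calc Q ≤ T ^ 4 := hQ4
      _ ≤ (2 ^ c) ^ 4 := Nat.pow_le_pow_left hTc 4
      _ = 2 ^ (4 * c) := by rw [← pow_mul]; ring_nf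
  have hs4 : s ≤ 22 + 4 * c := by omega
  have hsT : 2 * s ≤ T := by omega
  have hQs : 2 ^ 22 * Q ≤ 2 ^ s := by
    rw [hs, pow_add]
    exact Nat.mul_le_mul_left _ (Nat.le_pow_clog (by norm_num) Q)
  refine ⟨s, by rw [← hc]; exact hs4, ?_⟩
  obtain ⟨L, hL'⟩ : ∃ L, L = T - s := ⟨_, rfl⟩
  have hLs : L + s = T := by omega
  have hKL : Kn L * 2 ^ s = Kn T := by
    unfold Kn
    rw [mul_assoc, ← pow_add, hLs]
  have hKT : Kn T = 4096 * 2 ^ T := rfl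
  obtain ⟨Y, hY⟩ : ∃ Y, Y = (80 * Kn T) ^ 20 := ⟨_, rfl⟩
  have hKTpos : 0 < Kn T := Kn_pos T
  have hTpow : T < 2 ^ T := Nat.lt_two_pow_self
  have hYbig : 80 * Kn T ≤ Y := by
    rw [hY]; exact Nat.le_self_pow (by norm_num) _
  have hYT : T ≤ Y := by
    have : T ≤ 80 * Kn T := by rw [hKT]; omega
    omega
  have h4Y : 4 * Y ≤ 2 ^ ℓ := by
    have h1 : 80 * Kn T ≤ 2 ^ (T + 19) := by
      rw [hKT, pow_add]
      norm_num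
      omega
    calc 4 * Y = 4 * (80 * Kn T) ^ 20 := by rw [hY]
      _ ≤ 4 * (2 ^ (T + 19)) ^ 20 := Nat.mul_le_mul_left _ (Nat.pow_le_pow_left h1 20)
      _ = 2 ^ ℓ := by
        rw [← pow_mul, show (4 : ℕ) = 2 ^ 2 by norm_num, ← pow_add]
        congr 1
        omega
  have hℓY : 10240 * ℓ + 1 ≤ Y := by
    have : 10240 * ℓ + 1 ≤ 80 * Kn T := by rw [hKT, hℓ]; omega
    omega
  have hℓL : ℓ ≤ 128 * (L + 1) := by omega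
  have hLpow : L < 2 ^ L := Nat.lt_two_pow_self
  have hℓK : 32 * ℓ ≤ Kn L := by
    have : Kn L = 4096 * 2 ^ L := rfl
    omega
  have hKLT : Kn L ≤ Kn T := Kn_mono (by omega)
  have hKLY : (80 * Kn L) ^ 20 ≤ Y := by
    rw [hY]; exact Nat.pow_le_pow_left (Nat.mul_le_mul_left _ hKLT) 20
  have hebase : 40 * (4 * Y) ^ 4096 < 2 ^ (e + 1) := base_pow Y ℓ e h4Y he
  -- levels
  have hLev := lev_chain Y ℓ e L (hY1 Y (by omega)) (lev_base Y e) hebase h4Y hℓL hKLY L le_rfl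
  -- consumption base
  have hCon0 := hY3 Y (by omega) ℓ e L _ _ h4Y hℓK hℓY hKLY hLev
  obtain ⟨budL, hbudL⟩ : ∃ budL, budL = L * (160 * Kn L) + 80 * Kn L := ⟨_, rfl⟩
  obtain ⟨loss, hloss⟩ : ∃ loss, loss = 2 ^ (e + ℓ * budL) := ⟨_, rfl⟩
  rw [← hbudL, ← hloss] at hCon0
  have hCon := con_chain Y ℓ e loss L budL _ (hY2 Y (by omega)) h4Y hℓK hℓY hCon0 (s - 1)
    (by rw [hY]; exact Nat.pow_le_pow_left (Nat.mul_le_mul_left _ (Kn_mono (by omega))) 20)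
  obtain ⟨hh, hhh⟩ : ∃ hh, hh = hL ℓ e L L + 40 * (10240 * ℓ + 1)
    + 40 * (10240 * ℓ + 1) * (s - 1) := ⟨_, rfl⟩
  rw [← hhh] at hCon
  have hn1 : L + (s - 1) + 1 = T := by omega
  obtain ⟨bud, hbud⟩ : ∃ bud, bud = budL + 160 * Kn (L + (s - 1)) := ⟨_, rfl⟩
  rw [← hbud] at hCon
  have hLKL : L * Kn L ≤ Kn T := by
    have h1 : L ≤ 2 ^ s := by
      have h2 : T + 1 ≤ Q := by
        have : 1 ≤ (I + 2) * ℓ := Nat.mul_pos (by omega) (by omega)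
        calc T + 1 = (T + 1) * 1 := by ring
          _ ≤ (T + 1) * ((I + 2) * ℓ) := Nat.mul_le_mul_left _ this
          _ = Q := by rw [hQ]; ring
      have h3 : Q ≤ 2 ^ s := by omega
      omega
    calc L * Kn L ≤ 2 ^ s * Kn L := Nat.mul_le_mul_right _ h1
      _ = Kn T := by rw [mul_comm]; exact hKL
  have hbudle : 80 * Kn T + bud ≤ 480 * Kn T := by
    have h1 : Kn (L + (s - 1)) ≤ Kn T := Kn_mono (by omega)
    have h2 : L * (160 * Kn L) = 160 * (L * Kn L) := by ring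
    rw [hbud, hbudL, h2]
    omega
  have hsq : (80 * Kn T + bud) ^ 2 ≤ Y := by
    have h1 : 480 * Kn T ≤ (80 * Kn T) ^ 2 := by
      have : 480 ≤ 6400 * Kn T := by omega
      calc 480 * Kn T ≤ (6400 * Kn T) * Kn T := Nat.mul_le_mul_right _ this
        _ = (80 * Kn T) ^ 2 := by ring
    calc (80 * Kn T + bud) ^ 2 ≤ ((80 * Kn T) ^ 2) ^ 2 :=
          Nat.pow_le_pow_left (hbudle.trans h1) 2
      _ = (80 * Kn T) ^ 4 := by rw [← pow_mul]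
      _ ≤ (80 * Kn T) ^ 20 := Nat.pow_le_pow_right (by omega) (by norm_num)
      _ = Y := hY.symm
  have htop := hY4 Y (by omega) e loss (L + (s - 1)) bud hh (by rw [hn1, hY])
    (by rw [hn1]; exact hsq)
    hCon
  rw [hn1] at htop
  -- loss ≤ b
  have hlossb : loss ≤ b := by
    refine le_trans ?_ hblam'
    rw [hloss]
    apply Nat.pow_le_pow_right (by norm_num)
    have hKL4096 : 4096 ≤ Kn L := by
      have : Kn L = 4096 * 2 ^ L := rfl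
      omega
    have h1 : e + ℓ * budL ≤ 160 * (T + 1) * ℓ * Kn L := by
      have h2 : e ≤ 2 * (ℓ * Kn L) := by
        have : 4096 * ℓ ≤ ℓ * Kn L := by rw [mul_comm]; exact Nat.mul_le_mul_left _ hKL4096
        have h6 : 6 ≤ ℓ * Kn L := le_trans (by omega) this
        omega
      have h3 : ℓ * budL = (160 * L + 80) * (ℓ * Kn L) := by rw [hbudL]; ring
      calc e + ℓ * budL ≤ 2 * (ℓ * Kn L) + (160 * L + 80) * (ℓ * Kn L) := by rw [h3]; omega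
        _ = (160 * L + 82) * (ℓ * Kn L) := by ring
        _ ≤ (160 * (T + 1)) * (ℓ * Kn L) := Nat.mul_le_mul_right _ (by omega)
        _ = 160 * (T + 1) * ℓ * Kn L := by ring
    obtain ⟨E, hE⟩ : ∃ E, E = e + ℓ * budL := ⟨_, rfl⟩
    rw [← hE] at h1 ⊢
    have h4 : E * 2 ^ s ≤ (160 * 8192 * lam) * Q := by
      calc E * 2 ^ s ≤ (160 * (T + 1) * ℓ * Kn L) * 2 ^ s := Nat.mul_le_mul_right _ h1
        _ = 160 * (T + 1) * ℓ * (Kn L * 2 ^ s) := by ring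
        _ = 160 * (T + 1) * ℓ * (4096 * 2 ^ T) := by rw [hKL, hKT]
        _ ≤ 160 * (T + 1) * ℓ * (4096 * (2 * (lam * (I + 2)))) :=
            Nat.mul_le_mul_left _ (Nat.mul_le_mul_left _ hT2)
        _ = (160 * 8192 * lam) * Q := by rw [hQ]; ring
    have h5 : E * (2 ^ 22 * Q) ≤ (160 * 8192 * lam) * Q :=
      (Nat.mul_le_mul_left _ hQs).trans h4
    have hQpos : 0 < Q := by
      rw [hQ]
      exact Nat.mul_pos (Nat.mul_pos (by omega) (by omega)) (by omega)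
    have h6 : (E * 2 ^ 22) * Q ≤ (160 * 8192 * lam) * Q := by
      calc (E * 2 ^ 22) * Q = E * (2 ^ 22 * Q) := by ring
        _ ≤ _ := h5
    have h7 : E * 2 ^ 22 ≤ 160 * 8192 * lam := Nat.le_of_mul_le_mul_right h6 hQpos
    norm_num at h7
    omega
  have hb22 : b ≤ 2 ^ 2 ^ I := hblam.trans (Nat.pow_le_pow_right (by norm_num) hlamI)
  have hbpow : b ^ (I + 2) ≤ 2 ^ (2 ^ T) := by
    calc b ^ (I + 2) ≤ (2 ^ lam) ^ (I + 2) := Nat.pow_le_pow_left hblam _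
      _ = 2 ^ (lam * (I + 2)) := by rw [← pow_mul]
      _ ≤ 2 ^ (2 ^ T) := Nat.pow_le_pow_right (by norm_num) hT1
  have hbK : b ^ (I + 2) ≤ 2 ^ (Kn T) :=
    hbpow.trans (Nat.pow_le_pow_right (by norm_num) (by rw [hKT]; omega))
  intro a ha hab
  have hfin := fin_assembly_of greedy b I (4 * Y) (Kn T) (40 * (4 * Y) ^ (Kn T)) hh loss hb2 hb22
    le_rfl hlossb hbK (by
      intro v hv1 hv2 hv3
      refine htop v hv1 ?_ hv3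
      calc v ^ 32 ≤ (2 ^ (2 ^ T)) ^ 32 := Nat.pow_le_pow_left (hv2.trans hbpow) 32
        _ = 2 ^ (2 ^ T * 32) := by rw [← pow_mul]
        _ ≤ 2 ^ (Kn T) := Nat.pow_le_pow_right (by norm_num) (by rw [hKT]; omega)) a ha hab
  obtain ⟨S, h1, h2, h3⟩ := hfin
  refine ⟨S, h1, h2, h3.trans ?_⟩
  unfold total
  rw [← hℓ, ← he, ← hL']
  have h4 : 40 * (10240 * ℓ + 1) + 40 * (10240 * ℓ + 1) * (s - 1)
      = 40 * (10240 * ℓ + 1) * s := by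
    obtain ⟨s', hs'⟩ : ∃ s', s = s' + 1 := ⟨s - 1, by omega⟩
    rw [hs']
    simp only [Nat.add_sub_cancel]
    ring
  rw [hhh, add_assoc (hL ℓ e L L), h4]

end Pool.Agent.H256R2.EF
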