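import Pool.Agent.H256R2.EF.ASY2

/-!
Task ASY, part 3: asymptotics.
-/

set_option autoImplicit false

namespace Pool.Agent.H256R2.EF

open Finset

theorem harm_sum (A L : ℕ) :
    ∑ j ∈ range L, (A / (L - j + 1) + 1) ≤ A * Nat.clog 2 (L + 1) + L := by
  have h1 : ((∑ j ∈ range L, (A / (L - j + 1) + 1) : ℕ) : ℝ) ≤ A * Real.log (L + 1) + L := by
    push_cast
    rw [Finset.sum_add_distrib]
    have h2 : ∑ j ∈ range L, (1 : ℝ) = L := by simp
    rw [h2]
    gcongr
    have h3 : ∑ j ∈ range L, (((A / (L - j + 1) : ℕ) : ℕ) : ℝ)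
        ≤ ∑ j ∈ range L, (A : ℝ) * (1 / ((L - j : ℕ) + 1 : ℝ)) := by
      apply Finset.sum_le_sum
      intro j _
      have := @Nat.cast_div_le ℝ _ _ _ A (L - j + 1)
      push_cast at this
      rw [mul_one_div]
      exact this
    refine h3.trans ?_
    rw [← Finset.mul_sum]
    gcongr
    have h4 : ∑ j ∈ range L, (1 / ((L - j : ℕ) + 1 : ℝ)) = ∑ j ∈ range L, (1 / ((j : ℝ) + 2)) := by
      rw [← Finset.sum_range_reflect]
      apply Finset.sum_congr rfl
      intro j hj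
      have hj' := Finset.mem_range.1 hj
      have : L - (L - 1 - j) = j + 1 := by omega
      rw [this]
      push_cast
      ring
    rw [h4]
    -- induction
    clear h4 h3 h2
    induction L with
    | zero => simp
    | succ L ih =>
      rw [Finset.sum_range_succ]
      have h5 : (1 : ℝ) / (L + 2) ≤ Real.log ((L + 1 : ℕ) + 1) - Real.log (L + 1) := by
        have hL1 : (0 : ℝ) < L + 1 := by positivity
        have hL2 : (0 : ℝ) < L + 2 := by positivity
        rw [← Real.log_div (by push_cast; positivity) hL1.ne']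
        have h6 := Real.one_sub_inv_le_log_of_pos (x := (((L + 1 : ℕ) : ℝ) + 1) / (L + 1))
          (by push_cast; positivity)
        refine le_trans (le_of_eq ?_) h6
        push_cast
        field_simp
        ring
      linarith
  have h2 : Real.log (L + 1) ≤ Nat.clog 2 (L + 1) := by
    have h3 : L + 1 ≤ 2 ^ Nat.clog 2 (L + 1) := Nat.le_pow_clog (by norm_num) _
    have h4 : ((L : ℝ) + 1) ≤ 2 ^ Nat.clog 2 (L + 1) := by exact_mod_cast h3
    calc Real.log (L + 1) ≤ Real.log (2 ^ Nat.clog 2 (L + 1)) :=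
          Real.log_le_log (by positivity) h4
      _ = Nat.clog 2 (L + 1) * Real.log 2 := by rw [Real.log_pow]
      _ ≤ Nat.clog 2 (L + 1) * 1 := by
          gcongr
          have := Real.log_two_lt_d9
          linarith
      _ = Nat.clog 2 (L + 1) := mul_one _
  have h3 : ((∑ j ∈ range L, (A / (L - j + 1) + 1) : ℕ) : ℝ)
      ≤ ((A * Nat.clog 2 (L + 1) + L : ℕ) : ℝ) := by
    refine h1.trans ?_
    push_cast
    gcongr
  exact_mod_cast h3

theorem total_bound (T I s : ℕ) (hT : 200 ≤ T) (hI : I ≤ T) (hs : s ≤ 22 + 4 * Nat.clog 2 T) :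
    total T I s ≤ 10 ^ 9 * (T * (Nat.clog 2 T + 1)) := by
  obtain ⟨c, hc⟩ : ∃ c, c = Nat.clog 2 T := ⟨_, rfl⟩
  obtain ⟨ℓ, hℓ⟩ : ∃ ℓ, ℓ = 20 * T + 382 := ⟨_, rfl⟩
  obtain ⟨L, hL'⟩ : ∃ L, L = T - s := ⟨_, rfl⟩
  have hℓT : ℓ ≤ 22 * T := by omega
  have h1 := harm_sum (128 * ℓ) L
  have h2 : Nat.clog 2 (L + 1) ≤ c + 1 := by
    have : Nat.clog 2 (L + 1) ≤ Nat.clog 2 (2 * T) := Nat.clog_mono_right 2 (by omega)
    have h3 : Nat.clog 2 (2 * T) ≤ c + 1 := by
      apply Nat.clog_le_of_le_pow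
      rw [pow_succ, hc]
      have := Nat.le_pow_clog (b := 2) (by norm_num) T
      omega
    omega
  have h3 : hL ℓ (4096 * ℓ + 6) L L ≤ (4096 * ℓ + 6) + 1 + 40 * (128 * ℓ * (c + 1) + T) := by
    unfold hL
    have : 128 * ℓ * Nat.clog 2 (L + 1) + L ≤ 128 * ℓ * (c + 1) + T :=
      Nat.add_le_add (Nat.mul_le_mul_left _ h2) (by omega)
    have h4 := h1.trans this
    omega
  unfold total
  rw [← hℓ, ← hL', ← hc]
  rw [← hc] at hs
  have h5 : 40 * (10240 * ℓ + 1) * s ≤ 40 * (10240 * (22 * T) + 1) * (22 + 4 * c) :=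
    Nat.mul_le_mul (by omega) hs
  have h6 : 128 * ℓ * (c + 1) ≤ 128 * (22 * T) * (c + 1) :=
    Nat.mul_le_mul_right _ (by omega)
  have h7 : 40 * (10240 * (22 * T) + 1) * (22 + 4 * c)
      ≤ 40 * (10240 * (22 * T) + T) * (22 * (c + 1)) :=
    Nat.mul_le_mul (by omega) (by omega)
  have h8 : T ≤ T * (c + 1) := Nat.le_mul_of_pos_right _ (by omega)
  have h9 : 40 * (10240 * (22 * T) + T) * (22 * (c + 1)) = 198246400 * (T * (c + 1)) + 0
      + (40 * 22 - 0) * (T * (c + 1)) := by ring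
  have h10 : 128 * (22 * T) * (c + 1) = 2816 * (T * (c + 1)) := by ring
  rw [h10] at h6
  rw [h9] at h7
  have h11 := h5.trans h7
  obtain ⟨x, hx⟩ : ∃ x, x = T * (c + 1) := ⟨_, rfl⟩
  rw [← hx] at h6 h11 h8 ⊢
  have e9 : 10 ^ 9 = 1000000000 := by norm_num
  rw [e9]
  omega

end Pool.Agent.H256R2.EF
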