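import Pool.Agent.H256R2.EF.ASY3

/-!
Task ASY, part 4: the main theorem from the core.
-/

set_option autoImplicit false

namespace Pool.Agent.H256R2.EF

open Finset

/-- Every fraction in `(0,1)` is a sum of distinct unit fractions. -/
theorem egyptian_exists (a : ℕ) : ∀ b : ℕ, 0 < a → a < b →
    ∃ S : Finset ℕ, 0 ∉ S ∧ (∑ n ∈ S, (1 : ℚ) / (n : ℚ)) = (a : ℚ) / (b : ℚ) := by
  classical
  induction a using Nat.strong_induction_on with
  | _ a ih =>
    intro b ha hab
    have hb : 0 < b := by omega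
    -- n = ceil (b / a)
    obtain ⟨n, hn1, hn2⟩ : ∃ n : ℕ, b ≤ a * n ∧ a * (n - 1) < b := by
      refine ⟨(b + a - 1) / a, ?_, ?_⟩
      · have := Nat.div_add_mod (b + a - 1) a
        have := Nat.mod_lt (b + a - 1) ha
        omega
      · have h1 := Nat.div_mul_le_self (b + a - 1) a
        have h2 : a * ((b + a - 1) / a - 1) = a * ((b + a - 1) / a) - a := by
          rw [Nat.mul_sub, mul_one]
        rw [h2, mul_comm]
        omega
    have hn2' : 2 ≤ n := by
      by_contra h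
      have : n ≤ 1 := by omega
      have : a * n ≤ a * 1 := Nat.mul_le_mul_left _ this
      omega
    have hnb : 0 < b * n := Nat.mul_pos hb (by omega)
    obtain ⟨a', ha'⟩ : ∃ a', b + a' = a * n := ⟨a * n - b, by omega⟩
    have ha'lt : a' < a := by
      have h1 : a * n = a * (n - 1) + a := by
        obtain ⟨m, rfl⟩ : ∃ m, n = m + 1 := ⟨n - 1, by omega⟩
        simp only [Nat.add_sub_cancel]
        ring
      omega
    have haq : (0 : ℚ) < a := by exact_mod_cast ha
    have hbq : (0 : ℚ) < b := by exact_mod_cast hb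
    have hnq : (0 : ℚ) < n := by exact_mod_cast (by omega : 0 < n)
    have hid : (a : ℚ) / b = 1 / n + (a' : ℚ) / ((b * n : ℕ) : ℚ) := by
      have h1 : ((b + a' : ℕ) : ℚ) = ((a * n : ℕ) : ℚ) := by rw [ha']
      push_cast at h1 ⊢
      field_simp
      linarith
    rcases Nat.eq_zero_or_pos a' with h0 | hpos
    · refine ⟨{n}, by simp; omega, ?_⟩
      rw [hid, h0]; simp
    · obtain ⟨S, hS1, hS2⟩ := ih a' ha'lt (b * n) hpos
        (by
          calc a' < a := ha'lt
            _ < b := hab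
            _ ≤ b * n := Nat.le_mul_of_pos_right _ (by omega))
      have hnS : n ∉ S := by
        intro hn
        have h1 : (1 : ℚ) / n ≤ (a' : ℚ) / ((b * n : ℕ) : ℚ) := by
          rw [← hS2]
          exact Finset.single_le_sum (f := fun n : ℕ => (1 : ℚ) / (n : ℚ))
            (fun i _ => by positivity) hn
        push_cast at h1
        rw [div_le_div_iff₀ hnq (by positivity)] at h1
        have h2 : (b : ℚ) ≤ a' := by nlinarith
        have h3 : b ≤ a' := by exact_mod_cast h2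
        omega
      refine ⟨insert n S, ?_, ?_⟩
      · intro h
        rcases Finset.mem_insert.1 h with h | h
        · omega
        · exact hS1 h
      · rw [Finset.sum_insert hnS, hS2, hid]

theorem main_of_core
    (hcore : ∃ T0 : ℕ, ∀ T ≥ T0, ∀ b lam I : ℕ, 2 ≤ b → 2 ≤ lam → b ≤ 2 ^ lam → 2 ^ (lam - 1) ≤ b →
      lam ≤ 2 ^ I → I ≤ T → lam * (I + 2) ≤ 2 ^ T → 2 ^ T ≤ 2 * (lam * (I + 2)) →
      ∃ s : ℕ, s ≤ 22 + 4 * Nat.clog 2 T ∧ ∀ a : ℕ, 0 < a → a < b →
        ∃ S : Finset ℕ, 0 ∉ S ∧ (∑ n ∈ S, (1 : ℚ) / (n : ℚ)) = (a : ℚ) / (b : ℚ) ∧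
          S.card ≤ total T I s) :
    ∃ C : ℝ, ∀ x y : ℕ, 0 < x → x < y → 3 ≤ y →
      ∃ S : Finset ℕ, 0 ∉ S ∧ (∑ n ∈ S, (1 : ℚ) / (n : ℚ)) = (x : ℚ) / (y : ℚ) ∧
        (S.card : ℝ) ≤ C * (Real.log (Real.log y) * Real.log (3 + Real.log (Real.log y))) := by
  classical
  obtain ⟨T0, hT0⟩ := hcore
  obtain ⟨E0, hE0⟩ : ∃ E0, E0 = T0 + 200 := ⟨_, rfl⟩
  -- large denominators
  have hlarge : ∀ b : ℕ, 2 ^ 2 ^ E0 ≤ b → ∀ a : ℕ, 0 < a → a < b →
      ∃ S : Finset ℕ, 0 ∉ S ∧ (∑ n ∈ S, (1 : ℚ) / (n : ℚ)) = (a : ℚ) / (b : ℚ) ∧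
        (S.card : ℝ) ≤ 10 ^ 11 * (Real.log (Real.log b) * Real.log (3 + Real.log (Real.log b))) := by
    intro b hb a ha hab
    have hb0 : b ≠ 0 := by omega
    obtain ⟨lam, hlam⟩ : ∃ lam, lam = Nat.log 2 b + 1 := ⟨_, rfl⟩
    have hlam1 : 2 ^ E0 ≤ Nat.log 2 b := by
      rw [← Nat.log_pow (b := 2) (by norm_num) (2 ^ E0)]
      exact Nat.log_mono_right hb
    have h200 : E0 < 2 ^ E0 := Nat.lt_two_pow_self
    have hlam200 : 200 < lam := by omega
    have hb1 : b ≤ 2 ^ lam := by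
      rw [hlam]; exact (Nat.lt_pow_succ_log_self (by norm_num) b).le
    have hb2 : 2 ^ (lam - 1) ≤ b := by
      rw [hlam, Nat.add_sub_cancel]; exact Nat.pow_log_le_self 2 hb0
    obtain ⟨I, hI⟩ : ∃ I, I = Nat.clog 2 lam := ⟨_, rfl⟩
    have hlamI : lam ≤ 2 ^ I := by rw [hI]; exact Nat.le_pow_clog (by norm_num) lam
    have hIlam : I ≤ lam := by
      rw [hI]; apply Nat.clog_le_of_le_pow; exact Nat.lt_two_pow_self.le
    obtain ⟨T, hT⟩ : ∃ T, T = Nat.clog 2 (lam * (I + 2)) := ⟨_, rfl⟩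
    have hlamI2 : lam ≤ lam * (I + 2) := Nat.le_mul_of_pos_right _ (by omega)
    have hIT : I ≤ T := by rw [hI, hT]; exact Nat.clog_mono_right 2 hlamI2
    have hT1 : lam * (I + 2) ≤ 2 ^ T := by rw [hT]; exact Nat.le_pow_clog (by norm_num) _
    have hT3 : 2 ^ (T - 1) < lam * (I + 2) := by
      rw [hT]; exact Nat.pow_pred_clog_lt_self (by norm_num) (by omega)
    have hTbig : T0 + 200 < T := by
      by_contra h
      have h1 : 2 ^ T ≤ 2 ^ E0 := Nat.pow_le_pow_right (by norm_num) (by omega)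
      omega
    have hT2 : 2 ^ T ≤ 2 * (lam * (I + 2)) := by
      obtain ⟨T', hT'⟩ : ∃ T', T = T' + 1 := ⟨T - 1, by omega⟩
      rw [hT'] at hT3 ⊢
      rw [Nat.add_sub_cancel] at hT3
      rw [pow_succ]
      omega
    obtain ⟨s, hs, hmain⟩ := hT0 T (by omega) b lam I (by omega) (by omega) hb1 hb2 hlamI hIT hT1 hT2
    obtain ⟨S, hS1, hS2, hS3⟩ := hmain a ha hab
    refine ⟨S, hS1, hS2, ?_⟩
    have hS4 := hS3.trans (total_bound T I s (by omega) hIT hs)
    obtain ⟨c, hc⟩ : ∃ c, c = Nat.clog 2 T := ⟨_, rfl⟩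
    rw [← hc] at hS4
    -- real estimates
    have hbR : (0 : ℝ) < b := by exact_mod_cast Nat.pos_of_ne_zero hb0
    set lb := Real.log b with hlb
    have hlog2 : (0.69 : ℝ) < Real.log 2 := by have := Real.log_two_gt_d9; linarith
    have hlog2' : Real.log 2 < (0.7 : ℝ) := by have := Real.log_two_lt_d9; linarith
    have hlb1 : ((lam : ℝ) - 1) * Real.log 2 ≤ lb := by
      have h1 : ((2 : ℝ) ^ (lam - 1)) ≤ b := by exact_mod_cast hb2
      have h2 := Real.log_le_log (by positivity) h1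
      rw [Real.log_pow, Nat.cast_sub (by omega), Nat.cast_one] at h2
      exact h2
    have hlamR : (200 : ℝ) < lam := by exact_mod_cast hlam200
    have hlb2 : (lam : ℝ) ≤ 2 * lb := by nlinarith
    have hlb100 : (100 : ℝ) < lb := by linarith
    set x := Real.log lb with hx
    have hx1 : (4 : ℝ) ≤ x := by
      have h1 : Real.log (2 ^ 6) ≤ x := by
        apply Real.log_le_log (by norm_num)
        norm_num; linarith
      rw [Real.log_pow] at h1
      push_cast at h1
      linarith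
    have hTx : (T : ℝ) ≤ 9 * x := by
      have h1 : 2 ^ (T - 1) < 2 * lam ^ 2 := by
        calc 2 ^ (T - 1) < lam * (I + 2) := hT3
          _ ≤ lam * (2 * lam) := Nat.mul_le_mul_left _ (by omega)
          _ = 2 * lam ^ 2 := by ring
      have h2 : ((2 : ℝ) ^ (T - 1)) ≤ 2 * (lam : ℝ) ^ 2 := by exact_mod_cast h1.le
      have h3 : ((2 : ℝ) ^ (T - 1)) ≤ 8 * lb ^ 2 := by nlinarith
      have h4 := Real.log_le_log (by positivity) h3
      rw [Real.log_pow, Nat.cast_sub (by omega), Nat.cast_one,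
        Real.log_mul (by norm_num) (by positivity), Real.log_pow,
        show (8 : ℝ) = 2 ^ 3 by norm_num, Real.log_pow] at h4
      push_cast at h4
      rw [← hx] at h4
      have h5 : ((T : ℝ) - 1) * 0.69 ≤ 3 * 0.7 + 2 * x := by
        have hT1' : (0 : ℝ) ≤ (T : ℝ) - 1 := by
          have : (1 : ℝ) ≤ T := by exact_mod_cast (by omega : 1 ≤ T)
          linarith
        nlinarith
      linarith
    have hcx : (c : ℝ) + 1 ≤ 6 * Real.log (3 + x) := by
      have h1 : 2 ^ (c - 1) < T := by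
        rw [hc]; exact Nat.pow_pred_clog_lt_self (by norm_num) (by omega)
      have hc1 : 1 ≤ c := by
        rw [hc]; exact Nat.clog_pos (by norm_num) (by omega)
      have h2 : ((2 : ℝ) ^ (c - 1)) ≤ 9 * (3 + x) := by
        have : ((2 : ℝ) ^ (c - 1)) ≤ T := by exact_mod_cast h1.le
        linarith
      have h4 := Real.log_le_log (by positivity) h2
      rw [Real.log_pow, Nat.cast_sub hc1, Nat.cast_one,
        Real.log_mul (by norm_num) (by positivity)] at h4
      have h9 : Real.log 9 ≤ 2.8 := by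
        have : Real.log 9 ≤ Real.log (2 ^ 4) := Real.log_le_log (by norm_num) (by norm_num)
        rw [Real.log_pow] at this
        push_cast at this
        linarith
      have h3x : (1.38 : ℝ) ≤ Real.log (3 + x) := by
        have : Real.log (2 ^ 2) ≤ Real.log (3 + x) :=
          Real.log_le_log (by norm_num) (by norm_num; linarith)
        rw [Real.log_pow] at this
        push_cast at this
        linarith
      have hc1R : (1 : ℝ) ≤ c := by exact_mod_cast hc1
      nlinarith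
    have hlog3x : 0 ≤ Real.log (3 + x) := Real.log_nonneg (by linarith)
    calc (S.card : ℝ) ≤ ((10 ^ 9 * (T * (c + 1)) : ℕ) : ℝ) := by exact_mod_cast hS4
      _ = 10 ^ 9 * ((T : ℝ) * ((c : ℝ) + 1)) := by push_cast; ring
      _ ≤ 10 ^ 9 * ((9 * x) * (6 * Real.log (3 + x))) := by
          gcongr
      _ = 54 * 10 ^ 9 * (x * Real.log (3 + x)) := by ring
      _ ≤ 10 ^ 11 * (x * Real.log (3 + x)) := by
          apply mul_le_mul_of_nonneg_right (by norm_num)
          apply mul_nonneg (by linarith) hlog3x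
  -- small denominators
  obtain ⟨B0, hB0⟩ : ∃ B0, B0 = 2 ^ 2 ^ E0 := ⟨_, rfl⟩
  rw [← hB0] at hlarge
  choose! f hf using fun (p : ℕ × ℕ) (hp : 0 < p.1 ∧ p.1 < p.2) => egyptian_exists p.1 p.2 hp.1 hp.2
  set C0 : ℝ := ∑ p ∈ (range B0) ×ˢ (range B0), ((f p).card : ℝ) with hC0
  have hC0nn : 0 ≤ C0 := Finset.sum_nonneg (fun _ _ => Nat.cast_nonneg _)
  have hll3 : ∀ y : ℕ, 3 ≤ y → (0.05 : ℝ) ≤ Real.log (Real.log y) := by
    intro y hy
    have h1 : (1.08 : ℝ) ≤ Real.log y := by
      have h2 : Real.log 3 ≤ Real.log y := Real.log_le_log (by norm_num) (by exact_mod_cast hy)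
      have h3 : (1.08 : ℝ) ≤ Real.log 3 := by
        have h4 : Real.log (2 ^ 11) ≤ Real.log (3 ^ 7) := Real.log_le_log (by norm_num) (by norm_num)
        rw [Real.log_pow, Real.log_pow] at h4
        push_cast at h4
        have := Real.log_two_gt_d9
        linarith
      linarith
    have h5 := Real.one_sub_inv_le_log_of_pos (x := Real.log y) (by linarith)
    have h6 : (Real.log y)⁻¹ ≤ 1 / 1.08 := by
      rw [one_div]; exact inv_anti₀ (by norm_num) h1
    norm_num at h6 ⊢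
    linarith
  refine ⟨10 ^ 11 + 20 * C0, ?_⟩
  intro x y hx hxy hy
  have h1 := hll3 y hy
  have h2 : (1 : ℝ) ≤ Real.log (3 + Real.log (Real.log y)) := by
    rw [Real.le_log_iff_exp_le (by linarith)]
    have := Real.exp_one_lt_d9
    linarith
  have hprod : (0.05 : ℝ) ≤ Real.log (Real.log y) * Real.log (3 + Real.log (Real.log y)) := by
    nlinarith
  by_cases hyB : B0 ≤ y
  · obtain ⟨S, hS1, hS2, hS3⟩ := hlarge y hyB x hx hxy
    refine ⟨S, hS1, hS2, hS3.trans ?_⟩
    apply mul_le_mul_of_nonneg_right (by linarith) (by linarith)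
  · have hp := hf (x, y) ⟨hx, hxy⟩
    refine ⟨f (x, y), hp.1, hp.2, ?_⟩
    have h3 : ((f (x, y)).card : ℝ) ≤ C0 := by
      rw [hC0]
      exact Finset.single_le_sum (f := fun p : ℕ × ℕ => ((f p).card : ℝ))
        (fun _ _ => Nat.cast_nonneg _)
        (Finset.mem_product.2 ⟨Finset.mem_range.2 (by simp; omega), Finset.mem_range.2 (by simp; omega)⟩)
    nlinarith

end Pool.Agent.H256R2.EF
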