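import Pool.Agent.H256R2.EF.BIL

/-!
AVG: average over `k + k` pools.
-/

set_option autoImplicit false

namespace Pool.Agent.H256R2.EF

open Finset

theorem avg_prod_injOn {k Y : ℕ} (Q : Fin k → Finset ℕ) (hQ : ∀ c, Q c ⊆ PP Y)
    (hQd : ∀ c c', c ≠ c' → Disjoint (Q c) (Q c')) :
    Set.InjOn (fun p : Fin k → ℕ => ∏ c, p c) (↑(Fintype.piFinset Q) : Set (Fin k → ℕ)) := by
  intro p hp p' hp' h
  simp only at h
  rw [Finset.mem_coe, Fintype.mem_piFinset] at hp hp'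
  funext c
  have hpr : ∀ q : Fin k → ℕ, (∀ c, q c ∈ Q c) → ∀ c, (q c).Prime := by
    intro q hq c
    have := hQ c (hq c)
    unfold PP at this
    exact (Finset.mem_filter.mp this).2
  have h1 : p c ∣ ∏ c, p' c := by
    rw [← h]; exact Finset.dvd_prod_of_mem _ (Finset.mem_univ c)
  obtain ⟨c', -, h2⟩ := (hpr p hp c).prime.exists_mem_finset_dvd h1
  have h3 : p c = p' c' := (Nat.prime_dvd_prime_iff_eq (hpr p hp c) (hpr p' hp' c')).mp h2
  by_cases hc : c = c'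
  · rw [h3, hc]
  · exfalso
    have := Finset.disjoint_left.mp (hQd c c' hc) (hp c)
    rw [h3] at this
    exact this (hp' c')

theorem avg_class_card (r T u : ℕ) (hr : 0 < r) (X : Finset ℕ) (hX : ∀ x ∈ X, x ≤ T) :
    (X.filter (fun x => x ≡ u [MOD r])).card ≤ T / r + 1 := by
  have h1 : (X.filter (fun x => x ≡ u [MOD r])).card ≤ (Finset.range (T / r + 1)).card := by
    apply Finset.card_le_card_of_injOn (fun x => x / r)
    · intro x hx
      rw [Finset.mem_coe, Finset.mem_filter] at hx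
      rw [Finset.mem_coe, Finset.mem_range]
      exact Nat.lt_succ_of_le (Nat.div_le_div_right (hX x hx.1))
    · intro x hx y hy hxy
      rw [Finset.mem_coe, Finset.mem_filter] at hx hy
      simp only at hxy
      have h2 : x % r = y % r := hx.2.trans hy.2.symm
      rw [← Nat.div_add_mod x r, ← Nat.div_add_mod y r, hxy, h2]
  rwa [Finset.card_range] at h1

/-- AVG. -/
theorem avg_bound (Y B k M r : ℕ) [NeZero M] (a : ZMod M) (hr : addOrderOf a = r) (hYr : Y < r)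
    (hk : r ≤ (4 * Y) ^ k) (hk' : (4 * Y) ^ k ≤ 4 * Y * r) (hB0 : 0 < B) (hB : (4 * Y) ^ 9 ≤ B ^ 10)
    (Q R : Fin k → Finset ℕ) (hQ : ∀ c, Q c ⊆ PP Y) (hR : ∀ c, R c ⊆ PP Y)
    (hQc : ∀ c, (Q c).card = B) (hRc : ∀ c, (R c).card = B)
    (hQd : ∀ c c', c ≠ c' → Disjoint (Q c) (Q c')) (hRd : ∀ c c', c ≠ c' → Disjoint (R c) (R c'))
    (g : ℕ) (hg : Nat.Coprime g M) :
    ‖∑ p ∈ Fintype.piFinset Q, ∑ q ∈ Fintype.piFinset R,
        (ZMod.stdAddChar (a * ((g * (∏ c, p c) * (∏ c, q c) : ℕ) : ZMod M)) : ℂ)‖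
      ≤ (B : ℝ) ^ (2 * k) * beta r := by
  classical
  have hr0 : 0 < r := by omega
  set T : ℕ := (4 * Y) ^ k with hT
  set X : Finset ℕ := (Fintype.piFinset Q).image (fun p => ∏ c, p c) with hXdef
  set Z : Finset ℕ := (Fintype.piFinset R).image (fun p => ∏ c, p c) with hZdef
  have hXcard : X.card = B ^ k := by
    rw [hXdef, Finset.card_image_of_injOn (avg_prod_injOn Q hQ hQd), Fintype.card_piFinset,
      Finset.prod_congr rfl (fun c _ => hQc c)]
    simp
  have hZcard : Z.card = B ^ k := by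
    rw [hZdef, Finset.card_image_of_injOn (avg_prod_injOn R hR hRd), Fintype.card_piFinset,
      Finset.prod_congr rfl (fun c _ => hRc c)]
    simp
  have hle : ∀ (Q : Fin k → Finset ℕ), (∀ c, Q c ⊆ PP Y) →
      ∀ x ∈ (Fintype.piFinset Q).image (fun p : Fin k → ℕ => ∏ c, p c), x ≤ T := by
    intro Q hQ x hx
    obtain ⟨p, hp, rfl⟩ := Finset.mem_image.mp hx
    rw [Fintype.mem_piFinset] at hp
    calc ∏ c, p c ≤ ∏ _c : Fin k, (4 * Y) := by
          apply Finset.prod_le_prod' 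
          intro c _
          have := hQ c (hp c)
          unfold PP at this
          rw [Finset.mem_filter, Finset.mem_Ioc] at this
          exact this.1.2
      _ = T := by rw [hT]; simp
  have hord : addOrderOf (a * (g : ZMod M)) = r := by
    rw [← hr]
    have hu : IsUnit (g : ZMod M) := (ZMod.isUnit_iff_coprime g M).mpr hg
    exact addOrderOf_injective (AddMonoidHom.mulRight (g : ZMod M)) hu.mul_left_injective a
  have hbil := bilinear M (a * (g : ZMod M)) r hord X Z (T / r + 1) (T / r + 1)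
    (fun u => avg_class_card r T u hr0 X (hle Q hQ)) (fun u => avg_class_card r T u hr0 Z (hle R hR))
  have hsum : ∑ p ∈ Fintype.piFinset Q, ∑ q ∈ Fintype.piFinset R,
        (ZMod.stdAddChar (a * ((g * (∏ c, p c) * (∏ c, q c) : ℕ) : ZMod M)) : ℂ) =
      ∑ x ∈ X, ∑ z ∈ Z, (ZMod.stdAddChar (a * (g : ZMod M) * (x : ZMod M) * (z : ZMod M)) : ℂ) := by
    rw [hXdef, Finset.sum_image (avg_prod_injOn Q hQ hQd)]
    apply Finset.sum_congr rfl
    intro p _
    rw [hZdef, Finset.sum_image (avg_prod_injOn R hR hRd)]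
    apply Finset.sum_congr rfl
    intro q _
    congr 1
    push_cast
    ring
  rw [hsum]
  set N : ℝ := ‖∑ x ∈ X, ∑ z ∈ Z,
    (ZMod.stdAddChar (a * (g : ZMod M) * (x : ZMod M) * (z : ZMod M)) : ℂ)‖ with hN
  have hN0 : 0 ≤ N := norm_nonneg _
  rw [hXcard, hZcard] at hbil
  have hrR : (0:ℝ) < r := by exact_mod_cast hr0
  have hBR : (0:ℝ) < B := by exact_mod_cast hB0
  have hnX : ((T / r + 1 : ℕ) : ℝ) ≤ 2 * T / r := by
    rw [le_div_iff₀ hrR]
    have h1 : (T / r + 1) * r ≤ 2 * T := by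
      have h2 : T / r * r ≤ T := Nat.div_mul_le_self T r
      nlinarith
    exact_mod_cast h1
  have h1 : N ^ 2 ≤ 4 * (B:ℝ) ^ (2 * k) * (T:ℝ) ^ 2 / r := by
    refine hbil.trans ?_
    push_cast
    push_cast at hnX
    have h2 : (0:ℝ) ≤ ((T / r : ℕ) : ℝ) + 1 := by positivity
    have h3 : (B:ℝ) ^ k * (((T / r : ℕ) : ℝ) + 1) ≤ (B:ℝ) ^ k * (2 * T / r) :=
      mul_le_mul_of_nonneg_left hnX (by positivity)
    calc (r:ℝ) * ((B:ℝ) ^ k * (((T / r : ℕ) : ℝ) + 1)) * ((B:ℝ) ^ k * (((T / r : ℕ) : ℝ) + 1))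
        ≤ (r:ℝ) * ((B:ℝ) ^ k * (2 * T / r)) * ((B:ℝ) ^ k * (2 * T / r)) := by
          apply mul_le_mul _ h3 (by positivity) (by positivity)
          exact mul_le_mul_of_nonneg_left h3 hrR.le
      _ = 4 * (B:ℝ) ^ (2 * k) * (T:ℝ) ^ 2 / r := by
          rw [pow_mul' (B:ℝ) 2 k]
          field_simp
          ring
  -- comparison of twentieth powers
  have hT1 : (T:ℝ) ^ 18 ≤ (B:ℝ) ^ (20 * k) := by
    have h2 : T ^ 18 ≤ B ^ (20 * k) := by
      calc T ^ 18 = ((4 * Y) ^ 9) ^ (2 * k) := by rw [hT, ← pow_mul, ← pow_mul]; congr 1; ring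
        _ ≤ (B ^ 10) ^ (2 * k) := Nat.pow_le_pow_left hB _
        _ = B ^ (20 * k) := by rw [← pow_mul]; congr 1; ring
    exact_mod_cast h2
  have hT2 : (T:ℝ) ^ 2 ≤ 16 * (r:ℝ) ^ 4 := by
    have h2 : T ^ 2 ≤ 16 * r ^ 4 := by
      calc T ^ 2 ≤ (4 * Y * r) ^ 2 := Nat.pow_le_pow_left hk' 2
        _ ≤ (4 * r * r) ^ 2 := by
            apply Nat.pow_le_pow_left
            apply Nat.mul_le_mul_right
            omega
        _ = 16 * r ^ 4 := by ring
    exact_mod_cast h2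
  have h20 : N ^ 20 ≤ (B:ℝ) ^ (40 * k) * ((2:ℝ) ^ 24 / (r:ℝ) ^ 6) := by
    calc N ^ 20 = (N ^ 2) ^ 10 := by rw [← pow_mul]
      _ ≤ (4 * (B:ℝ) ^ (2 * k) * (T:ℝ) ^ 2 / r) ^ 10 :=
          pow_le_pow_left₀ (by positivity) h1 10
      _ = 2 ^ 20 * (B:ℝ) ^ (20 * k) * ((T:ℝ) ^ 18 * (T:ℝ) ^ 2) / (r:ℝ) ^ 10 := by
          rw [div_pow, mul_pow, mul_pow, ← pow_mul, ← pow_mul]
          have e1 : 2 * k * 10 = 20 * k := by ring
          rw [e1]
          congr 1
          ring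
      _ ≤ 2 ^ 20 * (B:ℝ) ^ (20 * k) * ((B:ℝ) ^ (20 * k) * (16 * (r:ℝ) ^ 4)) / (r:ℝ) ^ 10 := by
          apply div_le_div_of_nonneg_right _ (by positivity)
          apply mul_le_mul_of_nonneg_left _ (by positivity)
          exact mul_le_mul hT1 hT2 (by positivity) (by positivity)
      _ = _ := by
          have e1 : (B:ℝ) ^ (40 * k) = (B:ℝ) ^ (20 * k) * (B:ℝ) ^ (20 * k) := by
            rw [← pow_add]; congr 1; ring
          rw [e1]
          field_simp
          norm_num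
  have hbeta : beta r ^ 20 = (2:ℝ) ^ 24 / (r:ℝ) ^ 6 := by
    unfold beta
    rw [← Real.rpow_natCast, ← Real.rpow_mul (by positivity)]
    norm_num
  have hbeta0 : 0 ≤ beta r := by unfold beta; positivity
  have h3 : N ^ 20 ≤ ((B : ℝ) ^ (2 * k) * beta r) ^ 20 := by
    rw [mul_pow, hbeta, ← pow_mul]
    have e1 : 2 * k * 20 = 40 * k := by ring
    rw [e1]
    exact h20
  exact le_of_pow_le_pow_left₀ (by norm_num) (by positivity) h3

end Pool.Agent.H256R2.EF
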