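import Pool.Agent.H256R2.EF.Defs

/-!
# Bilinear sum bound in `ZMod M` (helper604)
-/

set_option autoImplicit false

namespace Pool.Agent.H256R2.EF

open Finset

private theorem bil_ord {M : ℕ} (a : ZMod M) (r : ℕ) (hr : addOrderOf a = r) :
    a * (r : ZMod M) = 0 := by
  have h := addOrderOf_nsmul_eq_zero a
  rw [hr, nsmul_eq_mul] at h
  rw [mul_comm]
  exact h

private theorem bil_mod {M : ℕ} (a : ZMod M) (r : ℕ) (hr : addOrderOf a = r) (x : ℕ) :
    a * (x : ZMod M) = a * ((x % r : ℕ) : ZMod M) := by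
  conv_lhs => rw [← Nat.div_add_mod x r]
  push_cast
  rw [mul_add, ← mul_assoc, bil_ord a r hr, zero_mul, zero_add]

private theorem bil_inner (M : ℕ) [NeZero M] (a : ZMod M) (r : ℕ) (hr : addOrderOf a = r)
    (z z' : ℕ) :
    ∑ u ∈ range r, (ZMod.stdAddChar (a * (u : ZMod M) * (z : ZMod M)) : ℂ) *
      (starRingEnd ℂ) (ZMod.stdAddChar (a * (u : ZMod M) * (z' : ZMod M)) : ℂ) =
      if z' ≡ z [MOD r] then (r : ℂ) else 0 := by
  have h1 : ∀ u : ℕ, (ZMod.stdAddChar (a * (u : ZMod M) * (z : ZMod M)) : ℂ) *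
      (starRingEnd ℂ) (ZMod.stdAddChar (a * (u : ZMod M) * (z' : ZMod M)) : ℂ) =
      (ZMod.stdAddChar (a * ((z : ZMod M) - (z' : ZMod M))) : ℂ) ^ u := by
    intro u
    rw [← AddChar.map_neg_eq_conj, ← AddChar.map_add_eq_mul, ← AddChar.map_nsmul_eq_pow]
    congr 1
    rw [nsmul_eq_mul]
    ring
  rw [Finset.sum_congr rfl fun u _ => h1 u]
  have hpow : (ZMod.stdAddChar (a * ((z : ZMod M) - (z' : ZMod M))) : ℂ) ^ r = 1 := by
    rw [← AddChar.map_nsmul_eq_pow, nsmul_eq_mul]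
    have : (r : ZMod M) * (a * ((z : ZMod M) - (z' : ZMod M))) = 0 := by
      rw [← mul_assoc, mul_comm (r : ZMod M) a, bil_ord a r hr, zero_mul]
    rw [this, AddChar.map_zero_eq_one]
  split_ifs with h
  · have hz : a * ((z : ZMod M) - (z' : ZMod M)) = 0 := by
      have h2 : z' • a = z • a := by
        rw [nsmul_eq_nsmul_iff_modEq, hr]
        exact h
      rw [nsmul_eq_mul, nsmul_eq_mul] at h2
      rw [mul_sub, mul_comm a, mul_comm a, h2, sub_self]
    rw [hz, AddChar.map_zero_eq_one]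
    simp
  · have hne : (ZMod.stdAddChar (a * ((z : ZMod M) - (z' : ZMod M))) : ℂ) ≠ 1 := by
      intro h2
      apply h
      have h3 : a * ((z : ZMod M) - (z' : ZMod M)) = 0 := by
        apply ZMod.injective_stdAddChar
        rw [h2, AddChar.map_zero_eq_one]
      have h4 : z' • a = z • a := by
        rw [nsmul_eq_mul, nsmul_eq_mul]
        rw [mul_sub] at h3
        rw [mul_comm _ a, mul_comm _ a]
        exact (sub_eq_zero.1 h3).symm
      rw [nsmul_eq_nsmul_iff_modEq, hr] at h4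
      exact h4
    have h5 := mul_geom_sum (ZMod.stdAddChar (a * ((z : ZMod M) - (z' : ZMod M))) : ℂ) r
    rw [hpow, sub_self] at h5
    rcases mul_eq_zero.1 h5 with h6 | h6
    · exact absurd (sub_eq_zero.1 h6) hne
    · exact h6

private theorem bil_sq (M : ℕ) [NeZero M] (a : ZMod M) (r : ℕ) (hr : addOrderOf a = r)
    (Z : Finset ℕ) (nZ : ℕ)
    (hZ : ∀ u : ℕ, (Z.filter (fun x => x ≡ u [MOD r])).card ≤ nZ) :
    ∑ u ∈ range r, ‖∑ z ∈ Z, (ZMod.stdAddChar (a * (u : ZMod M) * (z : ZMod M)) : ℂ)‖ ^ 2 ≤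
      (r : ℝ) * (Z.card * nZ) := by
  have h1 : ((∑ u ∈ range r,
      ‖∑ z ∈ Z, (ZMod.stdAddChar (a * (u : ZMod M) * (z : ZMod M)) : ℂ)‖ ^ 2 : ℝ) : ℂ) =
      ((∑ z ∈ Z, (r : ℝ) * (Z.filter (fun x => x ≡ z [MOD r])).card : ℝ) : ℂ) := by
    push_cast
    have h2 : ∀ u : ℕ, ((‖∑ z ∈ Z, (ZMod.stdAddChar (a * (u : ZMod M) * (z : ZMod M)) : ℂ)‖ : ℂ)) ^ 2
        = ∑ z ∈ Z, ∑ z' ∈ Z, (ZMod.stdAddChar (a * (u : ZMod M) * (z : ZMod M)) : ℂ) *
          (starRingEnd ℂ) (ZMod.stdAddChar (a * (u : ZMod M) * (z' : ZMod M)) : ℂ) := by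
      intro u
      rw [← Complex.mul_conj', map_sum, Finset.sum_mul_sum]
    rw [Finset.sum_congr rfl fun u _ => h2 u, Finset.sum_comm]
    apply Finset.sum_congr rfl
    intro z _
    rw [Finset.sum_comm]
    rw [Finset.sum_congr rfl fun z' _ => bil_inner M a r hr z z']
    rw [← Finset.sum_filter, Finset.sum_const, nsmul_eq_mul, mul_comm]
  have h2 : ∑ u ∈ range r,
      ‖∑ z ∈ Z, (ZMod.stdAddChar (a * (u : ZMod M) * (z : ZMod M)) : ℂ)‖ ^ 2 =
      ∑ z ∈ Z, (r : ℝ) * (Z.filter (fun x => x ≡ z [MOD r])).card := by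
    exact_mod_cast h1
  rw [h2]
  calc ∑ z ∈ Z, (r : ℝ) * (Z.filter (fun x => x ≡ z [MOD r])).card
      ≤ ∑ _z ∈ Z, (r : ℝ) * nZ := by
        apply Finset.sum_le_sum
        intro z _
        apply mul_le_mul_of_nonneg_left _ (Nat.cast_nonneg r)
        exact_mod_cast hZ z
    _ = (r : ℝ) * (Z.card * nZ) := by
        rw [Finset.sum_const, nsmul_eq_mul]
        ring

/-- BIL. -/
theorem bilinear (M : ℕ) [NeZero M] (a : ZMod M) (r : ℕ) (hr : addOrderOf a = r)
    (X Z : Finset ℕ) (nX nZ : ℕ)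
    (hX : ∀ u : ℕ, (X.filter (fun x => x ≡ u [MOD r])).card ≤ nX)
    (hZ : ∀ u : ℕ, (Z.filter (fun x => x ≡ u [MOD r])).card ≤ nZ) :
    ‖∑ x ∈ X, ∑ z ∈ Z, (ZMod.stdAddChar (a * (x : ZMod M) * (z : ZMod M)) : ℂ)‖ ^ 2
      ≤ (r : ℝ) * (X.card * nX) * (Z.card * nZ) := by
  have hr0 : 0 < r := by
    rw [← hr]
    exact addOrderOf_pos a
  set T : ℕ → ℝ := fun u => ‖∑ z ∈ Z, (ZMod.stdAddChar (a * (u : ZMod M) * (z : ZMod M)) : ℂ)‖ with hT
  have hTmod : ∀ x, T x = T (x % r) := by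
    intro x
    simp only [hT]
    rw [bil_mod a r hr x]
  calc ‖∑ x ∈ X, ∑ z ∈ Z, (ZMod.stdAddChar (a * (x : ZMod M) * (z : ZMod M)) : ℂ)‖ ^ 2
      ≤ (∑ x ∈ X, T x) ^ 2 :=
        pow_le_pow_left₀ (norm_nonneg _) (norm_sum_le _ _) 2
    _ ≤ X.card * ∑ x ∈ X, T x ^ 2 := sq_sum_le_card_mul_sum_sq
    _ ≤ X.card * (nX * ((r : ℝ) * (Z.card * nZ))) := by
        apply mul_le_mul_of_nonneg_left _ (Nat.cast_nonneg _)
        calc ∑ x ∈ X, T x ^ 2 = ∑ x ∈ X, T (x % r) ^ 2 := by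
              apply Finset.sum_congr rfl
              intro x _
              rw [hTmod x]
          _ = ∑ u ∈ range r, ∑ x ∈ X with x % r = u, T (x % r) ^ 2 := by
              rw [Finset.sum_fiberwise_of_maps_to]
              intro x _
              exact Finset.mem_range.2 (Nat.mod_lt _ hr0)
          _ ≤ ∑ u ∈ range r, (nX : ℝ) * T u ^ 2 := by
              apply Finset.sum_le_sum
              intro u hu
              have hu' := Finset.mem_range.1 hu
              have h1 : ∑ x ∈ X with x % r = u, T (x % r) ^ 2 =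
                  ((X.filter fun x => x % r = u).card : ℝ) * T u ^ 2 := by
                rw [← nsmul_eq_mul, ← Finset.sum_const]
                apply Finset.sum_congr rfl
                intro x hx
                rw [(Finset.mem_filter.1 hx).2]
              rw [h1]
              apply mul_le_mul_of_nonneg_right _ (sq_nonneg _)
              have h2 : (X.filter fun x => x % r = u) = X.filter (fun x => x ≡ u [MOD r]) := by
                apply Finset.filter_congr
                intro x _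
                unfold Nat.ModEq
                rw [Nat.mod_eq_of_lt hu']
              rw [h2]
              exact_mod_cast hX u
          _ = nX * ∑ u ∈ range r, T u ^ 2 := by rw [Finset.mul_sum]
          _ ≤ nX * ((r : ℝ) * (Z.card * nZ)) :=
              mul_le_mul_of_nonneg_left (bil_sq M a r hr Z nZ hZ) (Nat.cast_nonneg _)
    _ = (r : ℝ) * (X.card * nX) * (Z.card * nZ) := by ring

end Pool.Agent.H256R2.EF
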