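import Pool.Agent.H256R2.EF.Defs

set_option autoImplicit false

namespace Pool.Agent.H256R2.EF

open Finset

theorem ord_gt_aux (Y M : ℕ) [NeZero M] (hM : ∀ p : ℕ, p.Prime → p ∣ M → Y < p)
    (a : ZMod M) (ha : a ≠ 0) : Y < addOrderOf a ∧ addOrderOf a ≤ M := by
  have h1 : addOrderOf a ∣ M := by
    have := addOrderOf_dvd_card (x := a)
    rwa [ZMod.card] at this
  have h2 : addOrderOf a ≠ 1 := by
    intro h
    exact ha (AddMonoid.addOrderOf_eq_one_iff.mp h)
  have h3 : 0 < addOrderOf a := addOrderOf_pos a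
  obtain ⟨p, hp, hpd⟩ := Nat.exists_prime_and_dvd h2
  exact ⟨lt_of_lt_of_le (hM p hp (hpd.trans h1)) (Nat.le_of_dvd h3 hpd),
    Nat.le_of_dvd (Nat.pos_of_ne_zero (NeZero.ne M)) h1⟩

theorem ord_card_aux (M r : ℕ) [NeZero M] (hr : 0 < r) :
    ((Finset.univ.erase (0 : ZMod M)).filter (fun a => addOrderOf a = r)).card ≤ r := by
  classical
  refine le_trans (Finset.card_le_card ?_) (IsAddCyclic.card_nsmul_eq_zero_le (α := ZMod M) hr)
  intro a ha
  simp only [Finset.mem_filter, Finset.mem_univ, true_and] at ha ⊢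
  rw [← ha.2]
  exact addOrderOf_nsmul_eq_zero a

theorem tele_aux (Y : ℕ) (hY : 0 < Y) (M : ℕ) :
    ∑ r ∈ Finset.Ioc Y M, (1 : ℝ) / (r : ℝ) ^ 2 ≤ 1 / (Y : ℝ) := by
  have key : ∀ M : ℕ, Y ≤ M → ∑ r ∈ Finset.Ioc Y M, (1 : ℝ) / (r : ℝ) ^ 2
      ≤ 1 / (Y : ℝ) - 1 / (M : ℝ) := by
    intro M hM
    induction M, hM using Nat.le_induction with
    | base => simp
    | succ n hn ih =>
      rw [← Finset.insert_Ioc_right_eq_Ioc_add_one (by omega), Finset.sum_insert (by simp)]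
      have hn0 : (0 : ℝ) < n := by
        have : 0 < n := by omega
        exact_mod_cast this
      have : (1 : ℝ) / ((n + 1 : ℕ) : ℝ) ^ 2 ≤ 1 / (n : ℝ) - 1 / ((n + 1 : ℕ) : ℝ) := by
        push_cast
        rw [div_sub_div _ _ (by positivity) (by positivity), div_le_div_iff₀ (by positivity)
          (by positivity)]
        nlinarith
      linarith
  rcases le_or_gt Y M with h | h
  · have := key M h
    have h2 : (0 : ℝ) ≤ 1 / (M : ℝ) := by positivity
    linarith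
  · rw [Finset.Ioc_eq_empty (by omega)]
    simp

/-- ORD. -/
theorem order_sum (Y M : ℕ) [NeZero M] (hY : 2 ≤ Y) (hM : ∀ p : ℕ, p.Prime → p ∣ M → Y < p) :
    ∑ a ∈ (Finset.univ.erase (0 : ZMod M)), (1 : ℝ) / (addOrderOf a : ℝ) ^ 6
      ≤ 1 / (Y : ℝ) ^ 3 := by
  classical
  have hYpos : (0 : ℝ) < Y := by
    have : 0 < Y := by omega
    exact_mod_cast this
  have hmaps : ∀ a ∈ (Finset.univ.erase (0 : ZMod M)), addOrderOf a ∈ Finset.Ioc Y M := by
    intro a ha
    have := ord_gt_aux Y M hM a (Finset.ne_of_mem_erase ha)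
    exact Finset.mem_Ioc.mpr this
  rw [← Finset.sum_fiberwise_of_maps_to hmaps]
  calc ∑ r ∈ Finset.Ioc Y M, ∑ a ∈ (Finset.univ.erase (0 : ZMod M)) with addOrderOf a = r,
        (1 : ℝ) / (addOrderOf a : ℝ) ^ 6
      ≤ ∑ r ∈ Finset.Ioc Y M, (1 / (Y : ℝ) ^ 3) * ((1 : ℝ) / (r : ℝ) ^ 2) := by
        refine Finset.sum_le_sum (fun r hr => ?_)
        have hYr : Y < r := (Finset.mem_Ioc.mp hr).1
        have hr0 : 0 < r := by omega
        have hrR : (Y : ℝ) ≤ r := by exact_mod_cast hYr.le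
        have hrpos : (0 : ℝ) < r := by exact_mod_cast hr0
        have h1 : ∑ a ∈ (Finset.univ.erase (0 : ZMod M)) with addOrderOf a = r,
            (1 : ℝ) / (addOrderOf a : ℝ) ^ 6
            = ∑ a ∈ (Finset.univ.erase (0 : ZMod M)) with addOrderOf a = r,
            (1 : ℝ) / (r : ℝ) ^ 6 := by
          refine Finset.sum_congr rfl (fun a ha => ?_)
          rw [(Finset.mem_filter.mp ha).2]
        rw [h1, Finset.sum_const, nsmul_eq_mul]
        have h2 : (((Finset.univ.erase (0 : ZMod M)).filter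
            (fun a => addOrderOf a = r)).card : ℝ) ≤ r := by
          exact_mod_cast ord_card_aux M r hr0
        calc _ ≤ (r : ℝ) * (1 / (r : ℝ) ^ 6) := by gcongr
          _ = (1 / (r : ℝ) ^ 3) * (1 / (r : ℝ) ^ 2) := by field_simp
          _ ≤ _ := by gcongr
    _ = (1 / (Y : ℝ) ^ 3) * ∑ r ∈ Finset.Ioc Y M, ((1 : ℝ) / (r : ℝ) ^ 2) := by
        rw [Finset.mul_sum]
    _ ≤ (1 / (Y : ℝ) ^ 3) * (1 / (Y : ℝ)) := by
        have := tele_aux Y (by omega) M
        gcongr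
    _ ≤ (1 / (Y : ℝ) ^ 3) * 1 := by
        have : (1 : ℝ) ≤ Y := by
          have : 1 ≤ Y := by omega
          exact_mod_cast this
        have : 1 / (Y : ℝ) ≤ 1 := by
          rw [div_le_one hYpos]; exact this
        gcongr
    _ = _ := mul_one _

end Pool.Agent.H256R2.EF
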