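import Pool.Agent.H256R2.EF.Defs

/-!
ORTH: a Fourier criterion for the representation of all residues.
-/

set_option autoImplicit false

namespace Pool.Agent.H256R2.EF

open Finset

theorem orth_map_sum {M : ℕ} [NeZero M] {ι : Type*} (s : Finset ι) (f : ι → ZMod M) :
    (ZMod.stdAddChar (∑ i ∈ s, f i) : ℂ) = ∏ i ∈ s, ZMod.stdAddChar (f i) := by
  classical
  induction s using Finset.induction_on with
  | empty => simp
  | insert a s ha ih => rw [Finset.sum_insert ha, Finset.prod_insert ha, AddChar.map_add_eq_mul, ih]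

/-- ORTH. -/
theorem rep_of_fourier (M t : ℕ) [NeZero M] {K w : ℕ} (hw : 0 < w)
    (p : Fin t → Fin K → Fin w → ℕ)
    (h : ∑ a ∈ (Finset.univ.erase (0 : ZMod M)), ∏ i, ‖F M (p i) a‖ < 1) (m : ZMod M) :
    ∃ ε : Fin t → (Fin K → Fin w), ∑ i, (fam (p i) (ε i) : ZMod M) = m := by
  classical
  by_contra hcon
  push Not at hcon
  have hw0 : (w:ℂ) ≠ 0 := by exact_mod_cast hw.ne'
  have h0 : ∀ ε : Fin t → (Fin K → Fin w),
      ∑ a : ZMod M, (ZMod.stdAddChar (a * (∑ i, (fam (p i) (ε i) : ZMod M) - m)) : ℂ) = 0 := by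
    intro ε
    rw [AddChar.sum_mulShift _ (ZMod.isPrimitive_stdAddChar M), if_neg (sub_ne_zero.mpr (hcon ε))]
    simp
  have h1 : ∑ a : ZMod M, (ZMod.stdAddChar (-(a * m)) : ℂ) * ∏ i, F M (p i) a = 0 := by
    have h2 : ∀ a : ZMod M, (ZMod.stdAddChar (-(a * m)) : ℂ) * ∏ i, F M (p i) a =
        (∑ ε : Fin t → (Fin K → Fin w),
          (ZMod.stdAddChar (a * (∑ i, (fam (p i) (ε i) : ZMod M) - m)) : ℂ)) / ((w:ℂ)^K)^t := by
      intro a
      unfold F
      rw [Finset.prod_div_distrib, Finset.prod_const, Finset.card_univ, Fintype.card_fin,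
        ← mul_div_assoc]
      congr 1
      rw [Finset.prod_univ_sum, Finset.mul_sum]
      rw [Fintype.piFinset_univ]
      apply Finset.sum_congr rfl
      intro ε _
      rw [mul_sub, Finset.mul_sum, sub_eq_add_neg, AddChar.map_add_eq_mul,
        orth_map_sum, mul_comm]
    rw [Finset.sum_congr rfl (fun a _ => h2 a), ← Finset.sum_div, Finset.sum_comm,
      Finset.sum_congr rfl (fun ε _ => h0 ε)]
    simp
  have h3 : ∀ i, F M (p i) 0 = 1 := by
    intro i
    unfold F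
    simp only [zero_mul, AddChar.map_zero_eq_one, Finset.sum_const, Finset.card_univ,
      nsmul_eq_mul, mul_one, Fintype.card_fun, Fintype.card_fin]
    push_cast
    exact div_self (pow_ne_zero _ hw0)
  rw [← Finset.add_sum_erase _ _ (Finset.mem_univ (0 : ZMod M))] at h1
  have h4 : (ZMod.stdAddChar (-((0 : ZMod M) * m)) : ℂ) * ∏ i, F M (p i) 0 = 1 := by
    simp [h3]
  rw [h4] at h1
  have h5 : (1:ℝ) ≤ ∑ a ∈ (Finset.univ.erase (0 : ZMod M)), ∏ i, ‖F M (p i) a‖ := by
    have h6 : ∑ a ∈ (Finset.univ.erase (0 : ZMod M)),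
        (ZMod.stdAddChar (-(a * m)) : ℂ) * ∏ i, F M (p i) a = -1 := by
      linear_combination h1
    calc (1:ℝ) = ‖(-1 : ℂ)‖ := by simp
      _ = ‖∑ a ∈ (Finset.univ.erase (0 : ZMod M)),
        (ZMod.stdAddChar (-(a * m)) : ℂ) * ∏ i, F M (p i) a‖ := by rw [h6]
      _ ≤ ∑ a ∈ (Finset.univ.erase (0 : ZMod M)),
        ‖(ZMod.stdAddChar (-(a * m)) : ℂ) * ∏ i, F M (p i) a‖ := norm_sum_le _ _
      _ = _ := by
        apply Finset.sum_congr rfl
        intro a _
        rw [norm_mul, AddChar.norm_apply, one_mul, norm_prod]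
  linarith

end Pool.Agent.H256R2.EF
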