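import Pool.Agent.H256R2.EF.MOM
import Pool.Agent.H256R2.EF.ORTH
import Pool.Agent.H256R2.EF.ORD

set_option autoImplicit false

namespace Pool.Agent.H256R2.EF

open Finset

theorem card_Om (Y B : ℕ) {K w : ℕ} (Q : Fin K → Fin w → Finset ℕ) (hQ : Pools Y B Q) :
    (Om Q).card = B ^ (K * w) := by
  unfold Om
  rw [Fintype.card_piFinset]
  have : ∀ c : Fin K, (Fintype.piFinset (Q c)).card = B ^ w := by
    intro c
    rw [Fintype.card_piFinset]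
    simp [hQ.card]
  simp only [this]
  simp [← pow_mul, mul_comm]

theorem order_gt (Y M : ℕ) [NeZero M] (hM : ∀ p : ℕ, p.Prime → p ∣ M → Y < p)
    (a : ZMod M) (ha : a ≠ 0) : Y < addOrderOf a := by
  have h1 : addOrderOf a ∣ M := by
    have := addOrderOf_dvd_card (x := a)
    rwa [ZMod.card] at this
  have h2 : addOrderOf a ≠ 1 := by
    intro h
    exact ha (AddMonoid.addOrderOf_eq_one_iff.mp h)
  have h3 : 0 < addOrderOf a := addOrderOf_pos a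
  obtain ⟨p, hp, hpd⟩ := Nat.exists_prime_and_dvd h2
  exact lt_of_lt_of_le (hM p hp (hpd.trans h1)) (Nat.le_of_dvd h3 hpd)

theorem beta_pow (r : ℕ) : beta r ^ 20 = 2 ^ 24 / (r : ℝ) ^ 6 := by
  unfold beta
  rw [← Real.rpow_natCast, ← Real.rpow_mul (by positivity)]
  norm_num

theorem beta_nonneg (r : ℕ) : 0 ≤ beta r := by
  unfold beta
  positivity

theorem sum_F_sq (Y B M : ℕ) {K w : ℕ} [NeZero M] (a : ZMod M)
    (hY : 2 ≤ Y) (hYr : Y < addOrderOf a) (hK : 32 ≤ K) (hw : 2 ≤ w) (hwY : w ≤ 4 * Y)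
    (hMw : M ^ 32 ≤ w ^ K) (hB0 : 0 < B) (hB : (4 * Y) ^ 9 ≤ B ^ 10)
    (Q : Fin K → Fin w → Finset ℕ) (hQ : Pools Y B Q)
    (hM : ∀ c s, ∀ q ∈ Q c s, Nat.Coprime q M) :
    (∑ p ∈ Om Q, ‖F M p a‖) ^ 2 ≤ ((B : ℝ) ^ (K * w)) ^ 2 * (2 * beta (addOrderOf a)) := by
  have h1 := second_moment Y B M (addOrderOf a) a rfl hY hYr hK hw hwY hMw hB0 hB Q hQ hM
  have h2 := sq_sum_le_card_mul_sum_sq (s := Om Q) (f := fun p => ‖F M p a‖)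
  rw [card_Om Y B Q hQ] at h2
  push_cast at h2
  calc (∑ p ∈ Om Q, ‖F M p a‖) ^ 2 ≤ (B : ℝ) ^ (K * w) * ∑ p ∈ Om Q, ‖F M p a‖ ^ 2 := h2
    _ ≤ (B : ℝ) ^ (K * w) * ((B : ℝ) ^ (K * w) * (2 * beta (addOrderOf a))) := by
        gcongr
    _ = _ := by ring

theorem sum_prod_F (Y B M : ℕ) {K w : ℕ} [NeZero M] (a : ZMod M)
    (hY : 2 ≤ Y) (hYr : Y < addOrderOf a) (hK : 32 ≤ K) (hw : 2 ≤ w) (hwY : w ≤ 4 * Y)
    (hMw : M ^ 32 ≤ w ^ K) (hB0 : 0 < B) (hB : (4 * Y) ^ 9 ≤ B ^ 10)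
    (Q : Fin 40 → Fin K → Fin w → Finset ℕ) (hQ : ∀ i, Pools Y B (Q i))
    (hM : ∀ i c s, ∀ q ∈ Q i c s, Nat.Coprime q M) :
    ∑ p ∈ Fintype.piFinset (fun i => Om (Q i)), ∏ i, ‖F M (p i) a‖
      ≤ ((B : ℝ) ^ (K * w)) ^ 40 * (2 ^ 44 * (1 / (addOrderOf a : ℝ) ^ 6)) := by
  rw [← Finset.prod_univ_sum (fun i => Om (Q i)) (fun _ q => ‖F M q a‖)]
  have h0 : 0 ≤ ∏ i : Fin 40, ∑ q ∈ Om (Q i), ‖F M q a‖ := by positivity
  have hb := beta_nonneg (addOrderOf a)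
  refine le_of_sq_le_sq ?_ (by positivity)
  rw [← Finset.prod_pow]
  calc ∏ i : Fin 40, (∑ q ∈ Om (Q i), ‖F M q a‖) ^ 2
      ≤ ∏ _i : Fin 40, (((B : ℝ) ^ (K * w)) ^ 2 * (2 * beta (addOrderOf a))) := by
        refine Finset.prod_le_prod (fun i _ => by positivity) (fun i _ => ?_)
        exact sum_F_sq Y B M a hY hYr hK hw hwY hMw hB0 hB (Q i) (hQ i) (hM i)
    _ = (((B : ℝ) ^ (K * w)) ^ 2 * (2 * beta (addOrderOf a))) ^ 40 := by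
        rw [Finset.prod_const]; simp
    _ = (((B : ℝ) ^ (K * w)) ^ 40 * (2 ^ 20 * beta (addOrderOf a) ^ 20)) ^ 2 := by ring
    _ = (((B : ℝ) ^ (K * w)) ^ 40 * (2 ^ 44 * (1 / (addOrderOf a : ℝ) ^ 6))) ^ 2 := by
        rw [beta_pow]; ring

/-- total weight of a modulus -/
noncomputable def Gm {K w : ℕ} (M : ℕ) (p : Fin 40 → Fin K → Fin w → ℕ) : ℝ :=
  if h : M ≠ 0 then
    haveI : NeZero M := ⟨h⟩
    ∑ a ∈ (Finset.univ.erase (0 : ZMod M)), ∏ i, ‖F M (p i) a‖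
  else 0

theorem Gm_eq {K w : ℕ} (M : ℕ) [h : NeZero M] (p : Fin 40 → Fin K → Fin w → ℕ) :
    Gm M p = ∑ a ∈ (Finset.univ.erase (0 : ZMod M)), ∏ i, ‖F M (p i) a‖ := by
  unfold Gm
  rw [dif_pos h.out]

theorem Gm_nonneg {K w : ℕ} (M : ℕ) (p : Fin 40 → Fin K → Fin w → ℕ) : 0 ≤ Gm M p := by
  by_cases h : M ≠ 0
  · haveI : NeZero M := ⟨h⟩
    rw [Gm_eq]
    positivity
  · unfold Gm
    rw [dif_neg h]

theorem sum_Gm (Y B M : ℕ) {K w : ℕ} (h1M : 1 < M)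
    (hY : 2 ≤ Y) (hK : 32 ≤ K) (hw : 2 ≤ w) (hwY : w ≤ 4 * Y)
    (hMw : M ^ 32 ≤ w ^ K) (hB0 : 0 < B) (hB : (4 * Y) ^ 9 ≤ B ^ 10)
    (Q : Fin 40 → Fin K → Fin w → Finset ℕ) (hQ : ∀ i, Pools Y B (Q i))
    (hMp : ∀ p : ℕ, p.Prime → p ∣ M → Y < p)
    (hM : ∀ i c s, ∀ q ∈ Q i c s, Nat.Coprime q M) :
    ∑ p ∈ Fintype.piFinset (fun i => Om (Q i)), Gm M p
      ≤ ((B : ℝ) ^ (K * w)) ^ 40 * (2 ^ 44 * (1 / (Y : ℝ) ^ 3)) := by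
  haveI : NeZero M := ⟨by omega⟩
  simp only [Gm_eq]
  rw [Finset.sum_comm]
  calc ∑ a ∈ (Finset.univ.erase (0 : ZMod M)),
        ∑ p ∈ Fintype.piFinset (fun i => Om (Q i)), ∏ i, ‖F M (p i) a‖
      ≤ ∑ a ∈ (Finset.univ.erase (0 : ZMod M)),
          ((B : ℝ) ^ (K * w)) ^ 40 * (2 ^ 44 * (1 / (addOrderOf a : ℝ) ^ 6)) := by
        refine Finset.sum_le_sum (fun a ha => ?_)
        exact sum_prod_F Y B M a hY (order_gt Y M hMp a (Finset.ne_of_mem_erase ha)) hK hw hwY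
          hMw hB0 hB Q hQ hM
    _ = ((B : ℝ) ^ (K * w)) ^ 40 * (2 ^ 44 * ∑ a ∈ (Finset.univ.erase (0 : ZMod M)),
          (1 / (addOrderOf a : ℝ) ^ 6)) := by
        rw [Finset.mul_sum, Finset.mul_sum]
    _ ≤ _ := by
        have := order_sum Y M hY hMp
        gcongr

/-- CH: choice of forty families good for all moduli of `Ms`. -/
theorem choice (Y B : ℕ) {K w : ℕ} (hY : 2 ^ 23 ≤ Y) (hK : 32 ≤ K) (hw : 2 ≤ w)
    (hwY : w ≤ 4 * Y) (hB0 : 0 < B) (hB : (4 * Y) ^ 9 ≤ B ^ 10)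
    (Q : Fin 40 → Fin K → Fin w → Finset ℕ) (hQ : ∀ i, Pools Y B (Q i))
    (Ms : Finset ℕ) (hc : Ms.card ≤ Y)
    (hMs : ∀ M ∈ Ms, 1 < M ∧ M ^ 32 ≤ w ^ K ∧ (∀ p : ℕ, p.Prime → p ∣ M → Y < p) ∧
      ∀ i c s, ∀ q ∈ Q i c s, Nat.Coprime q M) :
    ∃ p : Fin 40 → Fin K → Fin w → ℕ, (∀ i c s, p i c s ∈ Q i c s) ∧
      ∀ M ∈ Ms, ∀ m : ℕ, ∃ ε : Fin 40 → (Fin K → Fin w),
        (∑ i, fam (p i) (ε i)) ≡ m [MOD M] := by
  have hYR : (2 : ℝ) ^ 23 ≤ Y := by exact_mod_cast hY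
  have hYpos : (0 : ℝ) < Y := lt_of_lt_of_le (by norm_num) hYR
  set P := Fintype.piFinset (fun i => Om (Q i)) with hP
  have hPc : (P.card : ℝ) = ((B : ℝ) ^ (K * w)) ^ 40 := by
    rw [hP, Fintype.card_piFinset]
    have : ∀ i : Fin 40, (Om (Q i)).card = B ^ (K * w) := fun i => card_Om Y B (Q i) (hQ i)
    simp only [this, Finset.prod_const, Finset.card_univ, Fintype.card_fin]
    push_cast
    ring
  have hBpos : (0 : ℝ) < ((B : ℝ) ^ (K * w)) ^ 40 := by positivity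
  have htot : ∑ p ∈ P, ∑ M ∈ Ms, Gm M p < ∑ _p ∈ P, (1 : ℝ) := by
    rw [Finset.sum_comm]
    calc ∑ M ∈ Ms, ∑ p ∈ P, Gm M p
        ≤ ∑ _M ∈ Ms, ((B : ℝ) ^ (K * w)) ^ 40 * (2 ^ 44 * (1 / (Y : ℝ) ^ 3)) := by
          refine Finset.sum_le_sum (fun M hM => ?_)
          obtain ⟨h1, h2, h3, h4⟩ := hMs M hM
          exact sum_Gm Y B M h1 (by omega) hK hw hwY h2 hB0 hB Q hQ h3 h4
      _ = (Ms.card : ℝ) * (((B : ℝ) ^ (K * w)) ^ 40 * (2 ^ 44 * (1 / (Y : ℝ) ^ 3))) := by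
          rw [Finset.sum_const, nsmul_eq_mul]
      _ ≤ (Y : ℝ) * (((B : ℝ) ^ (K * w)) ^ 40 * (2 ^ 44 * (1 / (Y : ℝ) ^ 3))) := by
          have : (Ms.card : ℝ) ≤ Y := by exact_mod_cast hc
          gcongr
      _ = ((B : ℝ) ^ (K * w)) ^ 40 * (2 ^ 44 / (Y : ℝ) ^ 2) := by
          field_simp
      _ < ((B : ℝ) ^ (K * w)) ^ 40 * 1 := by
          apply mul_lt_mul_of_pos_left _ hBpos
          rw [div_lt_one (by positivity)]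
          calc (2 : ℝ) ^ 44 < (2 ^ 23) ^ 2 := by norm_num
            _ ≤ (Y : ℝ) ^ 2 := by gcongr
      _ = ∑ _p ∈ P, (1 : ℝ) := by
          rw [Finset.sum_const, nsmul_eq_mul, hPc]
  obtain ⟨p, hpP, hp⟩ := Finset.exists_lt_of_sum_lt htot
  refine ⟨p, ?_, ?_⟩
  · intro i c s
    have h1 := (Fintype.mem_piFinset.mp hpP) i
    have h2 := (Fintype.mem_piFinset.mp h1) c
    exact (Fintype.mem_piFinset.mp h2) s
  · intro M hM m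
    obtain ⟨h1, h2, h3, h4⟩ := hMs M hM
    haveI : NeZero M := ⟨by omega⟩
    have hle : Gm M p ≤ ∑ M ∈ Ms, Gm M p :=
      Finset.single_le_sum (f := fun M => Gm M p) (fun M _ => Gm_nonneg M p) hM
    rw [Gm_eq] at hle
    obtain ⟨ε, hε⟩ := rep_of_fourier M 40 (by omega) p (lt_of_le_of_lt hle hp) (m : ZMod M)
    refine ⟨ε, ?_⟩
    rw [← ZMod.natCast_eq_natCast_iff]
    push_cast
    exact hε

end Pool.Agent.H256R2.EF
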