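import Pool.Agent.H256R2.EF.Defs

set_option autoImplicit false

namespace Pool.Agent.H256R2.EF

open Finset

/-- CNT. -/
theorem count_close (K w k : ℕ) (hw : 2 ≤ w) (hk : 16 * k ≤ K) (ε : Fin K → Fin w) :
    ((Finset.univ.filter (fun ε' : Fin K → Fin w =>
      (Finset.univ.filter (fun c => ε c ≠ ε' c)).card < 2 * k)).card) ^ 4 ≤ w ^ (3 * K) := by
  classical
  set N := (Finset.univ.filter (fun ε' : Fin K → Fin w =>
      (Finset.univ.filter (fun c => ε c ≠ ε' c)).card < 2 * k)).card with hN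
  have hw0 : (0 : ℝ) < w := by
    have : 0 < w := by omega
    exact_mod_cast this
  have hw1 : (1 : ℝ) ≤ w := by
    have : 1 ≤ w := by omega
    exact_mod_cast this
  have hw2 : (2 : ℝ) ≤ w := by exact_mod_cast hw
  -- generating function
  have hgen : ∑ ε' : Fin K → Fin w, ∏ c, (if ε c ≠ ε' c then (1 / (w : ℝ)) else 1) =
      (2 - 1 / (w : ℝ)) ^ K := by
    have h1 := Finset.prod_univ_sum (R := ℝ) (t := fun _ : Fin K => (univ : Finset (Fin w)))
      (f := fun c x => if ε c ≠ x then (1 / (w : ℝ)) else 1)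
    rw [Fintype.piFinset_univ] at h1
    rw [← h1]
    have h2 : ∀ c : Fin K, ∑ x : Fin w, (if ε c ≠ x then (1 / (w : ℝ)) else 1) = 2 - 1 / (w : ℝ) := by
      intro c
      have h3 : ∀ x : Fin w, (if ε c ≠ x then (1 / (w : ℝ)) else 1) =
          1 / (w : ℝ) + (if ε c = x then (1 - 1 / (w : ℝ)) else 0) := by
        intro x
        by_cases h : ε c = x
        · simp [h]
        · simp [h]
      simp only [h3, sum_add_distrib, sum_const, card_univ, Fintype.card_fin, nsmul_eq_mul,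
        sum_ite_eq, mem_univ, if_true]
      field_simp
      ring
    simp only [h2, prod_const, card_univ, Fintype.card_fin]
  have hprod : ∀ ε' : Fin K → Fin w, ∏ c, (if ε c ≠ ε' c then (1 / (w : ℝ)) else 1) =
      (1 / (w : ℝ)) ^ (Finset.univ.filter (fun c => ε c ≠ ε' c)).card := by
    intro ε'
    rw [prod_ite, prod_const, prod_const_one, mul_one]
  have hle : (N : ℝ) ≤ (w : ℝ) ^ (2 * k) * (2 - 1 / (w : ℝ)) ^ K := by
    rw [← hgen, mul_sum]
    calc (N : ℝ) = ∑ ε' ∈ (Finset.univ.filter (fun ε' : Fin K → Fin w =>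
          (Finset.univ.filter (fun c => ε c ≠ ε' c)).card < 2 * k)), (1 : ℝ) := by
          rw [sum_const, nsmul_eq_mul, mul_one]
      _ ≤ ∑ ε' ∈ (Finset.univ.filter (fun ε' : Fin K → Fin w =>
          (Finset.univ.filter (fun c => ε c ≠ ε' c)).card < 2 * k)),
          (w : ℝ) ^ (2 * k) * ∏ c, (if ε c ≠ ε' c then (1 / (w : ℝ)) else 1) := by
          refine sum_le_sum fun ε' h => ?_
          rw [mem_filter] at h
          rw [hprod ε', one_div, inv_pow, ← div_eq_mul_inv, one_le_div (by positivity)]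
          exact pow_le_pow_right₀ hw1 h.2.le
      _ ≤ _ := by
          refine sum_le_sum_of_subset_of_nonneg (filter_subset _ _) fun ε' _ _ => ?_
          rw [hprod ε']
          positivity
  have h8 : (2 - 1 / (w : ℝ)) ^ 8 ≤ (w : ℝ) ^ 5 := by
    rcases (by omega : w = 2 ∨ w = 3 ∨ 4 ≤ w) with h | h | h
    · rw [h]; norm_num
    · rw [h]; norm_num
    · have h4 : (4 : ℝ) ≤ w := by exact_mod_cast h
      have h5 : (2 - 1 / (w : ℝ)) ≤ 2 := by
        have : 0 ≤ 1 / (w : ℝ) := by positivity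
        linarith
      have h6 : (0 : ℝ) ≤ 2 - 1 / (w : ℝ) := by
        have : 1 / (w : ℝ) ≤ 1 := by
          rw [div_le_one hw0]; exact hw1
        linarith
      calc (2 - 1 / (w : ℝ)) ^ 8 ≤ 2 ^ 8 := pow_le_pow_left₀ h6 h5 8
        _ ≤ 4 ^ 5 := by norm_num
        _ ≤ (w : ℝ) ^ 5 := pow_le_pow_left₀ (by norm_num) h4 5
  have hb0 : (0 : ℝ) ≤ 2 - 1 / (w : ℝ) := by
    have : 1 / (w : ℝ) ≤ 1 := by
      rw [div_le_one hw0]; exact hw1
    linarith
  have hN8 : ((N : ℝ) ^ 4) ^ 2 ≤ ((w : ℝ) ^ (3 * K)) ^ 2 := by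
    calc ((N : ℝ) ^ 4) ^ 2 = (N : ℝ) ^ 8 := by ring
      _ ≤ ((w : ℝ) ^ (2 * k) * (2 - 1 / (w : ℝ)) ^ K) ^ 8 :=
          pow_le_pow_left₀ (by positivity) hle 8
      _ = (w : ℝ) ^ (16 * k) * ((2 - 1 / (w : ℝ)) ^ 8) ^ K := by
          rw [mul_pow, ← pow_mul, ← pow_mul, ← pow_mul]
          congr 2 <;> ring
      _ ≤ (w : ℝ) ^ K * ((w : ℝ) ^ 5) ^ K := by
          gcongr
      _ = ((w : ℝ) ^ (3 * K)) ^ 2 := by
          rw [← pow_mul, ← pow_mul, ← pow_add]
          congr 1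
          ring
  have hfin : (N : ℝ) ^ 4 ≤ (w : ℝ) ^ (3 * K) := le_of_pow_le_pow_left₀ (by norm_num) (by positivity) hN8
  exact_mod_cast hfin

end Pool.Agent.H256R2.EF
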