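import Pool.Agent.H256R2.EF.STEPAUX

set_option autoImplicit false

/-! CONBASE (helper332) -/

namespace Pool.Agent.H256R2.EF

open Finset STEPAUX

/-- CONBASE. -/
theorem con_base : ∃ Y0 : ℕ, ∀ Y ≥ Y0, ∀ ℓ e n bud h : ℕ, 4 * Y ≤ 2 ^ ℓ →
    32 * ℓ ≤ Kn n → 10240 * ℓ + 1 ≤ Y → (80 * Kn n) ^ 20 ≤ Y → Lev Y e n bud h →
    Con Y e (2 ^ (e + ℓ * (bud + 80 * Kn n))) n (bud + 80 * Kn n)
      (h + 40 * (10240 * ℓ + 1)) := by
  obtain ⟨Y0, hY0⟩ := core
  refine ⟨max Y0 1, fun Y hY ℓ e n bud h hℓ hB hlY hKY hLev V U hV hVc hVU => ?_⟩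
  have hY1 : 1 ≤ Y := le_trans (le_max_right _ _) hY
  have hY2 : Y0 ≤ Y := le_trans (le_max_left _ _) hY
  have hℓ0 : 0 < ℓ := by
    rcases Nat.eq_zero_or_pos ℓ with rfl | h0
    · simp at hℓ; omega
    · exact h0
  have hKn := Kn_pos n
  set K := Kn n with hK
  obtain ⟨γ, hγ⟩ : ∃ γ, γ = K / (32 * ℓ) := ⟨_, rfl⟩
  obtain ⟨g1, g2, g3⟩ := gam hℓ0 hB hγ
  have hlen : V.card / γ ≤ 10240 * ℓ := by
    have h1 : V.card / γ * γ ≤ V.card := Nat.div_mul_le_self _ _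
    by_contra hc
    push Not at hc
    have h2 : (10240 * ℓ) * γ ≤ V.card / γ * γ := Nat.mul_le_mul_right _ hc.le
    have h3 : 160 * K < 160 * (64 * ℓ * γ) := by omega
    nlinarith
  obtain ⟨S, hS1, hS2, hS3, hS4⟩ := hY0 Y hY2 K 2 (by omega) le_rfl
    (by rw [show 40 * K * 2 = 80 * K by ring]; exact hKY) (U ∪ V) V hV subset_union_right
    (le_trans (Nat.pow_le_pow_left (by
      have := card_union_le U V
      omega) 2) hVU) γ g1 (pow_bound hℓ g2 le_rfl) (by omega)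
  have hS3' : S.card = 80 * K := by rw [hS3]; ring
  obtain ⟨W0, hW1, hW2, hW3, hX2⟩ := hLev (U ∪ V ∪ S)
    (le_trans (Nat.pow_le_pow_left (by
      have := card_union_le U V
      have := card_union_le (U ∪ V) S
      omega) 2) hVU)
  have hSW : Disjoint S W0 := (hW2.mono_right subset_union_right).symm
  have hSpos := prod_pos hS1
  have hWpos := prod_pos hW1
  have hprod : ∏ q ∈ S ∪ W0, q = (∏ q ∈ S, q) * ∏ q ∈ W0, q := prod_union hSW
  have hcard : (S ∪ W0).card ≤ bud + 80 * K := by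
    have := card_union_le S W0
    omega
  have hSW1 : S ∪ W0 ⊆ PP Y := union_subset hS1 hW1
  refine ⟨S ∪ W0, hSW1, ?_, hcard, 40 * (4 * Y) ^ K, ?_, ?_⟩
  · rw [disjoint_union_left]
    exact ⟨hS2, hW2.mono_right subset_union_left⟩
  · calc 2 ^ e * (∏ q ∈ S ∪ W0, q) ≤ 2 ^ e * (4 * Y) ^ (S ∪ W0).card :=
          Nat.mul_le_mul_left _ (prod_le hSW1)
      _ ≤ 2 ^ e * (4 * Y) ^ (bud + 80 * K) :=
          Nat.mul_le_mul_left _ (Nat.pow_le_pow_right (by omega) hcard)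
      _ ≤ 2 ^ e * (2 ^ ℓ) ^ (bud + 80 * K) :=
          Nat.mul_le_mul_left _ (Nat.pow_le_pow_left hℓ _)
      _ = 2 ^ (e + ℓ * (bud + 80 * K)) * 1 := by rw [← pow_mul, ← pow_add, mul_one]
      _ ≤ _ := Nat.mul_le_mul_left _ (by
          have : 0 < (4 * Y) ^ K := by positivity
          omega)
  · have key := hS4 ((∏ q ∈ S, q) * (2 ^ e * ∏ q ∈ W0, q)) (40 * (4 * Y) ^ K) h
      (by positivity) (Dvd.intro _ rfl) le_rfl
      (Rep_mono (by positivity) (Dvd.intro_left _ rfl) le_rfl le_rfl hX2)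
    rw [hprod]
    refine Rep_mono ?_ (dvd_of_eq ?_) (le_of_eq ?_) ?_ key
    · have := prod_pos hV
      positivity
    · ring
    · ring
    · omega

end Pool.Agent.H256R2.EF
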