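import Pool.Agent.H256R2.EF.STEPAUX

set_option autoImplicit false

/-! CONSTEP (helper332) -/

namespace Pool.Agent.H256R2.EF

open Finset STEPAUX

/-- CONSTEP. -/
theorem con_step : ∃ Y0 : ℕ, ∀ Y ≥ Y0, ∀ ℓ e loss n bud h : ℕ, 4 * Y ≤ 2 ^ ℓ →
    32 * ℓ ≤ Kn (n + 1) → 10240 * ℓ + 1 ≤ Y → (80 * Kn (n + 1)) ^ 20 ≤ Y →
    Con Y e loss n bud h →
    Con Y e loss (n + 1) (bud + 80 * Kn (n + 1)) (h + 40 * (10240 * ℓ + 1)) := by
  obtain ⟨Y0, hY0⟩ := core
  refine ⟨max Y0 1, fun Y hY ℓ e loss n bud h hℓ hB hlY hKY hCon V U hV hVc hVU => ?_⟩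
  have hY1 : 1 ≤ Y := le_trans (le_max_right _ _) hY
  have hY2 : Y0 ≤ Y := le_trans (le_max_left _ _) hY
  have hℓ0 : 0 < ℓ := by
    rcases Nat.eq_zero_or_pos ℓ with rfl | h0
    · simp at hℓ; omega
    · exact h0
  have hKn := Kn_pos (n + 1)
  set K := Kn (n + 1) with hK
  obtain ⟨γ, hγ⟩ : ∃ γ, γ = K / (32 * ℓ) := ⟨_, rfl⟩
  obtain ⟨g1, g2, g3⟩ := gam hℓ0 hB hγ
  have hlen : V.card / γ ≤ 10240 * ℓ := by
    have h1 : V.card / γ * γ ≤ V.card := Nat.div_mul_le_self _ _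
    by_contra hc
    push Not at hc
    have h2 : (10240 * ℓ) * γ ≤ V.card / γ * γ := Nat.mul_le_mul_right _ hc.le
    have h3 : 160 * K < 160 * (64 * ℓ * γ) := by omega
    nlinarith
  obtain ⟨S, hS1, hS2, hS3, hS4⟩ := hY0 Y hY2 K 2 (by omega) le_rfl
    (by rw [show 40 * K * 2 = 80 * K by ring]; exact hKY) (U ∪ V) V hV subset_union_right
    (le_trans (Nat.pow_le_pow_left (by
      have := card_union_le U V
      omega) 2) hVU) γ g1 (pow_bound hℓ g2 le_rfl) (by omega)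
  have hS3' : S.card = 80 * K := by rw [hS3]; ring
  have hKs : K = 2 * Kn n := Kn_succ n
  obtain ⟨W0, hW1, hW2, hW3, X0, hX1, hX2⟩ := hCon S (U ∪ V) hS1 (by omega)
    (le_trans (Nat.pow_le_pow_left (by
      have := card_union_le U V
      omega) 2) hVU)
  have hSW : Disjoint S W0 := (hW2.mono_right subset_union_right).symm
  have hSpos := prod_pos hS1
  have hWpos := prod_pos hW1
  have hprod : ∏ q ∈ S ∪ W0, q = (∏ q ∈ S, q) * ∏ q ∈ W0, q := prod_union hSW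
  have hX0 : 1 ≤ X0 := by
    rcases Nat.eq_zero_or_pos X0 with rfl | h0
    · have : 0 < 2 ^ e * ∏ q ∈ W0, q := by positivity
      omega
    · exact h0
  refine ⟨S ∪ W0, union_subset hS1 hW1, ?_, ?_, (∏ q ∈ S, q) * X0, ?_, ?_⟩
  · rw [disjoint_union_left]
    exact ⟨hS2, hW2.mono_right subset_union_left⟩
  · have := card_union_le S W0
    omega
  · rw [hprod]
    calc 2 ^ e * ((∏ q ∈ S, q) * ∏ q ∈ W0, q) = (∏ q ∈ S, q) * (2 ^ e * ∏ q ∈ W0, q) := by ring
      _ ≤ (∏ q ∈ S, q) * (loss * X0) := Nat.mul_le_mul_left _ hX1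
      _ = _ := by ring
  · have key := hS4 ((∏ q ∈ S, q) * (2 ^ e * ∏ q ∈ W0, q)) ((∏ q ∈ S, q) * X0) h
      (by positivity) (Dvd.intro _ rfl) (by
        have h1 := prod_ge hS1
        rw [hS3'] at h1
        have h2 : 40 * (4 * Y) ^ K ≤ Y ^ (80 * K) := by
          have hY40 : 160 ≤ Y := by omega
          calc 40 * (4 * Y) ^ K ≤ 40 ^ K * (4 * Y) ^ K :=
                Nat.mul_le_mul_right _ (Nat.le_self_pow (by omega) 40)
            _ = (160 * Y) ^ K := by rw [← mul_pow]; ring_nf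
            _ ≤ (Y ^ 80) ^ K := by
                apply Nat.pow_le_pow_left
                calc 160 * Y ≤ Y * Y := Nat.mul_le_mul_right _ hY40
                  _ = Y ^ 2 := by ring
                  _ ≤ Y ^ 80 := Nat.pow_le_pow_right hY1 (by norm_num)
            _ = _ := by rw [← pow_mul]
        calc 40 * (4 * Y) ^ K ≤ Y ^ (80 * K) := h2
          _ ≤ ∏ q ∈ S, q := h1
          _ = (∏ q ∈ S, q) * 1 := by ring
          _ ≤ _ := Nat.mul_le_mul_left _ hX0) hX2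
    rw [hprod]
    refine Rep_mono ?_ (dvd_of_eq ?_) (le_of_eq ?_) ?_ key
    · have := prod_pos hV
      positivity
    · ring
    · ring
    · omega

end Pool.Agent.H256R2.EF
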