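import Mathlib

/-!
Egyptian fractions with few terms (MP_016627_nt) and practical numbers (MP_72190f_nt).
Definitions shared by all tasks.
-/

set_option autoImplicit false

namespace Pool.Agent.H256R2.EF

open Finset

/-- `Rep N X h`: every `m ≤ X` is the sum of at most `h` distinct divisors of `N`. -/
def Rep (N X h : ℕ) : Prop :=
  ∀ m ≤ X, ∃ D : Finset ℕ, D ⊆ N.divisors ∧ ∑ d ∈ D, d = m ∧ D.card ≤ h

/-- The primes in `(Y, 4Y]`. -/
def PP (Y : ℕ) : Finset ℕ := (Finset.Ioc Y (4 * Y)).filter Nat.Prime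

/-- One element of a family: one prime `p c (ε c)` from each block `c`. -/
def fam {K w : ℕ} (p : Fin K → Fin w → ℕ) (ε : Fin K → Fin w) : ℕ := ∏ c, p c (ε c)

/-- Normalised exponential sum of a family modulo `M`. -/
noncomputable def F {K w : ℕ} (M : ℕ) [NeZero M] (p : Fin K → Fin w → ℕ) (a : ZMod M) : ℂ :=
  (∑ ε : Fin K → Fin w, ZMod.stdAddChar (a * (fam p ε : ZMod M))) / (w : ℂ) ^ K

/-- The saving: `beta r ^ 20 = 2^24 / r^6`. -/
noncomputable def beta (r : ℕ) : ℝ := ((2 : ℝ) ^ 24 / (r : ℝ) ^ 6) ^ ((1 : ℝ) / 20)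

/-- A pool system: disjoint sets of exactly `B` primes of `(Y, 4Y]`, one for each slot `(c, s)`. -/
structure Pools (Y B : ℕ) {K w : ℕ} (Q : Fin K → Fin w → Finset ℕ) : Prop where
  sub : ∀ c s, Q c s ⊆ PP Y
  card : ∀ c s, (Q c s).card = B
  disj : ∀ c s c' s', (c, s) ≠ (c', s') → Disjoint (Q c s) (Q c' s')

/-- All choices of one prime from each pool. -/
def Om {K w : ℕ} (Q : Fin K → Fin w → Finset ℕ) : Finset (Fin K → Fin w → ℕ) :=
  Fintype.piFinset fun c => Fintype.piFinset (Q c)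

/-- Number of blocks at level `n`. -/
def Kn (n : ℕ) : ℕ := 4096 * 2 ^ n

/-- Consumption statement at level `n`. -/
def Con (Y e loss n bud h : ℕ) : Prop :=
  ∀ V U : Finset ℕ, V ⊆ PP Y → V.card ≤ 160 * Kn n → (V.card + U.card + bud) ^ 2 ≤ Y →
    ∃ W : Finset ℕ, W ⊆ PP Y ∧ Disjoint W (U ∪ V) ∧ W.card ≤ bud ∧
      ∃ X : ℕ, 2 ^ e * ∏ q ∈ W, q ≤ loss * X ∧
        Rep ((∏ q ∈ V, q) * (2 ^ e * ∏ q ∈ W, q)) ((∏ q ∈ V, q) * X) h

/-- Level statement (nothing is consumed below). -/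
def Lev (Y e n bud h : ℕ) : Prop :=
  ∀ U : Finset ℕ, (U.card + bud) ^ 2 ≤ Y →
    ∃ W : Finset ℕ, W ⊆ PP Y ∧ Disjoint W U ∧ W.card ≤ bud ∧
      Rep (2 ^ e * ∏ q ∈ W, q) (40 * (4 * Y) ^ (Kn n)) h

end Pool.Agent.H256R2.EF
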