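import Pool.Agent.H256R2.EF.Defs

set_option autoImplicit false

namespace Pool.Agent.H256R2.EF

open Finset

theorem theta_diff (Y : ℕ) : Chebyshev.theta ((4 * Y : ℕ) : ℝ)
    = Chebyshev.theta (Y : ℝ) + ∑ p ∈ PP Y, Real.log p := by
  unfold Chebyshev.theta PP
  rw [Nat.floor_natCast, Nat.floor_natCast]
  have h1 : Finset.Ioc 0 (4 * Y) = Finset.Ioc 0 Y ∪ Finset.Ioc Y (4 * Y) := by
    rw [Finset.Ioc_union_Ioc_eq_Ioc (by omega) (by omega)]
  rw [h1, Finset.filter_union, Finset.sum_union]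
  apply Finset.disjoint_filter_filter
  rw [Finset.disjoint_left]
  intro a ha hb
  simp only [Finset.mem_Ioc] at ha hb
  omega

theorem log_small (n : ℝ) (hn : 50 ^ 4 ≤ n) :
    Real.log (n + 1) + 2 * Real.sqrt n * Real.log n ≤ n / 4 * Real.log 2 := by
  have hn0 : 0 < n := lt_of_lt_of_le (by norm_num) hn
  set t := Real.sqrt (Real.sqrt n) with ht
  have ht0 : 0 < t := Real.sqrt_pos.mpr (Real.sqrt_pos.mpr hn0)
  have ht2 : t ^ 2 = Real.sqrt n := Real.sq_sqrt (Real.sqrt_nonneg n)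
  have ht4 : t ^ 4 = n := by
    have : t ^ 4 = (t ^ 2) ^ 2 := by ring
    rw [this, ht2, Real.sq_sqrt hn0.le]
  have ht50 : 50 ≤ t := by
    by_contra h
    push Not at h
    have : t ^ 4 < 50 ^ 4 := by gcongr
    rw [ht4] at this
    linarith
  have hlt : Real.log t ≤ t := by
    have := Real.log_le_sub_one_of_pos ht0
    linarith
  have hlogn : Real.log n = 4 * Real.log t := by
    rw [← ht4, Real.log_pow]
    norm_num
  have hlog1 : Real.log (n + 1) ≤ 1 + 4 * t := by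
    have h1 : n + 1 ≤ 2 * n := by linarith
    have h2 : Real.log (n + 1) ≤ Real.log (2 * n) := Real.log_le_log (by linarith) h1
    rw [Real.log_mul (by norm_num) hn0.ne'] at h2
    have h3 : Real.log 2 ≤ 1 := by
      have := Real.log_two_lt_d9
      linarith
    linarith
  have hlog2 : 0.69 ≤ Real.log 2 := by
    have := Real.log_two_gt_d9
    linarith
  have hlogn0 : 0 ≤ Real.log t := Real.log_nonneg (by linarith)
  rw [← ht2, hlogn]
  calc Real.log (n + 1) + 2 * t ^ 2 * (4 * Real.log t)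
      ≤ (1 + 4 * t) + 2 * t ^ 2 * (4 * t) := by gcongr
    _ ≤ t ^ 4 / 4 * 0.69 := by nlinarith [pow_pos ht0 3, pow_pos ht0 2]
    _ ≤ t ^ 4 / 4 * Real.log 2 := by gcongr
    _ = n / 4 * Real.log 2 := by rw [ht4]

/-- PRM. -/
theorem primes_count : ∃ Y0 : ℕ, ∀ Y ≥ Y0, Y ≤ (PP Y).card * (Nat.log 2 (4 * Y) + 1) := by
  refine ⟨50 ^ 4, fun Y hY => ?_⟩
  have hY0 : 0 < Y := lt_of_lt_of_le (by norm_num) hY
  have hYR : (50 : ℝ) ^ 4 ≤ Y := by exact_mod_cast hY
  have hYpos : (0 : ℝ) < Y := by exact_mod_cast hY0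
  have h1 := Chebyshev.theta_ge (4 * Y)
  have h2 := Chebyshev.theta_le_log4_mul_x (x := (Y : ℝ)) hYpos.le
  have h3 := theta_diff Y
  have hlog4 : Real.log 4 = 2 * Real.log 2 := by
    have : (4 : ℝ) = 2 ^ 2 := by norm_num
    rw [this, Real.log_pow]
    norm_num
  have h4 := log_small ((4 * Y : ℕ) : ℝ) (by push_cast; linarith)
  have hlog2 : 0 < Real.log 2 := Real.log_pos (by norm_num)
  have h5 : (Y : ℝ) * Real.log 2 ≤ ∑ p ∈ PP Y, Real.log p := by
    push_cast at *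
    nlinarith
  have h6 : ∑ p ∈ PP Y, Real.log p
      ≤ ((PP Y).card : ℝ) * (((Nat.log 2 (4 * Y) : ℕ) : ℝ) + 1) * Real.log 2 := by
    have h7 : Real.log ((4 * Y : ℕ) : ℝ) ≤ (((Nat.log 2 (4 * Y) : ℕ) : ℝ) + 1) * Real.log 2 := by
      have h8 : 4 * Y < 2 ^ (Nat.log 2 (4 * Y) + 1) := Nat.lt_pow_succ_log_self (by norm_num) _
      have h9 : ((4 * Y : ℕ) : ℝ) ≤ (2 : ℝ) ^ (Nat.log 2 (4 * Y) + 1) := by
        exact_mod_cast h8.le
      have h10 := Real.log_le_log (by positivity) h9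
      rw [Real.log_pow] at h10
      push_cast at h10 ⊢
      exact h10
    calc ∑ p ∈ PP Y, Real.log p
        ≤ ∑ _p ∈ PP Y, (((Nat.log 2 (4 * Y) : ℕ) : ℝ) + 1) * Real.log 2 := by
          refine Finset.sum_le_sum (fun p hp => ?_)
          have hp1 : p ≤ 4 * Y := (Finset.mem_Ioc.mp (Finset.mem_filter.mp hp).1).2
          have hp0 : 0 < p := (Finset.mem_filter.mp hp).2.pos
          refine le_trans (Real.log_le_log (by exact_mod_cast hp0) ?_) h7
          exact_mod_cast hp1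
      _ = _ := by
          rw [Finset.sum_const, nsmul_eq_mul]
          ring
  have h11 : (Y : ℝ) ≤ ((PP Y).card : ℝ) * (((Nat.log 2 (4 * Y) : ℕ) : ℝ) + 1) := by
    have := h5.trans h6
    exact le_of_mul_le_mul_right this hlog2
  exact_mod_cast h11

end Pool.Agent.H256R2.EF
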