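import Pool.Agent.H256R2.EF.Defs
import Pool.Agent.H256R2.EF.CH
import Pool.Agent.H256R2.EF.PRM

/-!
Task FAM (helper690): existence of a good set of primes.
-/

set_option autoImplicit false

namespace Pool.Agent.H256R2.EF

open Finset

namespace FAM

theorem asym0 : ∃ n0 : ℕ, ∀ n ≥ n0, 2 ^ 78 * (n + 1) ^ 20 ≤ 2 ^ n := by
  have h := isLittleO_pow_const_const_pow_of_one_lt (R := ℝ) 20 (r := (2:ℝ)) (by norm_num)
  have h2 := h.def (c := 1 / 2 ^ 80) (by positivity)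
  obtain ⟨n1, hn1⟩ := Filter.eventually_atTop.mp h2
  refine ⟨n1, fun n hn => ?_⟩
  have h3 := hn1 (n + 1) (by omega)
  rw [Real.norm_of_nonneg (by positivity), Real.norm_of_nonneg (by positivity)] at h3
  have h4 : (2:ℝ) ^ 78 * ((n:ℝ) + 1) ^ 20 ≤ 2 ^ n := by
    have h5 : (2:ℝ) ^ (n + 1) = 2 * 2 ^ n := by ring
    rw [h5] at h3
    push_cast at h3
    have h6 : (2:ℝ) ^ 78 * ((n:ℝ) + 1) ^ 20 ≤ 2 ^ 78 * (1 / 2 ^ 80 * (2 * 2 ^ n)) :=
      mul_le_mul_of_nonneg_left h3 (by positivity)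
    have h7 : (2:ℝ) ^ 78 * (1 / 2 ^ 80 * (2 * 2 ^ n)) = 2 ^ n / 2 := by
      norm_num
      ring
    rw [h7] at h6
    have h8 : (0:ℝ) < 2 ^ n := by positivity
    linarith
  exact_mod_cast h4

theorem asym : ∃ Y0 : ℕ, ∀ Y ≥ Y0, 1 ≤ Y ∧ 2 ^ 23 ≤ Y ∧
    4 ^ 18 * (4 * (Nat.log 2 (4 * Y) + 1)) ^ 20 ≤ Y := by
  obtain ⟨n0, hn0⟩ := asym0
  refine ⟨2 ^ (n0 + 23), fun Y hY => ?_⟩
  have h1 : 2 ^ 23 ≤ Y := le_trans (Nat.pow_le_pow_right (by norm_num) (by omega)) hY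
  have hY1 : 1 ≤ Y := le_trans (by norm_num) h1
  refine ⟨hY1, h1, ?_⟩
  set n := Nat.log 2 (4 * Y) with hn
  have h2 : 2 ^ n ≤ 4 * Y := Nat.pow_log_le_self 2 (by omega)
  have h3 : n0 ≤ n := by
    apply Nat.le_log_of_pow_le (by norm_num)
    refine le_trans (Nat.pow_le_pow_right (by norm_num) (by omega : n0 ≤ n0 + 23)) ?_
    omega
  have h4 := hn0 n h3
  have h5 : 4 * (4 ^ 18 * (4 * (n + 1)) ^ 20) = 2 ^ 78 * (n + 1) ^ 20 := by
    rw [mul_pow]
    ring
  omega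

end FAM

open FAM in
/-- FAM: existence of a good set of primes (uses CH and PRM). -/
theorem fam_exists : ∃ Y0 : ℕ, ∀ Y ≥ Y0, ∀ K w : ℕ, 32 ≤ K → 2 ≤ w → (40 * K * w) ^ 20 ≤ Y →
    ∀ U Ms : Finset ℕ, U.card ^ 2 ≤ Y → Ms.card ≤ Y →
    (∀ M ∈ Ms, 1 < M ∧ M ^ 32 ≤ w ^ K ∧
      ∀ p : ℕ, p.Prime → p ∣ M → Y < p ∧ (p ≤ 4 * Y → p ∈ U)) →
    ∃ V : Finset ℕ, V ⊆ PP Y ∧ Disjoint V U ∧ V.card = 40 * K * w ∧
      ∀ M ∈ Ms, ∀ m : ℕ, ∃ D : Finset ℕ, D ⊆ (∏ q ∈ V, q).divisors ∧ D.card = 40 ∧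
        (∑ d ∈ D, d) ≡ m [MOD M] ∧ ∑ d ∈ D, d ≤ 40 * (4 * Y) ^ K ∧
        ∀ d ∈ D, Nat.Coprime d M := by
  classical
  obtain ⟨Y1, hY1⟩ := primes_count
  obtain ⟨Y2, hY2⟩ := asym
  refine ⟨max Y1 Y2, fun Y hY K w hK hw hKw U Ms hU hMs hM => ?_⟩
  have hcnt := hY1 Y (le_trans (le_max_left _ _) hY)
  obtain ⟨hYpos, hY23, hbig⟩ := hY2 Y (le_trans (le_max_right _ _) hY)
  set L := Nat.log 2 (4 * Y) + 1 with hL
  set N := 40 * K * w with hN
  have hN0 : 0 < N := by positivity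
  have hL0 : 1 ≤ L := by omega
  set avail := PP Y \ U with havail
  set a := avail.card with ha
  have h4L : (4 * L) ^ 20 ≤ Y := by
    refine le_trans ?_ hbig
    exact Nat.le_mul_of_pos_left _ (by positivity)
  -- 2 L |U| ≤ Y
  have hU2 : 2 * L * U.card ≤ Y := by
    have h1 : (2 * L) ^ 2 ≤ Y := by
      refine le_trans ?_ h4L
      calc (2 * L) ^ 2 ≤ (4 * L) ^ 2 := Nat.pow_le_pow_left (by omega) 2
        _ ≤ (4 * L) ^ 20 := Nat.pow_le_pow_right (by omega) (by norm_num)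
    have h2 : (2 * L * U.card) ^ 2 ≤ Y ^ 2 := by
      calc (2 * L * U.card) ^ 2 = (2 * L) ^ 2 * U.card ^ 2 := by ring
        _ ≤ Y * Y := Nat.mul_le_mul h1 hU
        _ = Y ^ 2 := by ring
    exact (Nat.pow_le_pow_iff_left (by norm_num)).mp h2
  have hacard : (PP Y).card ≤ a + U.card := by
    rw [ha, havail]
    exact Finset.card_le_card_sdiff_add_card
  have ha2 : Y ≤ 2 * L * a := by
    have h1 : (PP Y).card * L ≤ (a + U.card) * L := Nat.mul_le_mul_right _ hacard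
    nlinarith
  have hNY : 2 * L * N ≤ Y := by
    have h1 : (2 * L * N) ^ 20 ≤ Y ^ 20 := by
      calc (2 * L * N) ^ 20 = (2 * L) ^ 20 * N ^ 20 := by ring
        _ ≤ Y * Y := Nat.mul_le_mul (le_trans (Nat.pow_le_pow_left (by omega) 20) h4L) hKw
        _ = Y ^ 2 := by ring
        _ ≤ Y ^ 20 := Nat.pow_le_pow_right hYpos (by norm_num)
    exact (Nat.pow_le_pow_iff_left (by norm_num)).mp h1
  have hNa : N ≤ a := by
    have h1 : 2 * L * N ≤ 2 * L * a := le_trans hNY ha2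
    exact Nat.le_of_mul_le_mul_left h1 (by positivity)
  set B := a / N with hB
  have hB0 : 0 < B := Nat.div_pos hNa hN0
  have hNB : N * B ≤ a := Nat.mul_div_le a N
  have haNB : a ≤ 2 * (N * B) := by
    have h1 : a < N * B + N := by
      rw [hB]
      have h2 := Nat.div_add_mod a N
      have h3 := Nat.mod_lt a hN0
      omega
    have h2 : N ≤ N * B := Nat.le_mul_of_pos_right _ hB0
    omega
  have hBpow : (4 * Y) ^ 9 ≤ B ^ 10 := by
    have h1 : Y ≤ 4 * L * N * B := by nlinarith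
    have h2 : Y ^ 20 ≤ (4 * L) ^ 20 * Y * B ^ 20 := by
      calc Y ^ 20 ≤ (4 * L * N * B) ^ 20 := Nat.pow_le_pow_left h1 20
        _ = (4 * L) ^ 20 * N ^ 20 * B ^ 20 := by ring
        _ ≤ (4 * L) ^ 20 * Y * B ^ 20 :=
          Nat.mul_le_mul_right _ (Nat.mul_le_mul_left _ hKw)
    have h3 : (4 * L) ^ 20 * Y * ((4 * Y) ^ 9) ^ 2 ≤ Y ^ 20 := by
      calc (4 * L) ^ 20 * Y * ((4 * Y) ^ 9) ^ 2 = (4 ^ 18 * (4 * L) ^ 20) * Y ^ 19 := by ring
        _ ≤ Y * Y ^ 19 := Nat.mul_le_mul_right _ hbig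
        _ = Y ^ 20 := by ring
    have h4 : (4 * L) ^ 20 * Y * ((4 * Y) ^ 9) ^ 2 ≤ (4 * L) ^ 20 * Y * (B ^ 10) ^ 2 := by
      refine le_trans h3 (le_trans h2 (le_of_eq ?_))
      ring
    have h5 : ((4 * Y) ^ 9) ^ 2 ≤ (B ^ 10) ^ 2 :=
      Nat.le_of_mul_le_mul_left h4 (by positivity)
    exact (Nat.pow_le_pow_iff_left (by norm_num)).mp h5
  -- the pools
  have hcard : Fintype.card ((Fin 40 × Fin K × Fin w) × Fin B) ≤ Fintype.card {x // x ∈ avail} := by
    rw [Fintype.card_coe]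
    simp only [Fintype.card_prod, Fintype.card_fin]
    calc 40 * (K * w) * B = N * B := by rw [hN]; ring
      _ ≤ a := hNB
  obtain ⟨f⟩ := Function.Embedding.nonempty_of_card_le hcard
  let g : (Fin 40 × Fin K × Fin w) × Fin B → ℕ := fun t => (f t).1
  have hg : Function.Injective g := fun s t h => f.injective (Subtype.ext h)
  have hgav : ∀ t, g t ∈ avail := fun t => (f t).2
  have hav1 : ∀ x ∈ avail, x ∈ PP Y ∧ x ∉ U := fun x hx => Finset.mem_sdiff.mp hx
  have hPP : ∀ x ∈ PP Y, (Y < x ∧ x ≤ 4 * Y) ∧ x.Prime := by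
    intro x hx
    have := Finset.mem_filter.mp hx
    exact ⟨Finset.mem_Ioc.mp this.1, this.2⟩
  let Q : Fin 40 → Fin K → Fin w → Finset ℕ := fun i c s =>
    Finset.univ.image fun j : Fin B => g ((i, c, s), j)
  have hQav : ∀ i c s, ∀ q ∈ Q i c s, q ∈ avail := by
    intro i c s q hq
    obtain ⟨j, _, rfl⟩ := Finset.mem_image.mp hq
    exact hgav _
  have hQdisj : ∀ i c s i' c' s' q, q ∈ Q i c s → q ∈ Q i' c' s' → (i, c, s) = (i', c', s') := by
    intro i c s i' c' s' q hq hq'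
    obtain ⟨j, _, e⟩ := Finset.mem_image.mp hq
    obtain ⟨j', _, e'⟩ := Finset.mem_image.mp hq'
    have := hg (e.trans e'.symm)
    exact (Prod.ext_iff.mp this).1
  have hQpool : ∀ i, Pools Y B (Q i) := by
    intro i
    refine ⟨fun c s q hq => (hav1 q (hQav i c s q hq)).1, fun c s => ?_, ?_⟩
    · rw [Finset.card_image_of_injective, Finset.card_univ, Fintype.card_fin]
      intro j j' h
      have := hg h
      exact (Prod.ext_iff.mp this).2
    · intro c s c' s' hne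
      rw [Finset.disjoint_left]
      intro q hq hq'
      have h1 := hQdisj i c s i c' s' q hq hq'
      apply hne
      exact (Prod.ext_iff.mp h1).2
  have hcop : ∀ M ∈ Ms, ∀ i c s, ∀ q ∈ Q i c s, Nat.Coprime q M := by
    intro M hMM i c s q hq
    have h1 := hav1 q (hQav i c s q hq)
    have h2 := hPP q h1.1
    rw [Nat.Prime.coprime_iff_not_dvd h2.2]
    intro hd
    exact h1.2 (((hM M hMM).2.2 q h2.2 hd).2 h2.1.2)
  have hwY : w ≤ 4 * Y := by
    have h1 : w ≤ N := by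
      rw [hN]
      exact Nat.le_mul_of_pos_left _ (by positivity)
    have h2 : N ≤ Y := by
      refine le_trans ?_ hNY
      exact Nat.le_mul_of_pos_left _ (by positivity)
    omega
  obtain ⟨p, hpQ, hp⟩ := choice Y B hY23 hK hw hwY hB0 hBpow Q hQpool Ms hMs
    (fun M hMM => ⟨(hM M hMM).1, (hM M hMM).2.1, fun q hq hd => ((hM M hMM).2.2 q hq hd).1,
      hcop M hMM⟩)
  let P : Fin 40 × Fin K × Fin w → ℕ := fun t => p t.1 t.2.1 t.2.2
  have hPinj : Function.Injective P := by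
    rintro ⟨i, c, s⟩ ⟨i', c', s'⟩ h
    have h1 := hpQ i c s
    have h2 := hpQ i' c' s'
    have h3 : p i c s = p i' c' s' := h
    rw [← h3] at h2
    exact hQdisj i c s i' c' s' _ h1 h2
  have hPav : ∀ t, P t ∈ avail := fun t => hQav _ _ _ _ (hpQ t.1 t.2.1 t.2.2)
  have hPprime : ∀ t, (P t).Prime := fun t => (hPP _ (hav1 _ (hPav t)).1).2
  have hPle : ∀ t, P t ≤ 4 * Y := fun t => (hPP _ (hav1 _ (hPav t)).1).1.2
  refine ⟨Finset.univ.image P, ?_, ?_, ?_, ?_⟩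
  · intro q hq
    obtain ⟨t, _, rfl⟩ := Finset.mem_image.mp hq
    exact (hav1 _ (hPav t)).1
  · rw [Finset.disjoint_left]
    intro q hq
    obtain ⟨t, _, rfl⟩ := Finset.mem_image.mp hq
    exact (hav1 _ (hPav t)).2
  · rw [Finset.card_image_of_injective _ hPinj, Finset.card_univ]
    simp only [Fintype.card_prod, Fintype.card_fin]
    rw [hN]
    ring
  · intro M hMM m
    obtain ⟨ε, hε⟩ := hp M hMM m
    let Fm : Fin 40 → ℕ := fun i => fam (p i) (ε i)
    have hfam : ∀ i, Fm i = ∏ c, P (i, c, ε i c) := fun i => rfl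
    have hK0 : 0 < K := by omega
    have hFinj : Function.Injective Fm := by
      intro i i' h
      have h1 : P (i, ⟨0, hK0⟩, ε i ⟨0, hK0⟩) ∣ Fm i' := by
        rw [← h, hfam]
        exact Finset.dvd_prod_of_mem (fun c => P (i, c, ε i c)) (Finset.mem_univ _)
      rw [hfam] at h1
      obtain ⟨c, _, hc⟩ := (Prime.dvd_finsetProd_iff (hPprime _).prime _).mp h1
      have h2 := (Nat.prime_dvd_prime_iff_eq (hPprime _) (hPprime _)).mp hc
      have h3 := hPinj h2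
      exact (Prod.ext_iff.mp h3).1
    have hsum : ∑ d ∈ Finset.univ.image Fm, d = ∑ i, Fm i :=
      Finset.sum_image fun i _ i' _ h => hFinj h
    have hFle : ∀ i, Fm i ≤ (4 * Y) ^ K := by
      intro i
      rw [hfam]
      calc ∏ c, P (i, c, ε i c) ≤ ∏ _c : Fin K, (4 * Y) :=
            Finset.prod_le_prod' fun c _ => hPle _
        _ = (4 * Y) ^ K := by simp
    refine ⟨Finset.univ.image Fm, ?_, ?_, ?_, ?_, ?_⟩
    · intro d hd
      obtain ⟨i, _, rfl⟩ := Finset.mem_image.mp hd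
      rw [Nat.mem_divisors]
      constructor
      · have h1 : Fm i = ∏ q ∈ Finset.univ.image (fun c => P (i, c, ε i c)), q := by
          rw [hfam, Finset.prod_image]
          intro c _ c' _ h
          have h2 := hPinj h
          exact (Prod.ext_iff.mp (Prod.ext_iff.mp h2).2).1
        rw [h1]
        apply Finset.prod_dvd_prod_of_subset
        intro q hq
        obtain ⟨c, _, rfl⟩ := Finset.mem_image.mp hq
        exact Finset.mem_image_of_mem _ (Finset.mem_univ _)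
      · rw [Finset.prod_ne_zero_iff]
        intro q hq
        obtain ⟨t, _, rfl⟩ := Finset.mem_image.mp hq
        exact (hPprime t).ne_zero
    · rw [Finset.card_image_of_injective _ hFinj, Finset.card_univ, Fintype.card_fin]
    · rw [hsum]
      exact hε
    · rw [hsum]
      calc ∑ i, Fm i ≤ ∑ _i : Fin 40, (4 * Y) ^ K := Finset.sum_le_sum fun i _ => hFle i
        _ = 40 * (4 * Y) ^ K := by simp
    · intro d hd
      obtain ⟨i, _, rfl⟩ := Finset.mem_image.mp hd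
      rw [hfam]
      apply Nat.Coprime.prod_left
      intro c _
      exact hcop M hMM i c (ε i c) _ (hpQ i c (ε i c))

end Pool.Agent.H256R2.EF
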