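import Pool.Agent.H256R2.EF.Defs

/-! Task GREEDY (helper488). -/

set_option autoImplicit false

namespace Pool.Agent.H256R2.EF

open Finset

/-- conclusion for one number -/
def GreedyC (b c : ℕ) (x : ℚ) : Prop :=
  ∃ S : Finset ℕ, (∀ n ∈ S, 2 ≤ n ∧ n ≤ b ∧ 1 / x ≤ n) ∧ S.card ≤ c ∧
      0 ≤ x - ∑ n ∈ S, (1 : ℚ) / n ∧ x - ∑ n ∈ S, (1 : ℚ) / n ≤ 1 / b ∧
      ∀ n ∈ S, x - ∑ n ∈ S, (1 : ℚ) / n < 1 / n

theorem greedy_step (b c : ℕ) (hb : 2 ≤ b) (x : ℚ) (hx0 : 0 < x) (hx1 : x < 1)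
    (hrec : ∀ x' : ℚ, 0 < x' → x' ≤ 1 / (1 / x * (1 / x + 1)) → GreedyC b c x') :
    GreedyC b (c + 1) x := by
  classical
  by_cases hxb : x ≤ 1 / b
  · exact ⟨∅, by simp, by simp, by simpa using hx0.le, by simpa using hxb, by simp⟩
  push Not at hxb
  have hb0 : (0 : ℚ) < b := by exact_mod_cast (by omega : 0 < b)
  set y : ℚ := 1 / x with hy
  have hy1 : 1 < y := by rw [hy, lt_div_iff₀ hx0]; linarith
  have hyb : y < b := by
    rw [hy, div_lt_iff₀ hx0]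
    rw [div_lt_iff₀ hb0] at hxb
    linarith
  have hxy : x = 1 / y := by rw [hy]; field_simp
  set n : ℕ := ⌈y⌉₊ with hn
  have hn1 : y ≤ n := Nat.le_ceil y
  have hn2 : (n : ℚ) < y + 1 := Nat.ceil_lt_add_one (by linarith)
  have hnb : n ≤ b := Nat.ceil_le.2 hyb.le
  have hn3 : 2 ≤ n := by
    have : (1 : ℚ) < n := by linarith
    have : 1 < n := by exact_mod_cast this
    omega
  have hn0 : (0 : ℚ) < n := by linarith
  set x' : ℚ := x - 1 / n with hx'
  have hx'0 : 0 ≤ x' := by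
    rw [hx', hxy, sub_nonneg]
    exact one_div_le_one_div_of_le (by linarith) hn1
  have hx'1 : x' ≤ 1 / (y * (y + 1)) := by
    have h1 : 1 / (y + 1) ≤ 1 / (n : ℚ) := one_div_le_one_div_of_le hn0 hn2.le
    have h2 : 1 / y - 1 / (y + 1) = 1 / (y * (y + 1)) := by
      have : y ≠ 0 := by linarith
      have : y + 1 ≠ 0 := by linarith
      field_simp
      ring
    rw [hx', hxy]
    linarith
  have hx'2 : x' < 1 / n := by
    have h1 : 1 / (y * (y + 1)) ≤ 1 / (y + 1) :=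
      one_div_le_one_div_of_le (by linarith) (by nlinarith)
    have h2 : 1 / (y + 1) < 1 / (n : ℚ) := one_div_lt_one_div_of_lt hn0 hn2
    linarith
  have hbn : (0 : ℚ) < 1 / b := by positivity
  rcases hx'0.eq_or_lt with h0 | h0
  · refine ⟨{n}, ?_, by simp, ?_, ?_, ?_⟩
    · intro k hk
      rw [mem_singleton] at hk
      subst hk
      exact ⟨hn3, hnb, hn1⟩
    · rw [sum_singleton]; exact h0.le
    · rw [sum_singleton, ← hx', ← h0]; exact hbn.le
    · intro k hk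
      rw [mem_singleton] at hk
      subst hk
      rw [sum_singleton]
      exact hx'2
  · obtain ⟨S, hS1, hS2, hS3, hS4, hS5⟩ := hrec x' h0 hx'1
    have hlt : ∀ k ∈ S, n < k := by
      intro k hk
      have h1 := (hS1 k hk).2.2
      have h2 : y * (y + 1) ≤ 1 / x' := by
        rw [le_div_iff₀ h0]
        rw [le_div_iff₀ (by nlinarith)] at hx'1
        linarith
      have h3 : (n : ℚ) < k := by nlinarith
      exact_mod_cast h3
    have hnS : n ∉ S := fun h => lt_irrefl _ (hlt n h)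
    have hsum : x - ∑ k ∈ insert n S, (1 : ℚ) / k = x' - ∑ k ∈ S, (1 : ℚ) / k := by
      rw [sum_insert hnS, hx']
      ring
    have hsum0 : 0 ≤ ∑ k ∈ S, (1 : ℚ) / k := sum_nonneg fun k _ => by positivity
    refine ⟨insert n S, ?_, ?_, ?_, ?_, ?_⟩
    · intro k hk
      rw [mem_insert] at hk
      rcases hk with rfl | hk
      · exact ⟨hn3, hnb, hn1⟩
      · refine ⟨(hS1 k hk).1, (hS1 k hk).2.1, ?_⟩
        have : (n : ℚ) < k := by exact_mod_cast hlt k hk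
        linarith
    · rw [card_insert_of_notMem hnS]
      omega
    · rw [hsum]; exact hS3
    · rw [hsum]; exact hS4
    · intro k hk
      rw [hsum]
      rw [mem_insert] at hk
      rcases hk with rfl | hk
      · linarith
      · exact hS5 k hk

theorem greedy_rec (b I : ℕ) (hb : 2 ≤ b) (hI : b ≤ 2 ^ 2 ^ I) : ∀ d j : ℕ, j + d = I →
    ∀ x : ℚ, 0 < x → x ≤ 1 / 2 ^ 2 ^ j → GreedyC b d x := by
  have hb0 : (0 : ℚ) < b := by exact_mod_cast (by omega : 0 < b)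
  intro d
  induction d with
  | zero =>
    intro j hj x hx0 hx1
    rw [add_zero] at hj
    subst hj
    refine ⟨∅, by simp, by simp, by simpa using hx0.le, ?_, by simp⟩
    rw [sum_empty, sub_zero]
    refine hx1.trans ?_
    apply one_div_le_one_div_of_le hb0
    exact_mod_cast hI
  | succ d ih =>
    intro j hj x hx0 hx1
    have h2 : (2 : ℚ) ≤ 2 ^ 2 ^ j := by
      calc (2 : ℚ) = 2 ^ 1 := by norm_num
        _ ≤ 2 ^ 2 ^ j := pow_le_pow_right₀ (by norm_num) (Nat.one_le_two_pow)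
    have hxl : x < 1 := by
      have : 1 / (2 : ℚ) ^ 2 ^ j ≤ 1 / 2 := one_div_le_one_div_of_le (by norm_num) h2
      linarith
    apply greedy_step b d hb x hx0 hxl
    intro x' hx'0 hx'1
    apply ih (j + 1) (by omega) x' hx'0
    refine hx'1.trans ?_
    have hy : (2 : ℚ) ^ 2 ^ j ≤ 1 / x := by
      rw [le_div_iff₀ hx0]
      rw [le_div_iff₀ (by positivity)] at hx1
      linarith
    apply one_div_le_one_div_of_le (by positivity)
    calc (2 : ℚ) ^ 2 ^ (j + 1) = 2 ^ 2 ^ j * 2 ^ 2 ^ j := by rw [← pow_add, pow_succ, mul_two]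
      _ ≤ 1 / x * (1 / x + 1) := by
        have h0 : (0 : ℚ) ≤ 2 ^ 2 ^ j := by positivity
        nlinarith

/-- GREEDY. -/
theorem greedy (b I : ℕ) (hb : 2 ≤ b) (hI : b ≤ 2 ^ 2 ^ I) (x : ℚ) (hx0 : 0 < x) (hx1 : x < 1) :
    ∃ S : Finset ℕ, (∀ n ∈ S, 2 ≤ n ∧ n ≤ b) ∧ S.card ≤ I + 1 ∧
      0 ≤ x - ∑ n ∈ S, (1 : ℚ) / n ∧ x - ∑ n ∈ S, (1 : ℚ) / n ≤ 1 / b ∧
      ∀ n ∈ S, x - ∑ n ∈ S, (1 : ℚ) / n < 1 / n := by
  obtain ⟨S, h1, h2, h3, h4, h5⟩ := greedy_step b I hb x hx0 hx1 (by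
    intro x' hx'0 hx'1
    apply greedy_rec b I hb hI I 0 (by omega) x' hx'0
    refine hx'1.trans ?_
    have hy : (1 : ℚ) < 1 / x := by rw [lt_div_iff₀ hx0]; linarith
    have h2 : (2 : ℚ) ^ 2 ^ 0 = 2 := by norm_num
    rw [h2]
    apply one_div_le_one_div_of_le (by norm_num)
    nlinarith)
  exact ⟨S, fun n hn => ⟨(h1 n hn).1, (h1 n hn).2.1⟩, h2, h3, h4, h5⟩

end Pool.Agent.H256R2.EF
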