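import Pool.Agent.H256R2.EF.Defs

set_option autoImplicit false

namespace Pool.Agent.H256R2.EF

open Finset

namespace GRP

lemma prod_facts (A : Finset ℕ) (Z γ : ℕ) (hA : ∀ p ∈ A, p.Prime ∧ p ≤ Z) (hne : A.Nonempty)
    (hc : A.card ≤ γ) :
    1 < ∏ p ∈ A, p ∧ ∏ p ∈ A, p ≤ Z ^ γ ∧ ∀ p : ℕ, p.Prime → p ∣ ∏ p ∈ A, p → p ∈ A := by
  obtain ⟨q, hq⟩ := hne
  have hZ : 1 ≤ Z := (hA q hq).1.one_lt.le.trans (hA q hq).2
  refine ⟨?_, ?_, ?_⟩
  · refine lt_of_lt_of_le (hA q hq).1.one_lt ?_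
    apply Nat.le_of_dvd
    · exact Finset.prod_pos fun p hp => (hA p hp).1.pos
    · exact Finset.dvd_prod_of_mem _ hq
  · calc ∏ p ∈ A, p ≤ ∏ _p ∈ A, Z := Finset.prod_le_prod' fun p hp => (hA p hp).2
      _ = Z ^ A.card := by rw [prod_const]
      _ ≤ Z ^ γ := Nat.pow_le_pow_right hZ hc
  · intro p hp hdvd
    obtain ⟨r, hr, hpr⟩ := (hp.prime.dvd_finsetProd_iff _).mp hdvd
    have : p = r := (Nat.prime_dvd_prime_iff_eq hp (hA r hr).1).mp hpr
    rw [this]; exact hr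

end GRP

/-- GRP. -/
theorem group_primes (V : Finset ℕ) (Z γ : ℕ) (hV : ∀ p ∈ V, p.Prime ∧ p ≤ Z) (hγ : 1 ≤ γ) :
    ∃ Ps : List ℕ, Ps.prod = ∏ p ∈ V, p ∧ Ps.length ≤ V.card / γ + 1 ∧
      ∀ P ∈ Ps, 1 < P ∧ P ≤ Z ^ γ ∧ ∀ p : ℕ, p.Prime → p ∣ P → p ∈ V := by
  classical
  induction' hn : V.card using Nat.strong_induction_on with n ih generalizing V
  rcases V.eq_empty_or_nonempty with h0 | hne
  · refine ⟨[], ?_, ?_, ?_⟩
    · rw [h0]; simp
    · simp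
    · simp
  by_cases hle : V.card ≤ γ
  · obtain ⟨h1, h2, h3⟩ := GRP.prod_facts V Z γ hV hne hle
    refine ⟨[∏ p ∈ V, p], ?_, ?_, ?_⟩
    · simp
    · simp
    · intro P hP
      rw [List.mem_singleton] at hP
      rw [hP]
      exact ⟨h1, h2, h3⟩
  · push Not at hle
    obtain ⟨A, hAV, hAc⟩ := Finset.exists_subset_card_eq hle.le
    have hAne : A.Nonempty := by
      rw [← Finset.card_pos, hAc]; omega
    obtain ⟨h1, h2, h3⟩ := GRP.prod_facts A Z γ (fun p hp => hV p (hAV hp)) hAne hAc.le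
    have hc : (V \ A).card = V.card - γ := by
      rw [Finset.card_sdiff_of_subset hAV, hAc]
    obtain ⟨Ps, g1, g2, g3⟩ := ih (V \ A).card (by omega) (V \ A)
      (fun p hp => hV p (Finset.sdiff_subset hp)) rfl
    refine ⟨(∏ p ∈ A, p) :: Ps, ?_, ?_, ?_⟩
    · rw [List.prod_cons, g1, mul_comm, Finset.prod_sdiff hAV]
    · rw [List.length_cons, ← hn]
      rw [hc] at g2
      have h5 : V.card / γ = (V.card - γ) / γ + 1 := Nat.div_eq_sub_div (by omega) hle.le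
      omega
    · intro P hP
      rw [List.mem_cons] at hP
      rcases hP with rfl | hP
      · exact ⟨h1, h2, fun p hp hd => hAV (h3 p hp hd)⟩
      · obtain ⟨a1, a2, a3⟩ := g3 P hP
        exact ⟨a1, a2, fun p hp hd => Finset.sdiff_subset (a3 p hp hd)⟩

end Pool.Agent.H256R2.EF
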