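import Pool.Agent.H256R2.EF.Defs

/-! Task TWO: binary expansions. -/

set_option autoImplicit false

namespace Pool.Agent.H256R2.EF

open Finset

theorem TWO_bin (e : ℕ) : ∀ m < 2 ^ e, ∃ S ⊆ Finset.range e, ∑ i ∈ S, 2 ^ i = m := by
  induction e with
  | zero =>
      intro m hm
      exact ⟨∅, by simp, by simp at hm ⊢; omega⟩
  | succ e ih =>
      intro m hm
      by_cases h : m < 2 ^ e
      · obtain ⟨S, h1, h2⟩ := ih m h
        exact ⟨S, h1.trans (Finset.range_subset_range.2 (Nat.le_succ e)), h2⟩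
      · have h3 : 2 ^ (e + 1) = 2 * 2 ^ e := by rw [pow_succ]; ring
        obtain ⟨S, h1, h2⟩ := ih (m - 2 ^ e) (by omega)
        have h4 : e ∉ S := fun h => by
          have := Finset.mem_range.1 (h1 h)
          omega
        refine ⟨insert e S, ?_, ?_⟩
        · intro i hi
          rcases Finset.mem_insert.1 hi with rfl | hi
          · exact Finset.self_mem_range_succ _
          · have := Finset.mem_range.1 (h1 hi)
            exact Finset.mem_range.2 (by omega)
        · rw [Finset.sum_insert h4, h2]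
          omega

theorem TWO_inj (c : ℕ) (hc : 0 < c) (S : Set ℕ) : Set.InjOn (fun i => c * 2 ^ i) S := by
  intro i _ j _ h
  exact Nat.pow_right_injective le_rfl (Nat.eq_of_mul_eq_mul_left hc h)

/-- TWO. -/
theorem rep_two (e : ℕ) : Rep (2 ^ e) (2 ^ (e + 1) - 1) (e + 1) := by
  intro m hm
  have h2 : 0 < 2 ^ (e + 1) := by positivity
  obtain ⟨S, hS, hsum⟩ := TWO_bin (e + 1) m (by omega)
  refine ⟨S.image (fun i => 1 * 2 ^ i), ?_, ?_, ?_⟩
  · intro d hd
    obtain ⟨i, hi, rfl⟩ := Finset.mem_image.1 hd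
    have := Finset.mem_range.1 (hS hi)
    rw [one_mul, Nat.mem_divisors]
    exact ⟨pow_dvd_pow 2 (by omega), by positivity⟩
  · rw [Finset.sum_image (TWO_inj 1 one_pos _)]
    simpa using hsum
  · exact Finset.card_image_le.trans (by simpa using Finset.card_le_card hS)

/-- TWO'. -/
theorem rep_base (V e : ℕ) (hV : Odd V) (hVe : V ≤ 2 ^ e) :
    Rep (V * 2 ^ e) (V * 2 ^ e) (2 * e + 2) := by
  intro m hm
  have hVpos : 0 < V := hV.pos
  have h2e : 0 < 2 ^ e := by positivity
  have h3 : 2 ^ (e + 1) = 2 * 2 ^ e := by rw [pow_succ]; ring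
  by_cases hV1 : V = 1
  · subst hV1
    rw [one_mul] at hm ⊢
    obtain ⟨D, h1, h2, h4⟩ := rep_two e m (by omega)
    exact ⟨D, h1, h2, by omega⟩
  · have hc : m % V < 2 ^ (e + 1) := by
      have := Nat.mod_lt m hVpos
      omega
    have hm' : m / V < 2 ^ (e + 1) := by
      have : m / V ≤ 2 ^ e := Nat.div_le_of_le_mul hm
      omega
    obtain ⟨S, hS, hsum⟩ := TWO_bin (e + 1) (m % V) hc
    obtain ⟨S', hS', hsum'⟩ := TWO_bin (e + 1) (m / V) hm'
    have hdisj : Disjoint (S.image (fun i => 1 * 2 ^ i)) (S'.image (fun i => V * 2 ^ i)) := by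
      rw [Finset.disjoint_left]
      intro d hd hd'
      obtain ⟨i, hi, rfl⟩ := Finset.mem_image.1 hd
      obtain ⟨j, hj, hij⟩ := Finset.mem_image.1 hd'
      simp only [one_mul] at hij
      have h5 : V ∣ 2 ^ i := ⟨2 ^ j, hij.symm⟩
      have h6 : Nat.Coprime V (2 ^ i) := Nat.Coprime.pow_right i (Nat.coprime_two_right.2 hV)
      exact hV1 (Nat.eq_one_of_dvd_coprimes h6 dvd_rfl h5)
    refine ⟨S.image (fun i => 1 * 2 ^ i) ∪ S'.image (fun i => V * 2 ^ i), ?_, ?_, ?_⟩
    · intro d hd
      rw [Nat.mem_divisors]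
      refine ⟨?_, by positivity⟩
      rcases Finset.mem_union.1 hd with hd | hd
      · obtain ⟨i, hi, rfl⟩ := Finset.mem_image.1 hd
        have := Finset.mem_range.1 (hS hi)
        rw [one_mul]
        exact (pow_dvd_pow 2 (by omega)).mul_left V
      · obtain ⟨i, hi, rfl⟩ := Finset.mem_image.1 hd
        have := Finset.mem_range.1 (hS' hi)
        exact mul_dvd_mul_left V (pow_dvd_pow 2 (by omega))
    · rw [Finset.sum_union hdisj, Finset.sum_image (TWO_inj 1 one_pos _),
        Finset.sum_image (TWO_inj V hVpos _), ← Finset.mul_sum, ← Finset.mul_sum, hsum, hsum',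
        one_mul]
      exact Nat.mod_add_div m V
    · have h1 : (S.image (fun i => 1 * 2 ^ i)).card ≤ e + 1 :=
        Finset.card_image_le.trans (by simpa using Finset.card_le_card hS)
      have h2 : (S'.image (fun i => V * 2 ^ i)).card ≤ e + 1 :=
        Finset.card_image_le.trans (by simpa using Finset.card_le_card hS')
      have h3 := Finset.card_union_le (S.image (fun i => 1 * 2 ^ i))
        (S'.image (fun i => V * 2 ^ i))
      omega

end Pool.Agent.H256R2.EF
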