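import Pool.Agent.H256R2.EF.Defs
import Pool.Agent.H256R2.EF.TWO

/-!
Task LEVBASE (helper690).
-/

set_option autoImplicit false

namespace Pool.Agent.H256R2.EF

open Finset

theorem LEVBASE.rep_mono {N X X' h : ℕ} (hR : Rep N X h) (hX : X' ≤ X) : Rep N X' h :=
  fun m hm => hR m (hm.trans hX)

/-- LEVBASE. -/
theorem lev_base (Y e : ℕ) (he : 40 * (4 * Y) ^ 4096 < 2 ^ (e + 1)) : Lev Y e 0 0 (e + 1) := by
  intro U _
  refine ⟨∅, Finset.empty_subset _, Finset.disjoint_empty_left _, by simp, ?_⟩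
  have hK : Kn 0 = 4096 := rfl
  rw [Finset.prod_empty, mul_one, hK]
  exact LEVBASE.rep_mono (rep_two e) (Nat.le_sub_one_of_lt he)

/-- CONBASE2 (for practical numbers). -/
theorem con_base_two (Y ℓ e n : ℕ) (hY : 4 ≤ Y) (hℓ : 4 * Y ≤ 2 ^ ℓ) (he : 160 * Kn n * ℓ ≤ e) :
    Con Y e 1 n 0 (2 * e + 2) := by
  intro V U hV hVc _
  have hmem : ∀ q ∈ V, (Y < q ∧ q ≤ 4 * Y) ∧ q.Prime := by
    intro q hq
    have := Finset.mem_filter.mp (hV hq)
    exact ⟨Finset.mem_Ioc.mp this.1, this.2⟩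
  have hodd : Odd (∏ q ∈ V, q) := by
    apply Finset.prod_induction _ (fun x => Odd x)
    · intro a b ha hb
      exact ha.mul hb
    · exact odd_one
    · intro q hq
      have h := hmem q hq
      exact h.2.odd_of_ne_two (by omega)
  have hle : ∏ q ∈ V, q ≤ 2 ^ e := by
    calc ∏ q ∈ V, q ≤ (4 * Y) ^ V.card :=
          Finset.prod_le_pow_card _ _ _ fun q hq => (hmem q hq).1.2
      _ ≤ (2 ^ ℓ) ^ V.card := Nat.pow_le_pow_left hℓ _
      _ ≤ (2 ^ ℓ) ^ (160 * Kn n) := Nat.pow_le_pow_right (by positivity) hVc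
      _ = 2 ^ (160 * Kn n * ℓ) := by rw [← pow_mul, mul_comm ℓ]
      _ ≤ 2 ^ e := Nat.pow_le_pow_right (by norm_num) he
  refine ⟨∅, Finset.empty_subset _, Finset.disjoint_empty_left _, by simp, 2 ^ e, ?_, ?_⟩
  · simp
  · rw [Finset.prod_empty, mul_one]
    exact rep_base _ e hodd hle

end Pool.Agent.H256R2.EF
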