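import Pool.Agent.H256R2.EF.STEPAUX

set_option autoImplicit false

/-! LEVSTEP (helper332) -/

namespace Pool.Agent.H256R2.EF

open Finset STEPAUX

/-- LEVSTEP. -/
theorem lev_step : ∃ Y0 : ℕ, ∀ Y ≥ Y0, ∀ ℓ e L n bud h : ℕ, 4 * Y ≤ 2 ^ ℓ → n < L →
    ℓ ≤ 128 * (L + 1) → (80 * Kn L) ^ 20 ≤ Y → Lev Y e n bud h →
    Lev Y e (n + 1) (bud + 160 * Kn L) (h + 40 * (128 * ℓ / (L - n + 1) + 1)) := by
  obtain ⟨Y0, hY0⟩ := core
  obtain ⟨Y1, hY1⟩ := many
  refine ⟨max (max Y0 Y1) 4, fun Y hY ℓ e L n bud h hℓ hnL hℓL hKY hLev U hU => ?_⟩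
  have hYa : Y0 ≤ Y := le_trans (le_trans (le_max_left _ _) (le_max_left _ _)) hY
  have hYb : Y1 ≤ Y := le_trans (le_trans (le_max_right _ _) (le_max_left _ _)) hY
  have hYc : 4 ≤ Y := le_trans (le_max_right _ _) hY
  have hℓ0 : 0 < ℓ := by
    rcases Nat.eq_zero_or_pos ℓ with rfl | h0
    · simp at hℓ; omega
    · exact h0
  obtain ⟨d, hd⟩ : ∃ d, L = n + d := ⟨L - n, by omega⟩
  have hd1 : 1 ≤ d := by omega
  have hLn : L - n + 1 = d + 1 := by omega
  rw [hLn]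
  have hKn := Kn_pos n
  have hKL : Kn L = 2 ^ d * Kn n := by
    unfold Kn
    rw [hd, pow_add]; ring
  have hK1 : Kn (n + 1) = 2 * Kn n := Kn_succ n
  set K := Kn n with hK
  have hKL2 : 2 * K ≤ Kn L := by
    rw [hKL]
    apply Nat.mul_le_mul_right
    calc 2 = 2 ^ 1 := by norm_num
      _ ≤ 2 ^ d := Nat.pow_le_pow_right (by norm_num) hd1
  -- the size of the groups
  have hB : 32 * ℓ ≤ (d + 1) * K := by
    have h1 : 32 * ℓ ≤ 4096 * (L + 1) := by omega
    have h2 : L + 1 ≤ (n + 1) * (d + 1) := by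
      rw [hd]; nlinarith
    have h3 : n + 1 ≤ 2 ^ n := Nat.lt_two_pow_self
    calc 32 * ℓ ≤ 4096 * (L + 1) := h1
      _ ≤ 4096 * ((n + 1) * (d + 1)) := Nat.mul_le_mul_left _ h2
      _ ≤ 4096 * (2 ^ n * (d + 1)) := by gcongr
      _ = (d + 1) * K := by rw [hK, Kn]; ring
  obtain ⟨γ, hγ⟩ : ∃ γ, γ = ((d + 1) * K) / (32 * ℓ) := ⟨_, rfl⟩
  obtain ⟨g1, g2, g3⟩ := gam hℓ0 hB hγ
  -- the primes which multiply the range
  have hcP : 2 * K + U.card ≤ (PP Y).card := by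
    apply hY1 Y hYb
    refine le_trans (Nat.pow_le_pow_left ?_ 2) hU
    omega
  obtain ⟨G, hG1, hG2⟩ : ∃ G ⊆ PP Y \ U, G.card = 2 * K := by
    apply Finset.exists_subset_card_eq
    have := le_card_sdiff U (PP Y)
    omega
  have hGP : G ⊆ PP Y := hG1.trans sdiff_subset
  have hGU : Disjoint G U := Disjoint.mono_left hG1 sdiff_disjoint
  have hlen : G.card / γ ≤ 128 * ℓ / (d + 1) := by
    rw [Nat.le_div_iff_mul_le (by omega)]
    have h1 : G.card / γ * γ ≤ 2 * K := by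
      rw [← hG2]; exact Nat.div_mul_le_self _ _
    have h2 : G.card / γ * (d + 1) * K ≤ 128 * ℓ * K := by
      calc G.card / γ * (d + 1) * K = G.card / γ * ((d + 1) * K) := by ring
        _ ≤ G.card / γ * (64 * ℓ * γ) := Nat.mul_le_mul_left _ g3.le
        _ = 64 * ℓ * (G.card / γ * γ) := by ring
        _ ≤ 64 * ℓ * (2 * K) := Nat.mul_le_mul_left _ h1
        _ = _ := by ring
    exact Nat.le_of_mul_le_mul_right h2 (by omega)
  have hw2 : 2 ≤ 2 ^ (d + 1) := by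
    calc 2 = 2 ^ 1 := by norm_num
      _ ≤ 2 ^ (d + 1) := Nat.pow_le_pow_right (by norm_num) (by omega)
  have h80 : 40 * K * 2 ^ (d + 1) = 80 * Kn L := by
    rw [hKL, pow_succ]; ring
  have hlenY : G.card / γ + 1 ≤ Y := by
    have h1 : G.card / γ ≤ 2 * K := by
      rw [← hG2]; exact Nat.div_le_self _ _
    have h2 : 80 * Kn L ≤ (80 * Kn L) ^ 20 := Nat.le_self_pow (by norm_num) _
    omega
  obtain ⟨S, hS1, hS2, hS3, hS4⟩ := hY0 Y hYa K (2 ^ (d + 1)) (by omega) hw2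
    (by rw [h80]; exact hKY) (U ∪ G) G hGP subset_union_right
    (le_trans (Nat.pow_le_pow_left (by
      have := card_union_le U G
      omega) 2) hU) γ g1 (pow_bound hℓ g2 (by rw [← pow_mul])) hlenY
  rw [h80] at hS3
  obtain ⟨W0, hW1, hW2, hW3, hX2⟩ := hLev (U ∪ G ∪ S)
    (le_trans (Nat.pow_le_pow_left (by
      have := card_union_le U G
      have := card_union_le (U ∪ G) S
      omega) 2) hU)
  have hSW : Disjoint S W0 := (hW2.mono_right subset_union_right).symm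
  have hSWG : Disjoint (S ∪ W0) G := by
    rw [disjoint_union_left]
    exact ⟨hS2.mono_right subset_union_right,
      hW2.mono_right (subset_union_right.trans subset_union_left)⟩
  have hSpos := prod_pos hS1
  have hWpos := prod_pos hW1
  have hGpos := prod_pos hGP
  have hprod : ∏ q ∈ S ∪ W0 ∪ G, q = (∏ q ∈ S, q) * (∏ q ∈ W0, q) * ∏ q ∈ G, q := by
    rw [prod_union hSWG, prod_union hSW]
  refine ⟨S ∪ W0 ∪ G, union_subset (union_subset hS1 hW1) hGP, ?_, ?_, ?_⟩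
  · rw [disjoint_union_left, disjoint_union_left]
    exact ⟨⟨hS2.mono_right subset_union_left,
      hW2.mono_right (subset_union_left.trans subset_union_left)⟩, hGU⟩
  · have h1 := card_union_le (S ∪ W0) G
    have h2 := card_union_le S W0
    omega
  · have key := hS4 ((∏ q ∈ S, q) * (2 ^ e * ∏ q ∈ W0, q)) (40 * (4 * Y) ^ K) h
      (by positivity) (Dvd.intro _ rfl) le_rfl
      (Rep_mono (by positivity) (Dvd.intro_left _ rfl) le_rfl le_rfl hX2)
    rw [hprod]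
    refine Rep_mono ?_ (dvd_of_eq ?_) ?_ ?_ key
    · positivity
    · ring
    · rw [hK1]
      have h1 := prod_ge hGP
      rw [hG2] at h1
      calc 40 * (4 * Y) ^ (2 * K) = 40 * (4 * Y) ^ K * (4 * Y) ^ K := by ring
        _ ≤ 40 * (4 * Y) ^ K * (Y * Y) ^ K := by gcongr
        _ = 40 * (4 * Y) ^ K * Y ^ (2 * K) := by rw [← pow_two, ← pow_mul]
        _ ≤ _ := Nat.mul_le_mul_left _ h1
    · omega

end Pool.Agent.H256R2.EF
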