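import Pool.Agent.H256R2.EF.STEPAUX

/-!
Task TOP (helper256; written in parallel with helper488).
-/

set_option autoImplicit false

namespace Pool.Agent.H256R2.EF

open Finset

/-- TOP. -/
theorem top : ∃ Y0 : ℕ, ∀ Y ≥ Y0, ∀ e loss n bud h : ℕ, (80 * Kn (n + 1)) ^ 20 ≤ Y →
    (80 * Kn (n + 1) + bud) ^ 2 ≤ Y → Con Y e loss n bud h →
    ∀ v : ℕ, 1 ≤ v → v ^ 32 ≤ 2 ^ (Kn (n + 1)) → (∀ p : ℕ, p.Prime → p ∣ v → 4 * Y < p) →
    ∃ N X : ℕ, 0 < N ∧ (∀ p : ℕ, p.Prime → p ∣ N → p ≤ 4 * Y) ∧ Rep N X h ∧ N ≤ loss * X ∧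
      2 ^ (Kn (n + 1)) ≤ X ∧ 40 * (4 * Y) ^ (Kn (n + 1)) ≤ N ∧
      ∀ m : ℕ, ∃ D : Finset ℕ, D ⊆ N.divisors ∧ D.card ≤ 40 ∧ (v = 1 → D = ∅) ∧
        (∑ d ∈ D, d) ≡ m [MOD v] ∧ ∑ d ∈ D, d ≤ 40 * (4 * Y) ^ (Kn (n + 1)) := by
  classical
  obtain ⟨Y0, hY0⟩ := fam_exists
  refine ⟨max Y0 160, fun Y hY e loss n bud h hKY hbY hCon v hv hv32 hvp => ?_⟩
  have hY1 : 160 ≤ Y := le_trans (le_max_right _ _) hY
  have hY2 : Y0 ≤ Y := le_trans (le_max_left _ _) hY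
  have hKn := STEPAUX.Kn_pos (n + 1)
  have hKs : Kn (n + 1) = 2 * Kn n := STEPAUX.Kn_succ n
  set K := Kn (n + 1) with hK
  obtain ⟨S, hS1, -, hS3, hS4⟩ := hY0 Y hY2 K 2 (by omega) le_rfl
    (by rw [show 40 * K * 2 = 80 * K by ring]; exact hKY) ∅ (if v = 1 then ∅ else {v})
    (by simp) (by split_ifs <;> simp <;> omega) (by
      intro M hM
      split_ifs at hM with hv1
      · simp at hM
      · rw [Finset.mem_singleton] at hM
        subst hM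
        refine ⟨by omega, hv32, fun p hp hpM => ?_⟩
        have := hvp p hp hpM
        exact ⟨by omega, fun h => by omega⟩)
  have hS3' : S.card = 80 * K := by rw [hS3]; ring
  obtain ⟨W, hW1, -, hW3, X0, hX1, hX2⟩ := hCon S ∅ hS1 (by omega)
    (by rw [hS3', card_empty, add_zero]; exact hbY)
  have hSpos := STEPAUX.prod_pos hS1
  have hWpos := STEPAUX.prod_pos hW1
  have hX0 : 1 ≤ X0 := by
    rcases Nat.eq_zero_or_pos X0 with rfl | h0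
    · have : 0 < 2 ^ e * ∏ q ∈ W, q := by positivity
      omega
    · exact h0
  have hSge := STEPAUX.prod_ge hS1
  rw [hS3'] at hSge
  have h40 : 40 * (4 * Y) ^ K ≤ Y ^ (80 * K) := by
    calc 40 * (4 * Y) ^ K ≤ 40 ^ K * (4 * Y) ^ K :=
          Nat.mul_le_mul_right _ (Nat.le_self_pow (by omega) _)
      _ = (160 * Y) ^ K := by rw [← mul_pow]; ring_nf
      _ ≤ (Y * Y) ^ K := Nat.pow_le_pow_left (Nat.mul_le_mul_right _ hY1) K
      _ = Y ^ (2 * K) := by rw [← pow_two, ← pow_mul]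
      _ ≤ Y ^ (80 * K) := Nat.pow_le_pow_right (by omega) (by omega)
  have h2K : 2 ^ K ≤ Y ^ (80 * K) :=
    (Nat.pow_le_pow_left (by omega) K).trans (Nat.pow_le_pow_right (by omega) (by omega))
  have hNpos : 0 < (∏ q ∈ S, q) * (2 ^ e * ∏ q ∈ W, q) := by positivity
  have hSN : (∏ q ∈ S, q) ≤ (∏ q ∈ S, q) * (2 ^ e * ∏ q ∈ W, q) :=
    Nat.le_mul_of_pos_right _ (by positivity)
  refine ⟨(∏ q ∈ S, q) * (2 ^ e * ∏ q ∈ W, q), (∏ q ∈ S, q) * X0, hNpos, ?_, hX2, ?_, ?_, ?_, ?_⟩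
  · intro p hp hpN
    have hmem : ∀ A : Finset ℕ, A ⊆ PP Y → p ∣ ∏ q ∈ A, q → p ≤ 4 * Y := by
      intro A hA hpA
      obtain ⟨q, hq, hpq⟩ := (hp.prime.dvd_finset_prod_iff _).1 hpA
      have := STEPAUX.PP_le (hA hq)
      have h2 := (Nat.prime_dvd_prime_iff_eq hp (STEPAUX.PP_prime (hA hq))).1 hpq
      omega
    rcases hp.dvd_mul.1 hpN with h1 | h1
    · exact hmem S hS1 h1
    · rcases hp.dvd_mul.1 h1 with h2 | h2
      · have := Nat.le_of_dvd (by norm_num) (hp.dvd_of_dvd_pow h2)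
        omega
      · exact hmem W hW1 h2
  · calc (∏ q ∈ S, q) * (2 ^ e * ∏ q ∈ W, q) ≤ (∏ q ∈ S, q) * (loss * X0) :=
          Nat.mul_le_mul_left _ hX1
      _ = _ := by ring
  · exact (h2K.trans hSge).trans (Nat.le_mul_of_pos_right _ hX0)
  · exact (h40.trans hSge).trans hSN
  · intro m
    by_cases hv1 : v = 1
    · exact ⟨∅, by simp, by simp, fun _ => rfl, by rw [hv1]; exact Nat.modEq_one, by simp⟩
    · obtain ⟨D, hD1, hD2, hD3, hD4, -⟩ := hS4 v (by simp [hv1]) m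
      exact ⟨D, hD1.trans (Nat.divisors_subset_of_dvd hNpos.ne' (Dvd.intro _ rfl)), hD2.le,
        fun h => absurd h hv1, hD3, hD4⟩

end Pool.Agent.H256R2.EF
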