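import Pool.Agent.H256R2.EF.ASY4
import Pool.Agent.H256R2.EF.LEVSTEP
import Pool.Agent.H256R2.EF.LEVBASE
import Pool.Agent.H256R2.EF.CONSTEP
import Pool.Agent.H256R2.EF.CONBASE
import Pool.Agent.H256R2.EF.TOP
import Pool.Agent.H256R2.EF.GREEDY

set_option autoImplicit false

namespace Pool.Agent.H256R2.EF

/-- Every fraction `x / y` is a sum of `O(loglog y * logloglog y)` distinct unit fractions. -/
theorem main : ∃ C : ℝ, ∀ x y : ℕ, 0 < x → x < y → 3 ≤ y →
    ∃ S : Finset ℕ, 0 ∉ S ∧ (∑ n ∈ S, (1 : ℚ) / (n : ℚ)) = (x : ℚ) / (y : ℚ) ∧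
      (S.card : ℝ) ≤ C * (Real.log (Real.log y) * Real.log (3 + Real.log (Real.log y))) :=
  main_of_core (asy_core lev_step lev_base con_step con_base top greedy)

end Pool.Agent.H256R2.EF
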