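import Pool.Agent.H256R2.EF.AVG

/-! Task PAIR (helper446): resampling of `2k` blocks. -/

set_option autoImplicit false

namespace Pool.Agent.H256R2.EF

open Finset

namespace PAIR

open Classical in
/-- replace the slots `(c j, ε (c j))` by `x j` -/
noncomputable def up {K w k : ℕ} (ε : Fin K → Fin w) (c : Fin k → Fin K) (x : Fin k → ℕ)
    (p : Fin K → Fin w → ℕ) : Fin K → Fin w → ℕ :=
  fun b s => if h : ∃ j, c j = b ∧ ε b = s then x h.choose else p b s

variable {K w k : ℕ} {ε : Fin K → Fin w} {c : Fin k → Fin K}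

theorem up_at (hc : Function.Injective c) (x : Fin k → ℕ) (p : Fin K → Fin w → ℕ) (j : Fin k) :
    up ε c x p (c j) (ε (c j)) = x j := by
  have h : ∃ j', c j' = c j ∧ ε (c j) = ε (c j) := ⟨j, rfl, rfl⟩
  unfold up
  rw [dif_pos h]
  exact congrArg x (hc h.choose_spec.1)

theorem up_ne (x : Fin k → ℕ) (p : Fin K → Fin w → ℕ) {b : Fin K} {s : Fin w}
    (h : ¬ ∃ j, c j = b ∧ ε b = s) : up ε c x p b s = p b s := by
  unfold up
  rw [dif_neg h]

theorem up_mem {Q : Fin K → Fin w → Finset ℕ} (hc : Function.Injective c) {x : Fin k → ℕ}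
    {p : Fin K → Fin w → ℕ} (hp : p ∈ Om Q)
    (hx : x ∈ Fintype.piFinset (fun j => Q (c j) (ε (c j)))) : up ε c x p ∈ Om Q := by
  unfold Om at hp ⊢
  rw [Fintype.mem_piFinset] at hp hx ⊢
  intro b
  rw [Fintype.mem_piFinset]
  intro s
  have hps := hp b
  rw [Fintype.mem_piFinset] at hps
  by_cases h : ∃ j, c j = b ∧ ε b = s
  · obtain ⟨j, rfl, rfl⟩ := h
    rw [up_at hc]
    exact hx j
  · rw [up_ne x p h]
    exact hps s

theorem up_up (hc : Function.Injective c) (x : Fin k → ℕ) (p : Fin K → Fin w → ℕ) :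
    up ε c (fun j => p (c j) (ε (c j))) (up ε c x p) = p := by
  funext b s
  by_cases h : ∃ j, c j = b ∧ ε b = s
  · obtain ⟨j, rfl, rfl⟩ := h
    rw [up_at hc]
  · rw [up_ne _ _ h, up_ne _ _ h]

/-- the resampling identity -/
theorem resample {Q : Fin K → Fin w → Finset ℕ} {B : ℕ} (hQ : ∀ b s, (Q b s).card = B)
    (hc : Function.Injective c) (G : (Fin K → Fin w → ℕ) → ℂ) :
    ∑ p ∈ Om Q, ∑ x ∈ Fintype.piFinset (fun j => Q (c j) (ε (c j))), G (up ε c x p) =
      (B : ℂ) ^ k * ∑ p ∈ Om Q, G p := by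
  have h1 : (B : ℂ) ^ k * ∑ p ∈ Om Q, G p =
      ∑ p ∈ Om Q, ∑ x ∈ Fintype.piFinset (fun j => Q (c j) (ε (c j))), G p := by
    rw [Finset.mul_sum]
    refine Finset.sum_congr rfl fun p _ => ?_
    rw [Finset.sum_const, Fintype.card_piFinset, Finset.prod_congr rfl fun j _ => hQ _ _]
    simp
  rw [h1, ← Finset.sum_product', ← Finset.sum_product']
  refine Finset.sum_nbij' (fun z => (up ε c z.2 z.1, fun j => z.1 (c j) (ε (c j))))
    (fun z => (up ε c z.2 z.1, fun j => z.1 (c j) (ε (c j)))) ?_ ?_ ?_ ?_ ?_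
  · rintro ⟨p, x⟩ hz
    rw [Finset.mem_product] at hz ⊢
    refine ⟨up_mem hc hz.1 hz.2, ?_⟩
    rw [Fintype.mem_piFinset]
    intro j
    have := hz.1
    unfold Om at this
    rw [Fintype.mem_piFinset] at this
    have h2 := this (c j)
    rw [Fintype.mem_piFinset] at h2
    exact h2 _
  · rintro ⟨p, x⟩ hz
    rw [Finset.mem_product] at hz ⊢
    refine ⟨up_mem hc hz.1 hz.2, ?_⟩
    rw [Fintype.mem_piFinset]
    intro j
    have := hz.1
    unfold Om at this
    rw [Fintype.mem_piFinset] at this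
    have h2 := this (c j)
    rw [Fintype.mem_piFinset] at h2
    exact h2 _
  · rintro ⟨p, x⟩ _
    simp only [Prod.mk.injEq]
    refine ⟨up_up hc x p, ?_⟩
    funext j
    exact up_at hc x p j
  · rintro ⟨p, x⟩ _
    simp only [Prod.mk.injEq]
    refine ⟨up_up hc x p, ?_⟩
    funext j
    exact up_at hc x p j
  · rintro ⟨p, x⟩ _
    rfl

end PAIR

/-- PAIR. -/
theorem pair_bound (Y B k M r : ℕ) {K w : ℕ} [NeZero M] (a : ZMod M) (hr : addOrderOf a = r)
    (hYr : Y < r) (hk : r ≤ (4 * Y) ^ k) (hk' : (4 * Y) ^ k ≤ 4 * Y * r) (hB0 : 0 < B)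
    (hB : (4 * Y) ^ 9 ≤ B ^ 10) (Q : Fin K → Fin w → Finset ℕ) (hQ : Pools Y B Q)
    (hM : ∀ c s, ∀ q ∈ Q c s, Nat.Coprime q M) (ε ε' : Fin K → Fin w)
    (hJ : 2 * k ≤ (Finset.univ.filter (fun c => ε c ≠ ε' c)).card) :
    ‖∑ p ∈ Om Q, (ZMod.stdAddChar (a * ((fam p ε : ZMod M) - (fam p ε' : ZMod M))) : ℂ)‖
      ≤ (B : ℝ) ^ (K * w) * beta r := by
  classical
  -- an injection of `2k` indices
  obtain ⟨T, hTsub, hTcard⟩ := Finset.exists_subset_card_eq hJ
  have e : Fin (2 * k) ≃ T := (Fintype.equivFinOfCardEq (by simp [hTcard])).symm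
  let c1 : Fin k → Fin K := fun j => (e ⟨j, by omega⟩ : Fin K)
  let c2 : Fin k → Fin K := fun j => (e ⟨k + j, by omega⟩ : Fin K)
  have hc1 : Function.Injective c1 := by
    intro i j h
    have h2 := e.injective (Subtype.ext h)
    simp only [Fin.mk.injEq] at h2
    exact Fin.ext h2
  have hc2 : Function.Injective c2 := by
    intro i j h
    have h2 := e.injective (Subtype.ext h)
    simp only [Fin.mk.injEq] at h2
    exact Fin.ext (by omega)
  have hc12 : ∀ i j, c1 i ≠ c2 j := by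
    intro i j h
    have h2 := e.injective (Subtype.ext h)
    simp only [Fin.mk.injEq] at h2
    omega
  have hc1ne : ∀ j, ε (c1 j) ≠ ε' (c1 j) := by
    intro j
    have := hTsub (e ⟨j, by omega⟩).2
    exact (Finset.mem_filter.1 this).2
  have hc2ne : ∀ j, ε (c2 j) ≠ ε' (c2 j) := by
    intro j
    have := hTsub (e ⟨k + j, by omega⟩).2
    exact (Finset.mem_filter.1 this).2
  set G : (Fin K → Fin w → ℕ) → ℂ := fun p =>
    (ZMod.stdAddChar (a * ((fam p ε : ZMod M) - (fam p ε' : ZMod M))) : ℂ) with hG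
  set Q1 : Fin k → Finset ℕ := fun j => Q (c1 j) (ε (c1 j)) with hQ1
  set Q2 : Fin k → Finset ℕ := fun j => Q (c2 j) (ε (c2 j)) with hQ2
  have hres : (B : ℂ) ^ (2 * k) * ∑ p ∈ Om Q, G p = ∑ p ∈ Om Q, ∑ x ∈ Fintype.piFinset Q1,
      ∑ y ∈ Fintype.piFinset Q2, G (PAIR.up ε c2 y (PAIR.up ε c1 x p)) := by
    have h1 := PAIR.resample (Q := Q) (B := B) (ε := ε) hQ.card hc1
      (fun p => ∑ y ∈ Fintype.piFinset Q2, G (PAIR.up ε c2 y p))
    have h2 := PAIR.resample (Q := Q) (B := B) (ε := ε) hQ.card hc2 G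
    rw [h1, h2, two_mul, pow_add, mul_assoc]
  -- the families after resampling
  have hfamε : ∀ (p : Fin K → Fin w → ℕ) (x y : Fin k → ℕ),
      fam (PAIR.up ε c2 y (PAIR.up ε c1 x p)) ε =
        (∏ c ∈ (Finset.univ \ (Finset.univ.image c1 ∪ Finset.univ.image c2)), p c (ε c)) *
          (∏ j, x j) * (∏ j, y j) := by
    intro p x y
    unfold fam
    rw [← Finset.prod_sdiff (Finset.subset_univ (Finset.univ.image c1 ∪ Finset.univ.image c2)),
      mul_assoc]
    congr 1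
    · refine Finset.prod_congr rfl fun c hc => ?_
      rw [Finset.mem_sdiff, Finset.mem_union, not_or] at hc
      rw [PAIR.up_ne, PAIR.up_ne]
      · rintro ⟨j, h1, -⟩
        exact hc.2.1 (Finset.mem_image.2 ⟨j, Finset.mem_univ _, h1⟩)
      · rintro ⟨j, h1, -⟩
        exact hc.2.2 (Finset.mem_image.2 ⟨j, Finset.mem_univ _, h1⟩)
    · rw [Finset.prod_union]
      · congr 1
        · rw [Finset.prod_image (fun i _ j _ h => hc1 h)]
          refine Finset.prod_congr rfl fun j _ => ?_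
          rw [PAIR.up_ne, PAIR.up_at hc1]
          rintro ⟨i, h1, -⟩
          exact hc12 j i h1.symm
        · rw [Finset.prod_image (fun i _ j _ h => hc2 h)]
          refine Finset.prod_congr rfl fun j _ => ?_
          rw [PAIR.up_at hc2]
      · rw [Finset.disjoint_left]
        intro c h1 h2
        obtain ⟨i, -, hi⟩ := Finset.mem_image.1 h1
        obtain ⟨j, -, hj⟩ := Finset.mem_image.1 h2
        exact hc12 i j (hi.trans hj.symm)
  have hfamε' : ∀ (p : Fin K → Fin w → ℕ) (x y : Fin k → ℕ),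
      fam (PAIR.up ε c2 y (PAIR.up ε c1 x p)) ε' = fam p ε' := by
    intro p x y
    unfold fam
    refine Finset.prod_congr rfl fun c _ => ?_
    rw [PAIR.up_ne, PAIR.up_ne]
    · rintro ⟨j, h1, h2⟩
      subst h1
      exact hc1ne j h2
    · rintro ⟨j, h1, h2⟩
      subst h1
      exact hc2ne j h2
  have hbeta : ∀ p ∈ Om Q, ‖∑ x ∈ Fintype.piFinset Q1, ∑ y ∈ Fintype.piFinset Q2,
      G (PAIR.up ε c2 y (PAIR.up ε c1 x p))‖ ≤ (B : ℝ) ^ (2 * k) * beta r := by
    intro p hp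
    set g : ℕ := ∏ c ∈ (Finset.univ \ (Finset.univ.image c1 ∪ Finset.univ.image c2)), p c (ε c)
      with hg
    have hgM : Nat.Coprime g M := by
      rw [hg]
      refine Nat.Coprime.prod_left fun c _ => ?_
      unfold Om at hp
      rw [Fintype.mem_piFinset] at hp
      have h2 := hp c
      rw [Fintype.mem_piFinset] at h2
      exact hM c (ε c) _ (h2 _)
    have h1 : ∑ x ∈ Fintype.piFinset Q1, ∑ y ∈ Fintype.piFinset Q2,
        G (PAIR.up ε c2 y (PAIR.up ε c1 x p)) =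
        (∑ x ∈ Fintype.piFinset Q1, ∑ y ∈ Fintype.piFinset Q2,
          (ZMod.stdAddChar (a * ((g * (∏ c, x c) * (∏ c, y c) : ℕ) : ZMod M)) : ℂ)) *
          (ZMod.stdAddChar (-(a * (fam p ε' : ZMod M))) : ℂ) := by
      rw [Finset.sum_mul]
      refine Finset.sum_congr rfl fun x _ => ?_
      rw [Finset.sum_mul]
      refine Finset.sum_congr rfl fun y _ => ?_
      simp only [hG]
      rw [hfamε, hfamε', mul_sub, sub_eq_add_neg, AddChar.map_add_eq_mul]
    rw [h1, norm_mul, AddChar.norm_apply, mul_one]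
    refine avg_bound Y B k M r a hr hYr hk hk' hB0 hB Q1 Q2 ?_ ?_ ?_ ?_ ?_ ?_ g hgM
    · intro j; exact hQ.sub _ _
    · intro j; exact hQ.sub _ _
    · intro j; exact hQ.card _ _
    · intro j; exact hQ.card _ _
    · intro i j hij
      apply hQ.disj
      intro h
      exact hij (hc1 (Prod.mk.inj h).1)
    · intro i j hij
      apply hQ.disj
      intro h
      exact hij (hc2 (Prod.mk.inj h).1)
  have hOm : ((Om Q).card : ℝ) = (B : ℝ) ^ (K * w) := by
    unfold Om
    rw [Fintype.card_piFinset]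
    have : ∀ c : Fin K, (Fintype.piFinset (Q c)).card = B ^ w := by
      intro c
      rw [Fintype.card_piFinset, Finset.prod_congr rfl fun s _ => hQ.card c s]
      simp
    rw [Finset.prod_congr rfl fun c _ => this c]
    simp only [Finset.prod_const, Finset.card_univ, Fintype.card_fin]
    push_cast
    rw [← pow_mul, mul_comm w K]
  have hfin : (B : ℝ) ^ (2 * k) * ‖∑ p ∈ Om Q, G p‖ ≤
      (B : ℝ) ^ (2 * k) * ((B : ℝ) ^ (K * w) * beta r) := by
    calc (B : ℝ) ^ (2 * k) * ‖∑ p ∈ Om Q, G p‖ = ‖(B : ℂ) ^ (2 * k) * ∑ p ∈ Om Q, G p‖ := by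
          rw [norm_mul, norm_pow, Complex.norm_natCast]
      _ ≤ ∑ p ∈ Om Q, ‖∑ x ∈ Fintype.piFinset Q1, ∑ y ∈ Fintype.piFinset Q2,
            G (PAIR.up ε c2 y (PAIR.up ε c1 x p))‖ := by
          rw [hres]
          exact norm_sum_le _ _
      _ ≤ ∑ _p ∈ Om Q, (B : ℝ) ^ (2 * k) * beta r := Finset.sum_le_sum hbeta
      _ = (B : ℝ) ^ (2 * k) * ((B : ℝ) ^ (K * w) * beta r) := by
          rw [Finset.sum_const, nsmul_eq_mul, hOm]
          ring
  have hBpos : (0 : ℝ) < (B : ℝ) ^ (2 * k) := by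
    have : (0 : ℝ) < (B : ℝ) := by exact_mod_cast hB0
    positivity
  exact le_of_mul_le_mul_left hfin hBpos

end Pool.Agent.H256R2.EF
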