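import Pool.Agent.H256R2.EF.CNT
import Pool.Agent.H256R2.EF.PAIR

set_option autoImplicit false

namespace Pool.Agent.H256R2.EF

open Finset

namespace MomAux

lemma card_Om {K w Y B : ℕ} (Q : Fin K → Fin w → Finset ℕ) (hQ : Pools Y B Q) :
    (Om Q).card = B ^ (K * w) := by
  unfold Om
  rw [Fintype.card_piFinset]
  simp only [Fintype.card_piFinset, hQ.card]
  simp [← pow_mul, mul_comm]

lemma sq_F {K w : ℕ} (M : ℕ) [NeZero M] (p : Fin K → Fin w → ℕ) (a : ZMod M) :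
    ((‖F M p a‖ ^ 2 : ℝ) : ℂ) = (∑ ε : Fin K → Fin w, ∑ ε' : Fin K → Fin w,
      (ZMod.stdAddChar (a * ((fam p ε : ZMod M) - (fam p ε' : ZMod M))) : ℂ)) /
        (w : ℂ) ^ (2 * K) := by
  have h1 : ((‖F M p a‖ ^ 2 : ℝ) : ℂ) = F M p a * (starRingEnd ℂ) (F M p a) := by
    rw [Complex.mul_conj, Complex.normSq_eq_norm_sq]
  rw [h1]
  unfold F
  rw [map_div₀, map_sum, map_pow, Complex.conj_natCast, div_mul_div_comm, ← pow_add,
    ← two_mul, Finset.sum_mul_sum]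
  congr 1
  refine sum_congr rfl fun ε _ => sum_congr rfl fun ε' _ => ?_
  rw [← AddChar.map_neg_eq_conj, ← AddChar.map_add_eq_mul]
  congr 1
  ring

lemma norm_char (M : ℕ) [NeZero M] (x : ZMod M) : ‖(ZMod.stdAddChar x : ℂ)‖ = 1 :=
  AddChar.norm_apply _ _

/-- real exponent of the count -/
lemma root4 (n m : ℕ) (x : ℝ) (hx : 0 ≤ x) (h : n ^ 4 ≤ m) (hm : (m : ℝ) ≤ x ^ 4) : (n : ℝ) ≤ x := by
  have h1 : ((n : ℝ)) ^ 4 ≤ x ^ 4 := le_trans (by exact_mod_cast h) hm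
  exact le_of_pow_le_pow_left₀ (by norm_num) hx h1

end MomAux

open MomAux

set_option linter.unusedVariables false in
theorem second_moment_of
    (pair_bound : ∀ (Y B k M r : ℕ) {K w : ℕ} [NeZero M] (a : ZMod M) (hr : addOrderOf a = r)
    (hYr : Y < r) (hk : r ≤ (4 * Y) ^ k) (hk' : (4 * Y) ^ k ≤ 4 * Y * r) (hB0 : 0 < B)
    (hB : (4 * Y) ^ 9 ≤ B ^ 10) (Q : Fin K → Fin w → Finset ℕ) (hQ : Pools Y B Q)
    (hM : ∀ c s, ∀ q ∈ Q c s, Nat.Coprime q M) (ε ε' : Fin K → Fin w)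
    (hJ : 2 * k ≤ (Finset.univ.filter (fun c => ε c ≠ ε' c)).card),
    ‖∑ p ∈ Om Q, (ZMod.stdAddChar (a * ((fam p ε : ZMod M) - (fam p ε' : ZMod M))) : ℂ)‖
      ≤ (B : ℝ) ^ (K * w) * beta r)
    (Y B M r : ℕ) {K w : ℕ} [NeZero M] (a : ZMod M) (hr : addOrderOf a = r)
    (hY : 2 ≤ Y) (hYr : Y < r) (hK : 32 ≤ K) (hw : 2 ≤ w) (hwY : w ≤ 4 * Y)
    (hMw : M ^ 32 ≤ w ^ K) (hB0 : 0 < B) (hB : (4 * Y) ^ 9 ≤ B ^ 10)
    (Q : Fin K → Fin w → Finset ℕ) (hQ : Pools Y B Q)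
    (hM : ∀ c s, ∀ q ∈ Q c s, Nat.Coprime q M) :
    ∑ p ∈ Om Q, ‖F M p a‖ ^ 2 ≤ (B : ℝ) ^ (K * w) * (2 * beta r) := by
  classical
  have hb1 : 1 < 4 * Y := by omega
  set k := Nat.clog (4 * Y) r with hkdef
  have hk : r ≤ (4 * Y) ^ k := Nat.le_pow_clog hb1 r
  have hr1 : 1 < r := by omega
  have hlt : (4 * Y) ^ (k - 1) < r := Nat.pow_pred_clog_lt_self hb1 hr1
  have hk1 : 1 ≤ k := by
    by_contra hcon
    have hk0 : k = 0 := by omega
    rw [hk0] at hk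
    simp at hk
    omega
  have hk' : (4 * Y) ^ k ≤ 4 * Y * r := by
    have : (4 * Y) ^ k = 4 * Y * (4 * Y) ^ (k - 1) := by
      rw [← pow_succ']
      congr 1
      omega
    rw [this]
    exact Nat.mul_le_mul_left _ hlt.le
  have hM0 : 0 < M := Nat.pos_of_ne_zero (NeZero.ne M)
  have hrM : r ≤ M := by
    rw [← hr]
    have h1 : addOrderOf a ∣ M := by
      rw [addOrderOf_dvd_iff_nsmul_eq_zero]
      simp
    exact Nat.le_of_dvd hM0 h1
  have h32 : 32 * (k - 1) < K := by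
    have h1 : (4 * Y) ^ (32 * (k - 1)) < (4 * Y) ^ K := by
      calc (4 * Y) ^ (32 * (k - 1)) = ((4 * Y) ^ (k - 1)) ^ 32 := by
            rw [← pow_mul]; congr 1; ring
        _ < r ^ 32 := Nat.pow_lt_pow_left hlt (by norm_num)
        _ ≤ M ^ 32 := Nat.pow_le_pow_left hrM 32
        _ ≤ w ^ K := hMw
        _ ≤ (4 * Y) ^ K := Nat.pow_le_pow_left hwY K
    exact (Nat.pow_lt_pow_iff_right hb1).mp h1
  have h16 : 16 * k ≤ K := by omega
  have hwr : (0 : ℝ) < w := by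
    have : 0 < w := by omega
    exact_mod_cast this
  have hBr : (0 : ℝ) < B := by exact_mod_cast hB0
  have hrr : (1 : ℝ) < r := by exact_mod_cast hr1
  have hβ0 : 0 ≤ beta r := by unfold beta; positivity
  -- the total as a norm
  set S : (Fin K → Fin w) → (Fin K → Fin w) → ℂ := fun ε ε' =>
    ∑ p ∈ Om Q, (ZMod.stdAddChar (a * ((fam p ε : ZMod M) - (fam p ε' : ZMod M))) : ℂ) with hS
  have htot : (((∑ p ∈ Om Q, ‖F M p a‖ ^ 2 : ℝ)) : ℂ) =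
      (∑ ε : Fin K → Fin w, ∑ ε' : Fin K → Fin w, S ε ε') / (w : ℂ) ^ (2 * K) := by
    rw [Complex.ofReal_sum]
    simp only [sq_F]
    rw [← Finset.sum_div]
    congr 1
    rw [Finset.sum_comm]
    refine sum_congr rfl fun ε _ => ?_
    rw [Finset.sum_comm]
  have hnn : 0 ≤ ∑ p ∈ Om Q, ‖F M p a‖ ^ 2 := sum_nonneg fun _ _ => by positivity
  have hnorm : ∑ p ∈ Om Q, ‖F M p a‖ ^ 2 ≤
      (∑ ε : Fin K → Fin w, ∑ ε' : Fin K → Fin w, ‖S ε ε'‖) / (w : ℝ) ^ (2 * K) := by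
    have h1 : ∑ p ∈ Om Q, ‖F M p a‖ ^ 2 = ‖(((∑ p ∈ Om Q, ‖F M p a‖ ^ 2 : ℝ)) : ℂ)‖ := by
      rw [Complex.norm_real, Real.norm_of_nonneg hnn]
    rw [h1, htot, norm_div, norm_pow, Complex.norm_natCast]
    gcongr
    exact (norm_sum_le _ _).trans (sum_le_sum fun ε _ => norm_sum_le _ _)
  have hcardOm := card_Om Q hQ
  have htriv : ∀ ε ε', ‖S ε ε'‖ ≤ (B : ℝ) ^ (K * w) := by
    intro ε ε'
    refine (norm_sum_le _ _).trans ?_
    simp only [norm_char]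
    rw [sum_const, hcardOm]
    simp
  -- bound the row sums
  have hrow : ∀ ε : Fin K → Fin w, ∑ ε' : Fin K → Fin w, ‖S ε ε'‖ ≤
      (B : ℝ) ^ (K * w) * ((w : ℝ) ^ ((3 : ℝ) * K / 4) + (w : ℝ) ^ K * beta r) := by
    intro ε
    set Cl := Finset.univ.filter (fun ε' : Fin K → Fin w =>
      (Finset.univ.filter (fun c => ε c ≠ ε' c)).card < 2 * k) with hCl
    have h1 : ∀ ε' : Fin K → Fin w, ‖S ε ε'‖ ≤
        (if ε' ∈ Cl then (B : ℝ) ^ (K * w) else 0) + (B : ℝ) ^ (K * w) * beta r := by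
      intro ε'
      split_ifs with h
      · have := htriv ε ε'
        have h2 : 0 ≤ (B : ℝ) ^ (K * w) * beta r := by positivity
        linarith
      · rw [zero_add]
        apply pair_bound Y B k M r a hr hYr hk hk' hB0 hB Q hQ hM ε ε'
        rw [hCl, mem_filter] at h
        push Not at h
        exact h (mem_univ _)
    have h2 : (Cl.card : ℝ) ≤ (w : ℝ) ^ ((3 : ℝ) * K / 4) := by
      refine root4 _ _ _ (by positivity) (count_close K w k hw h16 ε) ?_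
      rw [← Real.rpow_natCast ((w : ℝ) ^ ((3 : ℝ) * K / 4)) 4, ← Real.rpow_mul hwr.le]
      have : (3 : ℝ) * K / 4 * ((4 : ℕ) : ℝ) = ((3 * K : ℕ) : ℝ) := by push_cast; ring
      rw [this, Real.rpow_natCast]
      push_cast
      exact le_rfl
    calc ∑ ε' : Fin K → Fin w, ‖S ε ε'‖ ≤ ∑ ε' : Fin K → Fin w,
          ((if ε' ∈ Cl then (B : ℝ) ^ (K * w) else 0) + (B : ℝ) ^ (K * w) * beta r) :=
          sum_le_sum fun ε' _ => h1 ε'
      _ = (Cl.card : ℝ) * (B : ℝ) ^ (K * w) + (w : ℝ) ^ K * ((B : ℝ) ^ (K * w) * beta r) := by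
          rw [sum_add_distrib, ← sum_filter, sum_const, sum_const]
          simp
      _ ≤ (w : ℝ) ^ ((3 : ℝ) * K / 4) * (B : ℝ) ^ (K * w) +
          (w : ℝ) ^ K * ((B : ℝ) ^ (K * w) * beta r) := by
          gcongr
      _ = _ := by ring
  have hfin : (w : ℝ) ^ K * (w : ℝ) ^ ((3 : ℝ) * K / 4) ≤ (w : ℝ) ^ (2 * K) * beta r := by
    have h1 : (r : ℝ) ^ (8 : ℝ) ≤ (w : ℝ) ^ ((K : ℝ) / 4) := by
      have h2 : ((r : ℝ) ^ (8 : ℝ)) = (((r : ℝ) ^ (32 : ℕ))) ^ ((1 : ℝ) / 4) := by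
        rw [← Real.rpow_natCast, ← Real.rpow_mul (by positivity)]
        norm_num
      have h3 : (w : ℝ) ^ ((K : ℝ) / 4) = ((w : ℝ) ^ K) ^ ((1 : ℝ) / 4) := by
        rw [← Real.rpow_natCast, ← Real.rpow_mul (by positivity)]
        congr 1; ring
      rw [h2, h3]
      apply Real.rpow_le_rpow (by positivity) _ (by norm_num)
      have h4 : r ^ 32 ≤ w ^ K := (Nat.pow_le_pow_left hrM 32).trans hMw
      exact_mod_cast h4
    have h5 : (r : ℝ) ^ (-(8 : ℝ)) ≤ beta r := by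
      unfold beta
      have h6 : (r : ℝ) ^ (-(8 : ℝ)) = ((r : ℝ) ^ (-(160 : ℝ))) ^ ((1 : ℝ) / 20) := by
        rw [← Real.rpow_mul (by positivity)]
        norm_num
      rw [h6]
      apply Real.rpow_le_rpow (by positivity) _ (by norm_num)
      have h7 : (r : ℝ) ^ (-(160 : ℝ)) ≤ (r : ℝ) ^ (-(6 : ℝ)) :=
        Real.rpow_le_rpow_of_exponent_le hrr.le (by norm_num)
      have h8 : (r : ℝ) ^ (-(6 : ℝ)) = 1 / (r : ℝ) ^ 6 := by
        rw [Real.rpow_neg (by positivity), one_div]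
        congr 1
        norm_cast
      rw [h8] at h7
      refine h7.trans ?_
      gcongr
      norm_num
    have h9 : (w : ℝ) ^ (-((K : ℝ) / 4)) ≤ beta r := by
      refine le_trans ?_ h5
      rw [Real.rpow_neg hwr.le, Real.rpow_neg (by positivity)]
      exact inv_anti₀ (by positivity) h1
    calc (w : ℝ) ^ K * (w : ℝ) ^ ((3 : ℝ) * K / 4)
        = (w : ℝ) ^ (2 * K) * (w : ℝ) ^ (-((K : ℝ) / 4)) := by
          rw [← Real.rpow_natCast, ← Real.rpow_natCast, ← Real.rpow_add hwr, ← Real.rpow_add hwr]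
          congr 1
          push_cast; ring
      _ ≤ _ := by gcongr
  have hw2 : (0 : ℝ) < (w : ℝ) ^ (2 * K) := by positivity
  refine hnorm.trans ?_
  rw [div_le_iff₀ hw2]
  calc ∑ ε : Fin K → Fin w, ∑ ε' : Fin K → Fin w, ‖S ε ε'‖
      ≤ ∑ _ε : Fin K → Fin w, (B : ℝ) ^ (K * w) *
          ((w : ℝ) ^ ((3 : ℝ) * K / 4) + (w : ℝ) ^ K * beta r) := sum_le_sum fun ε _ => hrow ε
    _ = (B : ℝ) ^ (K * w) * ((w : ℝ) ^ K * (w : ℝ) ^ ((3 : ℝ) * K / 4) +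
          (w : ℝ) ^ (2 * K) * beta r) := by
        rw [sum_const]
        simp only [card_univ, Fintype.card_pi, Fintype.card_fin, prod_const, nsmul_eq_mul]
        push_cast
        rw [two_mul, pow_add]
        ring
    _ ≤ (B : ℝ) ^ (K * w) * ((w : ℝ) ^ (2 * K) * beta r + (w : ℝ) ^ (2 * K) * beta r) := by
        gcongr
    _ = (B : ℝ) ^ (K * w) * (2 * beta r) * (w : ℝ) ^ (2 * K) := by ring

/-- MOM. -/
theorem second_moment (Y B M r : ℕ) {K w : ℕ} [NeZero M] (a : ZMod M) (hr : addOrderOf a = r)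
    (hY : 2 ≤ Y) (hYr : Y < r) (hK : 32 ≤ K) (hw : 2 ≤ w) (hwY : w ≤ 4 * Y)
    (hMw : M ^ 32 ≤ w ^ K) (hB0 : 0 < B) (hB : (4 * Y) ^ 9 ≤ B ^ 10)
    (Q : Fin K → Fin w → Finset ℕ) (hQ : Pools Y B Q)
    (hM : ∀ c s, ∀ q ∈ Q c s, Nat.Coprime q M) :
    ∑ p ∈ Om Q, ‖F M p a‖ ^ 2 ≤ (B : ℝ) ^ (K * w) * (2 * beta r) :=
  second_moment_of
    (fun Y B k M r _ _ _ a hr hYr hk hk' hB0 hB Q hQ hM ε ε' hJ =>
      pair_bound Y B k M r a hr hYr hk hk' hB0 hB Q hQ hM ε ε' hJ)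
    Y B M r a hr hY hYr hK hw hwY hMw hB0 hB Q hQ hM

end Pool.Agent.H256R2.EF
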