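import Pool.Agent.H256R2.EF.CONSTEP
import Pool.Agent.H256R2.EF.LEVBASE
import Pool.Agent.H256R2.EF.ASY1

/-!
Task PRACT: practical numbers with few summands (helper256).
-/

set_option autoImplicit false

namespace Pool.Agent.H256R2.EF

open Finset

namespace PRACT

theorem pow_lt (T : ℕ) (hT : 10 ≤ T) : 20 * T + 382 < 2 ^ T := by
  induction T, hT using Nat.le_induction with
  | base => norm_num
  | succ T hT ih => rw [pow_succ]; omega

theorem core : ∃ T0 : ℕ, ∀ T ≥ T0, ∃ N h : ℕ, 2 ^ 2 ^ T ≤ N ∧ Rep N N h ∧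
    h ≤ 10 ^ 12 * T ^ 2 := by
  obtain ⟨Y1, hY1⟩ := con_step
  obtain ⟨Y2, hY2⟩ := STEPAUX.many
  refine ⟨max 10 (max Y1 Y2), fun T hT => ?_⟩
  have hT10 : 10 ≤ T := le_trans (le_max_left _ _) hT
  have hTY1 : Y1 ≤ T := le_trans (le_trans (le_max_left _ _) (le_max_right _ _)) hT
  have hTY2 : Y2 ≤ T := le_trans (le_trans (le_max_right _ _) (le_max_right _ _)) hT
  obtain ⟨ℓ, hℓ⟩ : ∃ ℓ, ℓ = 20 * T + 382 := ⟨_, rfl⟩
  obtain ⟨Y, hY⟩ : ∃ Y, Y = (80 * Kn T) ^ 20 := ⟨_, rfl⟩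
  have h2T : 20 * T + 382 < 2 ^ T := pow_lt T hT10
  have hKT : Kn T = 4096 * 2 ^ T := rfl
  have hKTY : (80 * Kn T) ^ 2 ≤ Y := by
    rw [hY]
    exact Nat.pow_le_pow_right (by omega) (by norm_num)
  have hbig : 16 * (80 * Kn T) ^ 2 ≤ Y := by
    rw [hY]
    calc 16 * (80 * Kn T) ^ 2 ≤ (80 * Kn T) * (80 * Kn T) ^ 2 :=
          Nat.mul_le_mul_right _ (by omega)
      _ = (80 * Kn T) ^ 3 := by ring
      _ ≤ _ := Nat.pow_le_pow_right (by omega) (by norm_num)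
  have hKTY' : 80 * Kn T ≤ Y := by
    rw [hY]
    exact Nat.le_self_pow (by norm_num) _
  have hTY : T ≤ Y := by omega
  have h4 : 4 * Y ≤ 2 ^ ℓ := by
    rw [hY, hℓ, hKT]
    calc 4 * (80 * (4096 * 2 ^ T)) ^ 20 = 4 * 327680 ^ 20 * (2 ^ T) ^ 20 := by ring
      _ ≤ 2 ^ 382 * (2 ^ T) ^ 20 := by
          refine Nat.mul_le_mul_right _ ?_
          calc 4 * 327680 ^ 20 ≤ 4 * (2 ^ 19) ^ 20 := by gcongr; norm_num
            _ = 2 ^ 382 := by rw [← pow_mul, show (4:ℕ) = 2 ^ 2 from rfl, ← pow_add]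
      _ = 2 ^ (20 * T + 382) := by rw [← pow_mul, ← pow_add]; ring_nf
  obtain ⟨n0, hn0⟩ : ∃ n0, n0 = Nat.log 2 ℓ := ⟨_, rfl⟩
  have hn1 : 2 ^ n0 ≤ ℓ := by rw [hn0]; exact Nat.pow_log_le_self 2 (by omega)
  have hn2 : ℓ < 2 ^ (n0 + 1) := by rw [hn0]; exact Nat.lt_pow_succ_log_self (by norm_num) _
  have hn3 : n0 ≤ T := by
    by_contra hc
    push Not at hc
    have : 2 ^ T ≤ 2 ^ n0 := Nat.pow_le_pow_right (by norm_num) hc.le
    omega
  have hKn0 : Kn n0 = 4096 * 2 ^ n0 := rfl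
  have hℓK : 32 * ℓ ≤ Kn n0 := by
    rw [pow_succ] at hn2
    omega
  have hbase : Con Y (655360 * ℓ ^ 2) 1 n0 0 (2 * (655360 * ℓ ^ 2) + 2) := by
    refine con_base_two Y ℓ _ n0 (by omega) h4 ?_
    rw [hKn0]
    calc 160 * (4096 * 2 ^ n0) * ℓ ≤ 160 * (4096 * ℓ) * ℓ := by gcongr
      _ = 655360 * ℓ ^ 2 := by ring
  obtain ⟨k, hk⟩ : ∃ k, T = n0 + k := ⟨T - n0, by omega⟩
  have hchain := con_chain Y ℓ (655360 * ℓ ^ 2) 1 n0 0 (2 * (655360 * ℓ ^ 2) + 2)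
    (hY1 Y (by omega)) h4 hℓK (by omega) hbase k (by rw [← hk, hY])
  rw [← hk] at hchain
  obtain ⟨V, hV1, hV2⟩ := Finset.exists_subset_card_eq
    (hY2 Y (by omega) (160 * Kn T) (by
      calc (160 * Kn T) ^ 2 = 4 * (80 * Kn T) ^ 2 := by ring
        _ ≤ 16 * (80 * Kn T) ^ 2 := Nat.mul_le_mul_right _ (by norm_num)
        _ ≤ Y := hbig))
  obtain ⟨W, hW1, -, hW3, X, hX1, hX2⟩ := hchain V ∅ hV1 hV2.le (by
    rw [hV2, card_empty]
    calc (160 * Kn T + 0 + (0 + 160 * Kn T)) ^ 2 = 16 * (80 * Kn T) ^ 2 := by ring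
      _ ≤ Y := hbig)
  have hVpos := STEPAUX.prod_pos hV1
  have hWpos := STEPAUX.prod_pos hW1
  refine ⟨_, _, ?_, STEPAUX.Rep_mono (h' := 2 * (655360 * ℓ ^ 2) + 2 + 40 * (10240 * ℓ + 1) * k)
    (by positivity) dvd_rfl ?_ le_rfl hX2, ?_⟩
  · have h5 := STEPAUX.prod_ge hV1
    rw [hV2] at h5
    calc 2 ^ 2 ^ T ≤ 2 ^ (160 * Kn T) := Nat.pow_le_pow_right (by norm_num) (by omega)
      _ ≤ Y ^ (160 * Kn T) := Nat.pow_le_pow_left (by omega) _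
      _ ≤ ∏ q ∈ V, q := h5
      _ ≤ (∏ q ∈ V, q) * (2 ^ (655360 * ℓ ^ 2) * ∏ q ∈ W, q) :=
          Nat.le_mul_of_pos_right _ (by positivity)
  · refine Nat.mul_le_mul_left _ ?_
    rw [one_mul] at hX1
    exact hX1
  · have hℓT : ℓ ≤ 59 * T := by omega
    have hkT : k ≤ T := by omega
    have h6 : ℓ ^ 2 ≤ (59 * T) ^ 2 := Nat.pow_le_pow_left hℓT 2
    have h7 : 40 * (10240 * ℓ + 1) * k ≤ 40 * (10240 * (59 * T) + 1) * T := by gcongr
    have h8 : 1 ≤ T := by omega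
    have h9 : T ≤ T ^ 2 := Nat.le_self_pow (by norm_num) _
    have h10 : (59 * T) ^ 2 = 3481 * T ^ 2 := by ring
    have h11 : 40 * (10240 * (59 * T) + 1) * T = 24166400 * T ^ 2 + 40 * T := by ring
    omega

end PRACT

/-- PRACT: practical numbers. -/
theorem practical : ∃ C : ℝ, ∀ N0 : ℕ, ∃ N ≥ N0, ∀ m ≤ N, ∃ D : Finset ℕ, D ⊆ N.divisors ∧
    ∑ d ∈ D, d = m ∧ (D.card : ℝ) ≤ C * (Real.log (Real.log N)) ^ 2 := by
  obtain ⟨T0, hT0⟩ := PRACT.core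
  refine ⟨4 * 10 ^ 12, fun N0 => ?_⟩
  obtain ⟨T, hT⟩ : ∃ T, T = max 4 (max T0 N0) := ⟨_, rfl⟩
  obtain ⟨N, h, h1, h2, h3⟩ := hT0 T (by omega)
  have hNT : T ≤ N := by
    have a1 : T < 2 ^ T := Nat.lt_two_pow_self
    have a2 : 2 ^ T < 2 ^ 2 ^ T := Nat.lt_two_pow_self
    omega
  refine ⟨N, by omega, fun m hm => ?_⟩
  obtain ⟨D, hD1, hD2, hD3⟩ := h2 m hm
  refine ⟨D, hD1, hD2, ?_⟩
  have l2 : 0 < Real.log 2 := Real.log_pos (by norm_num)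
  have hlog : (T : ℝ) / 2 ≤ Real.log (Real.log N) := by
    have b1 : ((2:ℝ) ^ 2 ^ T) ≤ N := by exact_mod_cast h1
    have b2 : (2:ℝ) ^ T * Real.log 2 ≤ Real.log N := by
      have := Real.log_le_log (by positivity) b1
      rw [Real.log_pow] at this
      push_cast at this
      exact this
    have b3 : Real.log ((2:ℝ) ^ T * Real.log 2) ≤ Real.log (Real.log N) :=
      Real.log_le_log (by positivity) b2
    have b4 : Real.log ((2:ℝ) ^ T * Real.log 2) = T * Real.log 2 + Real.log (Real.log 2) := by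
      rw [Real.log_mul (by positivity) (by positivity), Real.log_pow]
    have b5 : -Real.log 2 ≤ Real.log (Real.log 2) := by
      rw [← Real.log_inv]
      refine Real.log_le_log (by norm_num) ?_
      have := Real.log_two_gt_d9
      linarith
    have b6 := Real.log_two_gt_d9
    have b7 := Real.log_two_lt_d9
    have b8 : (4:ℝ) ≤ T := by
      have : 4 ≤ T := by omega
      exact_mod_cast this
    nlinarith
  have c1 : (D.card : ℝ) ≤ 10 ^ 12 * (T:ℝ) ^ 2 := by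
    have : D.card ≤ 10 ^ 12 * T ^ 2 := hD3.trans h3
    exact_mod_cast this
  have c2 : ((T:ℝ) / 2) ^ 2 ≤ (Real.log (Real.log N)) ^ 2 :=
    pow_le_pow_left₀ (by positivity) hlog 2
  nlinarith

end Pool.Agent.H256R2.EF
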