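import Pool.Agent.H256R2.EF.Defs

/-! Task REC (helper488). -/

set_option autoImplicit false

namespace Pool.Agent.H256R2.EF

open Finset

/-- REC. -/
theorem rep_rec (t T N X h : ℕ) (hN : 0 < N) (hTX : T ≤ X) (hR : Rep N X h) (Ps : List ℕ)
    (hP : ∀ P ∈ Ps, 1 < P ∧ ∀ m : ℕ, ∃ D : Finset ℕ, D ⊆ N.divisors ∧ D.card ≤ t ∧
      ∑ d ∈ D, d ≤ T ∧ (∑ d ∈ D, d) ≡ m [MOD P] ∧ ∀ d ∈ D, ¬ P ∣ d) :
    Rep (N * Ps.prod) (X * Ps.prod) (h + t * Ps.length) := by
  classical
  induction Ps with
  | nil => simpa using hR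
  | cons P Ps ih =>
    have hP' : ∀ P ∈ Ps, 1 < P ∧ ∀ m : ℕ, ∃ D : Finset ℕ, D ⊆ N.divisors ∧ D.card ≤ t ∧
        ∑ d ∈ D, d ≤ T ∧ (∑ d ∈ D, d) ≡ m [MOD P] ∧ ∀ d ∈ D, ¬ P ∣ d :=
      fun Q hQ => hP Q (List.mem_cons_of_mem _ hQ)
    have ih' := ih hP'
    obtain ⟨hP1, hPD⟩ := hP P List.mem_cons_self
    have hpos : 0 < Ps.prod := by
      apply List.prod_pos
      intro Q hQ
      have := (hP' Q hQ).1
      omega
    have hne : N * (P :: Ps).prod ≠ 0 := by
      rw [List.prod_cons]
      positivity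
    intro m hm
    rw [List.prod_cons] at hm hne ⊢
    by_cases hmX : m ≤ X
    · obtain ⟨D, hD1, hD2, hD3⟩ := hR m hmX
      refine ⟨D, ?_, hD2, by omega⟩
      intro d hd
      have := Nat.dvd_of_mem_divisors (hD1 hd)
      exact Nat.mem_divisors.2 ⟨this.mul_right _, hne⟩
    · push Not at hmX
      obtain ⟨D, hD1, hD2, hD3, hD4, hD5⟩ := hPD m
      set s := ∑ d ∈ D, d with hs
      have hsm : s ≤ m := by omega
      obtain ⟨m', hm'⟩ := (Nat.modEq_iff_dvd' hsm).1 hD4
      have hmm : m = s + P * m' := by omega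
      have hm'X : m' ≤ X * Ps.prod := by
        have h1 : P * m' ≤ P * (X * Ps.prod) := by
          calc P * m' ≤ m := by omega
            _ ≤ X * (P * Ps.prod) := hm
            _ = P * (X * Ps.prod) := by ring
        exact Nat.le_of_mul_le_mul_left h1 (by omega)
      obtain ⟨E, hE1, hE2, hE3⟩ := ih' m' hm'X
      have hinj : Function.Injective (fun e : ℕ => P * e) := by
        intro a b hab
        exact Nat.eq_of_mul_eq_mul_left (by omega) hab
      have hdisj : Disjoint D (E.image (fun e => P * e)) := by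
        rw [Finset.disjoint_left]
        intro d hd hd'
        obtain ⟨e, -, he⟩ := Finset.mem_image.1 hd'
        exact hD5 d hd ⟨e, he.symm⟩
      refine ⟨D ∪ E.image (fun e => P * e), ?_, ?_, ?_⟩
      · intro d hd
        rw [Finset.mem_union] at hd
        rcases hd with hd | hd
        · exact Nat.mem_divisors.2 ⟨(Nat.dvd_of_mem_divisors (hD1 hd)).mul_right _, hne⟩
        · obtain ⟨e, he, rfl⟩ := Finset.mem_image.1 hd
          have h1 := Nat.dvd_of_mem_divisors (hE1 he)
          refine Nat.mem_divisors.2 ⟨?_, hne⟩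
          have h2 : N * (P * Ps.prod) = P * (N * Ps.prod) := by ring
          rw [h2]
          exact Nat.mul_dvd_mul_left P h1
      · rw [Finset.sum_union hdisj, Finset.sum_image (fun a _ b _ hab => hinj hab),
          ← Finset.mul_sum, hE2, hmm]
      · rw [List.length_cons]
        calc (D ∪ E.image (fun e => P * e)).card ≤ D.card + (E.image (fun e => P * e)).card :=
              Finset.card_union_le _ _
          _ ≤ t + (h + t * Ps.length) := by
              have := Finset.card_image_le (s := E) (f := fun e => P * e)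
              omega
          _ = h + t * (Ps.length + 1) := by ring

end Pool.Agent.H256R2.EF
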