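import Pool.Agent.H256R2.EF.GRP
import Pool.Agent.H256R2.EF.FAM
import Pool.Agent.H256R2.EF.REC
import Pool.Agent.H256R2.EF.PRM

set_option autoImplicit false

/-! Common part of LEVSTEP, CONSTEP, CONBASE (helper332) -/

namespace Pool.Agent.H256R2.EF

open Finset

namespace STEPAUX

theorem Rep_mono {N N' X X' h h' : ℕ} (hN' : N' ≠ 0) (hN : N ∣ N') (hX : X' ≤ X) (hh : h ≤ h')
    (hR : Rep N X h) : Rep N' X' h' := by
  intro m hm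
  obtain ⟨D, h1, h2, h3⟩ := hR m (hm.trans hX)
  exact ⟨D, h1.trans (Nat.divisors_subset_of_dvd hN' hN), h2, h3.trans hh⟩

theorem PP_lt {Y p : ℕ} (h : p ∈ PP Y) : Y < p := by
  simp only [PP, mem_filter, mem_Ioc] at h
  exact h.1.1

theorem PP_le {Y p : ℕ} (h : p ∈ PP Y) : p ≤ 4 * Y := by
  simp only [PP, mem_filter, mem_Ioc] at h
  exact h.1.2

theorem PP_prime {Y p : ℕ} (h : p ∈ PP Y) : p.Prime := by
  simp only [PP, mem_filter, mem_Ioc] at h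
  exact h.2

theorem prod_pos {Y : ℕ} {S : Finset ℕ} (h : S ⊆ PP Y) : 0 < ∏ q ∈ S, q :=
  Finset.prod_pos fun _ hq => (PP_prime (h hq)).pos

theorem prod_ge {Y : ℕ} {S : Finset ℕ} (h : S ⊆ PP Y) : Y ^ S.card ≤ ∏ q ∈ S, q := by
  rw [← Finset.prod_const]
  exact Finset.prod_le_prod' fun _ hq => (PP_lt (h hq)).le

theorem prod_le {Y : ℕ} {S : Finset ℕ} (h : S ⊆ PP Y) : ∏ q ∈ S, q ≤ (4 * Y) ^ S.card := by
  rw [← Finset.prod_const]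
  exact Finset.prod_le_prod' fun _ hq => PP_le (h hq)

theorem core : ∃ Y0 : ℕ, ∀ Y ≥ Y0, ∀ K w : ℕ, 32 ≤ K → 2 ≤ w → (40 * K * w) ^ 20 ≤ Y →
    ∀ U G : Finset ℕ, G ⊆ PP Y → G ⊆ U → U.card ^ 2 ≤ Y → ∀ γ : ℕ, 1 ≤ γ →
    ((4 * Y) ^ γ) ^ 32 ≤ w ^ K → G.card / γ + 1 ≤ Y →
    ∃ S : Finset ℕ, S ⊆ PP Y ∧ Disjoint S U ∧ S.card = 40 * K * w ∧
      ∀ N X h : ℕ, 0 < N → (∏ q ∈ S, q) ∣ N → 40 * (4 * Y) ^ K ≤ X → Rep N X h →
        Rep (N * ∏ q ∈ G, q) (X * ∏ q ∈ G, q) (h + 40 * (G.card / γ + 1)) := by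
  obtain ⟨Y0, hY0⟩ := fam_exists
  refine ⟨Y0, fun Y hY K w hK hw hKw U G hG hGU hU γ hγ hγw hlen => ?_⟩
  obtain ⟨Ps, hPs, hPl, hPP⟩ := group_primes G (4 * Y) γ
    (fun p hp => ⟨PP_prime (hG hp), PP_le (hG hp)⟩) hγ
  obtain ⟨S, hS1, hS2, hS3, hS4⟩ := hY0 Y hY K w hK hw hKw U Ps.toFinset hU
    ((List.toFinset_card_le Ps).trans (hPl.trans hlen)) (by
      intro M hM
      rw [List.mem_toFinset] at hM
      obtain ⟨h1, h2, h3⟩ := hPP M hM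
      refine ⟨h1, (Nat.pow_le_pow_left h2 32).trans hγw, fun p hp hpM => ?_⟩
      have h4 := h3 p hp hpM
      exact ⟨PP_lt (hG h4), fun _ => hGU h4⟩)
  refine ⟨S, hS1, hS2, hS3, fun N X h hN hSN hX hR => ?_⟩
  have key := rep_rec 40 (40 * (4 * Y) ^ K) N X h hN hX hR Ps (by
    intro P hP
    refine ⟨(hPP P hP).1, fun m => ?_⟩
    obtain ⟨D, hD1, hD2, hD3, hD4, hD5⟩ := hS4 P (List.mem_toFinset.2 hP) m
    refine ⟨D, hD1.trans (Nat.divisors_subset_of_dvd hN.ne' hSN), hD2.le, hD4, hD3, ?_⟩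
    intro d hd hPd
    have h1 := (hPP P hP).1
    have h2 : P ∣ Nat.gcd d P := Nat.dvd_gcd hPd dvd_rfl
    rw [hD5 d hd] at h2
    have := Nat.le_of_dvd one_pos h2
    omega)
  rw [hPs] at key
  refine Rep_mono ?_ dvd_rfl le_rfl ?_ key
  · exact (Nat.mul_pos hN (prod_pos hG)).ne'
  · gcongr

/-- many primes -/
theorem many : ∃ Y0 : ℕ, ∀ Y ≥ Y0, ∀ t : ℕ, t ^ 2 ≤ Y → t ≤ (PP Y).card := by
  obtain ⟨Y0, hY0⟩ := primes_count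
  refine ⟨max Y0 128, fun Y hY t ht => ?_⟩
  have h1 := hY0 Y (le_trans (le_max_left _ _) hY)
  have h2 : 128 ≤ Y := le_trans (le_max_right _ _) hY
  have h3 : (Nat.log 2 (4 * Y) + 1) ^ 2 ≤ Y := by
    have h4 : 2 ^ Nat.log 2 (4 * Y) ≤ 4 * Y := Nat.pow_log_le_self 2 (by omega)
    have h5 : 9 ≤ Nat.log 2 (4 * Y) := by
      rw [Nat.le_log_iff_pow_le (by norm_num) (by omega)]
      omega
    have h6 : ∀ l : ℕ, 9 ≤ l → 4 * (l + 1) ^ 2 ≤ 2 ^ l := by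
      intro l hl
      induction l, hl using Nat.le_induction with
      | base => norm_num
      | succ l hl ih =>
        have h7 : 2 ^ (l + 1) = 2 * 2 ^ l := by ring
        rw [h7]
        nlinarith
    have := h6 _ h5
    omega
  have h4 : Y * Y ≤ (PP Y).card ^ 2 * Y := by
    calc Y * Y ≤ ((PP Y).card * (Nat.log 2 (4 * Y) + 1)) *
          ((PP Y).card * (Nat.log 2 (4 * Y) + 1)) := Nat.mul_le_mul h1 h1
      _ = (PP Y).card ^ 2 * (Nat.log 2 (4 * Y) + 1) ^ 2 := by ring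
      _ ≤ _ := Nat.mul_le_mul_left _ h3
  have h5 : Y ≤ (PP Y).card ^ 2 := Nat.le_of_mul_le_mul_right h4 (by omega)
  exact (Nat.pow_le_pow_iff_left (by norm_num : (2:ℕ) ≠ 0)).1 (ht.trans h5)

/-- size of the groups -/
theorem gam {B ℓ γ : ℕ} (hℓ : 0 < ℓ) (hB : 32 * ℓ ≤ B) (hγ : γ = B / (32 * ℓ)) :
    1 ≤ γ ∧ 32 * ℓ * γ ≤ B ∧ B < 64 * ℓ * γ := by
  have h0 : 0 < 32 * ℓ := by omega
  have h1 : 1 ≤ γ := by
    rw [hγ]
    exact (Nat.one_le_div_iff h0).2 hB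
  have h2 : 32 * ℓ * γ ≤ B := by
    rw [hγ]
    exact Nat.mul_div_le _ _
  have h3 : B < 32 * ℓ * (γ + 1) := by
    rw [hγ]
    exact Nat.lt_mul_div_succ _ h0
  refine ⟨h1, h2, ?_⟩
  nlinarith

theorem pow_bound {Y ℓ γ w K B : ℕ} (hℓ : 4 * Y ≤ 2 ^ ℓ) (hγ : 32 * ℓ * γ ≤ B)
    (hw : 2 ^ B ≤ w ^ K) : ((4 * Y) ^ γ) ^ 32 ≤ w ^ K := by
  calc ((4 * Y) ^ γ) ^ 32 ≤ ((2 ^ ℓ) ^ γ) ^ 32 := by gcongr
    _ = 2 ^ (32 * ℓ * γ) := by rw [← pow_mul, ← pow_mul]; ring_nf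
    _ ≤ 2 ^ B := Nat.pow_le_pow_right (by norm_num) hγ
    _ ≤ _ := hw

theorem Kn_pos (n : ℕ) : 4096 ≤ Kn n := by
  unfold Kn
  have := Nat.one_le_two_pow (n := n)
  omega

theorem Kn_succ (n : ℕ) : Kn (n + 1) = 2 * Kn n := by
  unfold Kn
  rw [pow_succ]; ring

end STEPAUX

end Pool.Agent.H256R2.EF
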